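import Mathlib

set_option autoImplicit false

namespace Pool.Agent.Helper43.Ramsey

open Polynomial Finset

section Descent

variable {L : Type*} [Field L]

/-- polynomials all of whose exponents are 0, 1, 2 mod R -/
def V (R : ℕ) (p : L[X]) : Prop := ∀ n, 3 ≤ n % R → p.coeff n = 0

lemma V.X_pow_dvd {R : ℕ} (hR : 6 ≤ R) {p : L[X]} (hp : V R p) (h : X ^ (R/2) ∣ p) :
    X ^ R ∣ p := by
  rw [X_pow_dvd_iff] at h ⊢
  intro d hd
  by_cases h1 : d < R/2
  · exact h d h1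
  · apply hp
    rw [Nat.mod_eq_of_lt hd]
    omega

lemma V.of_mul {R : ℕ} {p : L[X]} (hp : V R (X ^ R * p)) : V R p := by
  intro n hn
  have := hp (n + R) (by simpa using hn)
  rwa [mul_comm, coeff_mul_X_pow] at this

lemma V.add {R : ℕ} {p q : L[X]} (hp : V R p) (hq : V R q) : V R (p + q) := by
  intro n hn
  rw [coeff_add, hp n hn, hq n hn, add_zero]

lemma V.C_mul {R : ℕ} {p : L[X]} (c : L) (hp : V R p) : V R (C c * p) := by
  intro n hn
  rw [coeff_C_mul, hp n hn, mul_zero]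

lemma V.X_pow_mul {R : ℕ} {p : L[X]} (hp : V R p) : V R (X ^ R * p) := by
  intro n hn
  rw [coeff_X_pow_mul']
  split_ifs with h
  · apply hp
    have : n = n - R + R := by omega
    rw [this, Nat.add_mod_right] at hn
    exact hn
  · rfl

lemma V.sum {R : ℕ} {ι : Type*} (s : Finset ι) (p : ι → L[X]) (hp : ∀ i ∈ s, V R (p i)) :
    V R (∑ i ∈ s, p i) := by
  intro n hn
  rw [finset_sum_coeff]
  exact Finset.sum_eq_zero (fun i hi => hp i hi n hn)

lemma descent_dvd {R : ℕ} (hR : 6 ≤ R) (D G : L[X]) (hD0 : D.coeff 0 = 0) (hD1 : D.coeff 1 ≠ 0)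
    (hG : G.coeff 0 ≠ 0) (n : ℕ) : ∀ (p q : L[X]), V R p → V R q →
    p * D ^ (R/2) + q * G = 0 → X ^ (R * n) ∣ p ∧ X ^ (R * n) ∣ q := by
  obtain ⟨E, hE⟩ : X ∣ D := by rw [X_dvd_iff]; exact hD0
  have hE0 : ¬ (X : L[X]) ∣ E := by
    rw [X_dvd_iff]
    intro h
    apply hD1
    rw [hE, show (1:ℕ) = 0 + 1 from rfl, coeff_X_mul, h]
  have hG0 : ¬ (X : L[X]) ∣ G := by rw [X_dvd_iff]; exact hG
  induction n with
  | zero => intro p q _ _ _; simp
  | succ n ih =>
    intro p q hp hq h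
    have hq1 : X ^ R ∣ q := by
      apply hq.X_pow_dvd hR
      have : X ^ (R/2) ∣ q * G := by
        have h2 : q * G = - (p * D ^ (R/2)) := by linear_combination h
        rw [h2, hE, mul_pow]
        exact (Dvd.intro _ (by ring : X ^ (R/2) * (-(p * E ^ (R/2))) = _))
      exact prime_X.pow_dvd_of_dvd_mul_right _ hG0 this
    obtain ⟨q', hq'⟩ := hq1
    have hp1 : X ^ R ∣ p := by
      apply hp.X_pow_dvd hR
      have h2 : X ^ (R/2) * (p * E ^ (R/2)) = X ^ (R/2) * (X ^ (R/2) * (X ^ (R - R/2 - R/2) * (-(q' * G)))) := by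
        rw [← mul_assoc (X ^ (R/2)) (X ^ (R/2)), ← pow_add, ← mul_assoc, ← mul_assoc (X ^ _), ← pow_add]
        have e1 : R / 2 + R / 2 + (R - R / 2 - R / 2) = R := by omega
        rw [e1]
        rw [hE, mul_pow, hq'] at h
        linear_combination h
      have h3 := mul_left_cancel₀ (pow_ne_zero _ X_ne_zero) h2
      have h4 : X ^ (R/2) ∣ p * E ^ (R/2) := ⟨_, h3⟩
      refine prime_X.pow_dvd_of_dvd_mul_right _ ?_ h4
      intro h5
      exact hE0 (prime_X.dvd_of_dvd_pow h5)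
    obtain ⟨p', hp'⟩ := hp1
    have h' : p' * D ^ (R/2) + q' * G = 0 := by
      have : X ^ R * (p' * D ^ (R/2) + q' * G) = 0 := by
        rw [← h, hp', hq']; ring
      exact (mul_eq_zero.1 this).resolve_left (pow_ne_zero _ X_ne_zero)
    have hVp : V R p' := V.of_mul (by rw [← hp']; exact hp)
    have hVq : V R q' := V.of_mul (by rw [← hq']; exact hq)
    obtain ⟨h1, h2⟩ := ih p' q' hVp hVq h'
    rw [hp', hq', mul_add, mul_one, add_comm, pow_add]
    exact ⟨mul_dvd_mul_left _ h1, mul_dvd_mul_left _ h2⟩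

lemma eq_zero_of_dvd {R : ℕ} (hR : 0 < R) (p : L[X]) (h : ∀ n, X ^ (R * n) ∣ p) : p = 0 := by
  by_contra hp
  have := Polynomial.natDegree_le_of_dvd (h (p.natDegree + 1)) hp
  rw [natDegree_X_pow] at this
  nlinarith

lemma descent {R : ℕ} (hR : 6 ≤ R) (D G : L[X]) (hD0 : D.coeff 0 = 0) (hD1 : D.coeff 1 ≠ 0)
    (hG : G.coeff 0 ≠ 0) (p q : L[X]) (hp : V R p) (hq : V R q)
    (h : p * D ^ (R/2) + q * G = 0) : p = 0 ∧ q = 0 :=
  ⟨eq_zero_of_dvd (by omega) p fun n => (descent_dvd hR D G hD0 hD1 hG n p q hp hq h).1,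
   eq_zero_of_dvd (by omega) q fun n => (descent_dvd hR D G hD0 hD1 hG n p q hp hq h).2⟩

end Descent

end Pool.Agent.Helper43.Ramsey
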