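import Mathlib
import Pool.Agent.Helper43.RamseyA

set_option autoImplicit false

namespace Pool.Agent.Helper43.Ramsey

open Polynomial Finset

section Main

variable {L : Type*} [Field L]

/-- the linear algebra step -/
lemma exists_kernel (R : ℕ) (hR : 11 ≤ R) (A Γ : L[X]) (hA : A.natDegree ≤ 2*R)
    (hΓ : Γ.natDegree ≤ 2*R) :
    ∃ κ : Fin 2 → Fin 3 → Fin (R-2) → L, (∃ a c b, κ a c b ≠ 0) ∧
    (∑ c : Fin 3, ∑ b : Fin (R-2), C (κ 0 c b) * X ^ ((b : ℕ) + (c : ℕ) * R)) * A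
      + (∑ c : Fin 3, ∑ b : Fin (R-2), C (κ 1 c b) * X ^ ((b : ℕ) + (c : ℕ) * R)) * Γ = 0 := by
  classical
  let M : Fin 2 → L[X] := fun a => if a = 0 then A else Γ
  have hM : ∀ a, (M a).natDegree ≤ 2 * R := by
    intro a; simp only [M]; split_ifs <;> assumption
  let v : (Fin 2 × Fin 3 × Fin (R-2)) → degreeLT L (5 * R - 2) := fun i =>
    ⟨X ^ ((i.2.2 : ℕ) + (i.2.1 : ℕ) * R) * M i.1, by
      rw [mem_degreeLT]
      have h1 : (X ^ ((i.2.2 : ℕ) + (i.2.1 : ℕ) * R) * M i.1).natDegree ≤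
          ((i.2.2 : ℕ) + (i.2.1 : ℕ) * R) + 2 * R := by
        refine natDegree_mul_le.trans ?_
        have := natDegree_X_pow_le (R := L) ((i.2.2 : ℕ) + (i.2.1 : ℕ) * R)
        have h2 := hM i.1
        omega
      refine lt_of_le_of_lt degree_le_natDegree ?_
      have h2 : (i.2.2 : ℕ) < R - 2 := i.2.2.2
      have h3 : (i.2.1 : ℕ) ≤ 2 := by have := i.2.1.2; omega
      have h4 : (i.2.1 : ℕ) * R ≤ 2 * R := Nat.mul_le_mul_right _ h3
      have : (X ^ ((i.2.2 : ℕ) + (i.2.1 : ℕ) * R) * M i.1).natDegree < 5 * R - 2 := by omega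
      exact_mod_cast this⟩
  have hv : ¬ LinearIndependent L v := by
    intro h
    have h1 := h.fintype_card_le_finrank
    rw [LinearEquiv.finrank_eq (degreeLTEquiv L (5*R-2))] at h1
    simp at h1
    omega
  rw [Fintype.not_linearIndependent_iff] at hv
  obtain ⟨g, hg, i, hi⟩ := hv
  refine ⟨fun a c b => g (a, c, b), ⟨i.1, i.2.1, i.2.2, hi⟩, ?_⟩
  have hg' := congrArg (Subtype.val) hg
  simp only [v, Submodule.coe_sum, Submodule.coe_smul, Submodule.coe_zero] at hg'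
  rw [Fintype.sum_prod_type] at hg'
  simp only [Fintype.sum_prod_type, Fin.sum_univ_two] at hg'
  simp only [M, if_true, one_ne_zero, if_false] at hg'
  rw [← hg']
  simp only [Finset.sum_mul, smul_eq_C_mul, mul_assoc]

variable [CharP L 2]

lemma key_vanish (f R B : ℕ) (hf : 1 ≤ f) (hR : R = 2 ^ f)
    (P D Γ : L[X]) (hΓ : Γ = ∑ i ∈ range f, P ^ (2^i) * D ^ (R/2 - 2^i))
    (κ l : Fin 2 → Fin 3 → Fin B → L)
    (hl : ∀ a c b, (l a c b) ^ R = κ a c (Fin.rev b))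
    (hκ : (∑ c : Fin 3, ∑ b : Fin B, C (κ 0 c b) * X ^ ((b : ℕ) + (c : ℕ) * R)) * D ^ (R/2)
      + (∑ c : Fin 3, ∑ b : Fin B, C (κ 1 c b) * X ^ ((b : ℕ) + (c : ℕ) * R)) * Γ = 0)
    (u : L) (hu : u ^ (R^2 + 1) = 1) (hDu : D.eval u ≠ 0)
    (htr : ∑ i ∈ range (2*f), (P.eval u / D.eval u) ^ (2^i) = 0) :
    ((∑ c : Fin 3, ∑ b : Fin B, C (l 0 c b) * X ^ ((b : ℕ) * R + (c : ℕ))) * D ^ (R/2)
      + (∑ c : Fin 3, ∑ b : Fin B, C (l 1 c b) * X ^ ((b : ℕ) * R + (c : ℕ))) * Γ).eval u = 0 := by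
  have hu0 : u ≠ 0 := by
    rintro rfl
    rw [zero_pow (by positivity)] at hu
    exact zero_ne_one hu
  -- the value G
  set G : L := ∑ i ∈ range f, (P.eval u / D.eval u) ^ (2^i) with hG
  have hGR : G ^ R = G := by
    have h1 : G ^ R = ∑ i ∈ range f, (P.eval u / D.eval u) ^ (2^(f+i)) := by
      rw [hG, hR, sum_pow_char_pow]
      apply Finset.sum_congr rfl
      intro i _
      rw [← pow_mul, ← pow_add, add_comm]
    have h2 : G + G ^ R = 0 := by
      rw [h1, hG, ← Finset.sum_range_add, ← two_mul]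
      exact htr
    have h3 : G ^ R = -G := by linear_combination h2
    rw [h3, CharTwo.neg_eq]
  have hΓu : Γ.eval u = (D.eval u) ^ (R/2) * G := by
    rw [hΓ, eval_finset_sum, hG, Finset.mul_sum]
    apply Finset.sum_congr rfl
    intro i hi
    rw [eval_mul, eval_pow, eval_pow, div_pow]
    have h1 : 2 ^ i ≤ R / 2 := by
      have : R / 2 = 2 ^ (f-1) := by
        rw [hR]
        obtain ⟨k, rfl⟩ : ∃ k, f = k + 1 := ⟨f-1, by omega⟩
        simp [pow_succ]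
      rw [this]
      apply Nat.pow_le_pow_right (by norm_num)
      have := Finset.mem_range.1 hi
      omega
    have h2 : (D.eval u) ^ (R/2) = (D.eval u) ^ (R/2 - 2^i) * (D.eval u) ^ (2^i) := by
      rw [← pow_add]; congr 1; omega
    rw [h2]
    field_simp
  -- the R-th powers
  have hp : ∀ a : Fin 2, u ^ (B - 1) *
      (∑ c : Fin 3, ∑ b : Fin B, l a c b * u ^ ((b : ℕ) * R + (c : ℕ))) ^ R =
      ∑ c : Fin 3, ∑ b : Fin B, κ a c b * u ^ ((b : ℕ) + (c : ℕ) * R) := by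
    intro a
    rw [hR, sum_pow_char_pow, Finset.mul_sum]
    apply Finset.sum_congr rfl
    intro c _
    rw [sum_pow_char_pow, Finset.mul_sum, ← Equiv.sum_comp Fin.revPerm]
    apply Finset.sum_congr rfl
    intro b _
    rw [← hR, mul_pow, hl, Fin.revPerm_apply, Fin.rev_rev]
    have h1 : u ^ (B-1) * (κ a c b * (u ^ (((Fin.rev b : Fin B) : ℕ) * R + (c : ℕ))) ^ R) =
      κ a c b * (u ^ (B - 1) * u ^ (((Fin.rev b : Fin B) : ℕ) * R ^ 2 + (c : ℕ) * R)) := by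
      rw [← pow_mul]; ring_nf
    rw [h1]
    congr 1
    have hb : (b : ℕ) < B := b.2
    have h2 : B - 1 = b + ((Fin.rev b : Fin B) : ℕ) := by
      rw [Fin.val_rev]; omega
    rw [h2, ← pow_add]
    have h3 : (b : ℕ) + ((Fin.rev b : Fin B) : ℕ) + (((Fin.rev b : Fin B) : ℕ) * R ^ 2 + (c : ℕ) * R) =
      (R^2 + 1) * ((Fin.rev b : Fin B) : ℕ) + ((b : ℕ) + (c : ℕ) * R) := by ring
    rw [h3, pow_add, pow_mul, hu, one_pow, one_mul]
  have hκu := congrArg (eval u) hκ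
  simp only [eval_add, eval_mul, eval_finset_sum, eval_C, eval_pow, eval_X, eval_zero] at hκu ⊢
  rw [← hp 0, ← hp 1] at hκu
  rw [hΓu] at hκu ⊢
  set p0 := ∑ c : Fin 3, ∑ b : Fin B, l 0 c b * u ^ ((b : ℕ) * R + (c : ℕ))
  set p1 := ∑ c : Fin 3, ∑ b : Fin B, l 1 c b * u ^ ((b : ℕ) * R + (c : ℕ))
  have h1 : p0 ^ R + p1 ^ R * G = 0 := by
    have h2 : (u ^ (B-1) * (D.eval u) ^ (R/2)) * (p0 ^ R + p1 ^ R * G) = 0 := by
      rw [← hκu]; ring
    exact (mul_eq_zero.1 h2).resolve_left (mul_ne_zero (pow_ne_zero _ hu0) (pow_ne_zero _ hDu))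
  have h2 : (p0 + p1 * G) ^ R = 0 := by
    rw [hR, add_pow_char_pow, ← hR, mul_pow, hGR, h1]
  have hR0 : R ≠ 0 := by rw [hR]; positivity
  have h3 := (pow_eq_zero_iff hR0).1 h2
  linear_combination (D.eval u) ^ (R/2) * h3

end Main

end Pool.Agent.Helper43.Ramsey
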