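import Mathlib
import Pool.Agent.Helper43.RamseyB

set_option autoImplicit false

namespace Pool.Agent.Helper43.Ramsey

open Polynomial Finset

section Main

variable {L : Type*} [Field L] [IsAlgClosed L] [CharP L 2]

/-- the set of n-th roots of unity has n elements, n odd -/
lemma exists_rootsFinset (n : ℕ) (hn : ¬ 2 ∣ n) :
    ∃ s : Finset L, s.card = n ∧ ∀ u ∈ s, u ^ n = 1 := by
  classical
  have h0 : n ≠ 0 := by rintro rfl; exact hn (dvd_zero 2)
  have hn' : (n : L) ≠ 0 := by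
    intro h
    rw [CharP.cast_eq_zero_iff L 2] at h
    exact hn h
  have : NeZero (n : L) := ⟨hn'⟩
  have : NeZero n := ⟨h0⟩
  obtain ⟨ζ, hζ⟩ := HasEnoughRootsOfUnity.exists_primitiveRoot L n
  refine ⟨nthRootsFinset n (1 : L), hζ.card_nthRootsFinset, ?_⟩
  intro u hu
  exact (mem_nthRootsFinset (Nat.pos_of_ne_zero h0) 1).1 hu

omit [IsAlgClosed L] in
lemma V_taylor (f R B : ℕ) (hR : R = 2 ^ f) (δ : L) (l : Fin 3 → Fin B → L) :
    V R (taylor δ (∑ c : Fin 3, ∑ b : Fin B, C (l c b) * X ^ ((b : ℕ) * R + (c : ℕ)))) := by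
  subst hR
  rw [map_sum]
  apply V.sum
  intro c _
  rw [map_sum]
  apply V.sum
  intro b _
  rw [taylor_mul, taylor_C, taylor_X_pow]
  apply V.C_mul
  rw [pow_add, mul_comm (b : ℕ), pow_mul]
  have h1 : (X + C δ : L[X]) ^ (2^f) = X ^ (2^f) + C (δ ^ (2^f)) := by
    rw [add_pow_char_pow, C_pow]
  rw [h1]
  generalize (b : ℕ) = k
  induction k with
  | zero =>
    rw [pow_zero, one_mul]
    intro n hn
    apply coeff_eq_zero_of_natDegree_lt
    rw [natDegree_pow, natDegree_X_add_C, mul_one]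
    have h2 := c.2
    have h3 : n % 2 ^ f ≤ n := Nat.mod_le _ _
    omega
  | succ k ih =>
    have : (X ^ (2^f) + C (δ ^ (2^f))) ^ (k+1) * (X + C δ) ^ (c : ℕ) =
      X ^ (2^f) * ((X ^ (2^f) + C (δ ^ (2^f))) ^ k * (X + C δ) ^ (c : ℕ)) +
      C (δ ^ (2^f)) * ((X ^ (2^f) + C (δ ^ (2^f))) ^ k * (X + C δ) ^ (c : ℕ)) := by ring
    rw [this]
    exact ih.X_pow_mul.add (ih.C_mul _)

lemma coeffs_zero (R B : ℕ) (hR : 3 ≤ R) (l : Fin 3 → Fin B → L)
    (h : ∑ c : Fin 3, ∑ b : Fin B, C (l c b) * X ^ ((b : ℕ) * R + (c : ℕ)) = 0) (c : Fin 3)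
    (b : Fin B) : l c b = 0 := by
  have h1 := congrArg (fun p => coeff p ((b : ℕ) * R + (c : ℕ))) h
  simp only [finsetSum_coeff, coeff_C_mul, coeff_X_pow, coeff_zero] at h1
  have key : ∀ (c' : Fin 3) (b' : Fin B), ((b : ℕ) * R + (c : ℕ) = (b' : ℕ) * R + (c' : ℕ)) ↔
      (c' = c ∧ b' = b) := by
    intro c' b'
    constructor
    · intro h2
      have hc := c.2
      have hc' := c'.2
      have h3 : ((b : ℕ) * R + (c : ℕ)) % R = ((b' : ℕ) * R + (c' : ℕ)) % R := by rw [h2]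
      rw [Nat.mul_add_mod_self_right, Nat.mul_add_mod_self_right, Nat.mod_eq_of_lt (by omega),
        Nat.mod_eq_of_lt (by omega)] at h3
      have h4 : (b : ℕ) * R = (b' : ℕ) * R := by omega
      have h5 : (b : ℕ) = b' := Nat.eq_of_mul_eq_mul_right (by omega) h4
      exact ⟨Fin.ext h3.symm, Fin.ext h5.symm⟩
    · rintro ⟨rfl, rfl⟩; rfl
  simp only [key] at h1
  rw [Finset.sum_eq_single c, Finset.sum_eq_single b] at h1
  · simpa using h1
  · intro b' _ hb'; simp [hb']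
  · simp
  · intro c' _ hc'; simp [hc']
  · simp

theorem lemmaA (f : ℕ) (hf : 4 ≤ f) (P D : L[X]) (hP : P.natDegree ≤ 4) (hD : D.natDegree ≤ 4)
    (δ : L) (hPδ : P.eval δ ≠ 0) (hDδ : D.eval δ = 0) (hDδ' : D.derivative.eval δ ≠ 0)
    (hDu : ∀ u : L, u ^ ((2^f)^2 + 1) = 1 → D.eval u ≠ 0) :
    ∃ u : L, u ^ ((2^f)^2 + 1) = 1 ∧ ∑ i ∈ range (2*f), (P.eval u / D.eval u) ^ (2^i) ≠ 0 := by
  classical
  by_contra hcon
  push Not at hcon
  obtain ⟨g, rfl⟩ : ∃ g, f = g + 1 := ⟨f - 1, by omega⟩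
  set R := 2 ^ (g + 1) with hR
  have hR2 : R / 2 = 2 ^ g := by rw [hR, pow_succ]; simp
  have hR2' : R = 2 * 2 ^ g := by rw [hR, pow_succ]; ring
  have hR16 : 16 ≤ R := by
    rw [hR]
    calc 16 = 2 ^ 4 := by norm_num
      _ ≤ 2 ^ (g+1) := Nat.pow_le_pow_right (by norm_num) hf
  set Γ : L[X] := ∑ i ∈ range (g+1), P ^ (2^i) * D ^ (R/2 - 2^i) with hΓ
  have hA : (D ^ (R/2)).natDegree ≤ 2 * R := by
    refine natDegree_pow_le.trans ?_
    calc R / 2 * D.natDegree ≤ R/2 * 4 := Nat.mul_le_mul_left _ hD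
      _ = 2 * R := by omega
  have hΓd : Γ.natDegree ≤ 2 * R := by
    apply natDegree_sum_le_of_forall_le
    intro i hi
    have hi' : 2 ^ i ≤ R/2 := by
      rw [hR2]; exact Nat.pow_le_pow_right (by norm_num) (by have := Finset.mem_range.1 hi; omega)
    refine natDegree_mul_le.trans ?_
    have h1 : (P ^ (2^i)).natDegree ≤ 2 ^ i * 4 := natDegree_pow_le.trans (Nat.mul_le_mul_left _ hP)
    have h2 : (D ^ (R/2 - 2^i)).natDegree ≤ (R/2 - 2 ^ i) * 4 :=
      natDegree_pow_le.trans (Nat.mul_le_mul_left _ hD)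
    omega
  obtain ⟨κ, hκ0, hκ⟩ := exists_kernel R (by omega) (D ^ (R/2)) Γ hA hΓd
  have hroot : ∀ x : L, ∃ z : L, z ^ R = x := fun x => IsAlgClosed.exists_pow_nat_eq x (by omega)
  choose rt hrt using hroot
  let l : Fin 2 → Fin 3 → Fin (R-2) → L := fun a c b => rt (κ a c (Fin.rev b))
  have hl : ∀ a c b, (l a c b) ^ R = κ a c (Fin.rev b) := fun a c b => hrt _
  set p0 := (∑ c : Fin 3, ∑ b : Fin (R-2), C (l 0 c b) * X ^ ((b : ℕ) * R + (c : ℕ))) with hp0
  set p1 := (∑ c : Fin 3, ∑ b : Fin (R-2), C (l 1 c b) * X ^ ((b : ℕ) * R + (c : ℕ))) with hp1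
  set F1 := p0 * D ^ (R/2) + p1 * Γ with hF1
  have hvan : ∀ u : L, u ^ (R^2 + 1) = 1 → F1.eval u = 0 := by
    intro u hu
    exact key_vanish (g+1) R (R-2) (by omega) hR P D Γ hΓ κ l hl hκ u hu (hDu u hu) (hcon u hu)
  -- degree bound
  have hpd : ∀ a : Fin 2, (∑ c : Fin 3, ∑ b : Fin (R-2), C (l a c b) * X ^ ((b : ℕ) * R + (c : ℕ))).natDegree ≤
      (R-3) * R + 2 := by
    intro a
    apply natDegree_sum_le_of_forall_le
    intro c _
    apply natDegree_sum_le_of_forall_le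
    intro b _
    refine (natDegree_C_mul_X_pow_le _ _).trans ?_
    have h1 := b.2
    have h2 := c.2
    have h3 : (b : ℕ) * R ≤ (R-3) * R := Nat.mul_le_mul_right _ (by omega)
    omega
  have hF1d : F1.natDegree < R^2 + 1 := by
    have h1 : (p0 * D ^ (R/2)).natDegree ≤ (R-3)*R + 2 + 2 * R :=
      natDegree_mul_le.trans (Nat.add_le_add (hpd 0) hA)
    have h2 : (p1 * Γ).natDegree ≤ (R-3)*R + 2 + 2 * R :=
      natDegree_mul_le.trans (Nat.add_le_add (hpd 1) hΓd)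
    have h3 : F1.natDegree ≤ (R-3)*R + 2 + 2 * R :=
      (natDegree_add_le _ _).trans (max_le h1 h2)
    have h4 : (R-3)*R + 2 + 2 * R < R^2 + 1 := by
      obtain ⟨k, hk⟩ : ∃ k, R = k + 3 := ⟨R - 3, by omega⟩
      rw [hk]
      simp only [Nat.add_sub_cancel]
      nlinarith
    omega
  have hF10 : F1 = 0 := by
    by_contra hne
    obtain ⟨s, hs, hs'⟩ := exists_rootsFinset (L := L) (R^2+1) (by
      intro h
      have : 2 ∣ R^2 := by
        rw [hR2']
        exact Dvd.intro _ (by ring : 2 * (2 * (2^g)^2) = _)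
      omega)
    have : s.card ≤ F1.natDegree := by
      apply card_le_degree_of_subset_roots
      intro u hu
      rw [mem_roots hne]
      exact hvan u (hs' u hu)
    omega
  -- descent
  have hd := descent (R := R) (by omega) (taylor δ D) (taylor δ Γ)
    (by rw [taylor_coeff_zero, hDδ]) (by rw [taylor_coeff_one]; exact hDδ')
    (by
      rw [taylor_coeff_zero, hΓ, eval_finsetSum, Finset.sum_range_succ, Finset.sum_eq_zero]
      · rw [hR2]
        simp only [Nat.sub_self, pow_zero, mul_one, zero_add, eval_pow]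
        exact pow_ne_zero _ hPδ
      · intro i hi
        rw [eval_mul, eval_pow, eval_pow, hDδ, zero_pow, mul_zero]
        have : 2 ^ i < 2 ^ g := Nat.pow_lt_pow_right (by norm_num) (Finset.mem_range.1 hi)
        rw [hR2]
        omega)
    (taylor δ p0) (taylor δ p1)
    (by rw [hp0]; exact V_taylor (g+1) R _ hR δ (l 0))
    (by rw [hp1]; exact V_taylor (g+1) R _ hR δ (l 1))
    (by rw [← taylor_pow, ← taylor_mul, ← taylor_mul, ← map_add, ← hF1, hF10, map_zero])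
  rw [taylor_eq_zero, taylor_eq_zero] at hd
  obtain ⟨a, c, b, hne⟩ := hκ0
  apply hne
  have hl0 : ∀ a c b, l a c b = 0 := by
    intro a
    fin_cases a
    · exact coeffs_zero R (R-2) (by omega) (l 0) hd.1
    · exact coeffs_zero R (R-2) (by omega) (l 1) hd.2
  have := hl a c (Fin.rev b)
  rw [hl0, Fin.rev_rev, zero_pow (by omega)] at this
  exact this.symm

end Main

end Pool.Agent.Helper43.Ramsey
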