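import Mathlib
import Pool.Agent.Helper43.RamseyC

set_option autoImplicit false

namespace Pool.Agent.Helper43.Ramsey

open Polynomial Finset

section Trace

variable {L : Type*} [Field L] [CharP L 2]

/-- truncated absolute trace -/
def Tr (n : ℕ) (z : L) : L := ∑ i ∈ range n, z ^ (2^i)

lemma Tr_add (n : ℕ) (x y : L) : Tr n (x + y) = Tr n x + Tr n y := by
  unfold Tr
  rw [← Finset.sum_add_distrib]
  apply Finset.sum_congr rfl
  intro i _
  rw [add_pow_char_pow]

lemma Tr_sq (n : ℕ) (x : L) : Tr n (x ^ 2) + Tr n x = x ^ (2^n) + x := by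
  unfold Tr
  induction n with
  | zero => simp [CharTwo.add_self_eq_zero]
  | succ n ih =>
    rw [Finset.sum_range_succ, Finset.sum_range_succ]
    have h1 : (x ^ 2) ^ 2 ^ n = x ^ 2 ^ (n+1) := by rw [← pow_mul]; congr 1; ring
    have h2 : (∑ i ∈ range n, (x ^ 2) ^ 2 ^ i + (x ^ 2) ^ 2 ^ n + (∑ i ∈ range n, x ^ 2 ^ i + x ^ 2 ^ n))
      = (∑ i ∈ range n, (x ^ 2) ^ 2 ^ i + ∑ i ∈ range n, x ^ 2 ^ i) + x ^ 2 ^ (n+1) + x ^ 2 ^ n := by
      rw [h1]; ring
    rw [h2, ih]
    have h3 : x ^ 2 ^ n + x ^ 2 ^ n = 0 := CharTwo.add_self_eq_zero _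
    linear_combination h3

lemma Tr_sq' (n : ℕ) (x : L) (hx : x ^ (2^n) = x) : Tr n (x ^ 2) = Tr n x := by
  have h := Tr_sq n x
  rw [hx, CharTwo.add_self_eq_zero] at h
  exact CharTwo.add_eq_zero.1 h

lemma Tr_four (f : ℕ) (z : L) : Tr (8*f) z = Tr (2*f) (z + z ^ (2^(2*f)) + z ^ (2^(4*f)) + z ^ (2^(6*f))) := by
  have e : 8 * f = 2 * f + (2 * f + (2 * f + 2 * f)) := by ring
  rw [e, Tr_add, Tr_add, Tr_add]
  unfold Tr
  rw [Finset.sum_range_add, Finset.sum_range_add, Finset.sum_range_add]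
  have h : ∀ a : ℕ, ∀ i, (z ^ (2 ^ a)) ^ (2^i) = z ^ (2 ^ (a + i)) := by
    intro a i; rw [← pow_mul, ← pow_add]
  simp only [h]
  have e1 : ∀ i, 2 * f + (2 * f + i) = 4 * f + i := by intro i; ring
  have e2 : ∀ i, 2 * f + (4 * f + i) = 6 * f + i := by intro i; ring
  simp only [e1, e2]
  ring

end Trace

section Cov

variable {L : Type*} [Field L] [IsAlgClosed L] [CharP L 2]

/-- main coverage lemma in terms of the Frobenius automorphism `φ x = x^r`, `r = 2^(2f)`. -/
lemma cov_aux (f : ℕ) (hf : 4 ≤ f) (γ δ : L) (hγ : γ ≠ 0)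
    (hγ4 : γ ^ (2^(8*f)) = γ) (hδ4 : δ ^ (2^(8*f)) = δ)
    (hδu : δ ^ (2^(2*f) + 1) ≠ 1)
    (hnd : ¬ (γ ^ (2^(4*f)) = γ ∧ δ ^ (2^(4*f)) = δ)) :
    ∃ u : L, u ^ (2^(2*f) + 1) = 1 ∧ u + δ ≠ 0 ∧ Tr (8*f) (γ / (u + δ)) ≠ 0 := by
  -- the Frobenius
  set φ : L →+* L := iterateFrobenius L 2 (2*f) with hφ
  have hφd : ∀ x : L, x ^ (2^(2*f)) = φ x := fun x => (iterateFrobenius_def 2 _ x).symm
  have hφ2 : ∀ x : L, x ^ (2^(4*f)) = φ (φ x) := by
    intro x; rw [← hφd, ← hφd, ← pow_mul, ← pow_add]; congr 2; ring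
  have hφ3 : ∀ x : L, x ^ (2^(6*f)) = φ (φ (φ x)) := by
    intro x; rw [← hφ2, ← hφd, ← pow_mul, ← pow_add]; congr 2; ring
  have hφ4 : ∀ x : L, x ^ (2^(8*f)) = φ (φ (φ (φ x))) := by
    intro x; rw [← hφ2, ← hφ2, ← pow_mul, ← pow_add]; congr 2; ring
  have hinj : Function.Injective φ := φ.injective
  rw [hφ4] at hγ4 hδ4
  rw [pow_succ, hφd] at hδu
  rw [hφ2, hφ2] at hnd
  have hrr : (2^f)^2 + 1 = 2^(2*f) + 1 := by rw [← pow_mul, mul_comm]
  -- facts on the circle
  have hcirc : ∀ u : L, u ^ (2^(2*f)+1) = 1 → u ≠ 0 ∧ φ u * u = 1 ∧ u + δ ≠ 0 := by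
    intro u hu
    rw [pow_succ, hφd] at hu
    refine ⟨?_, hu, ?_⟩
    · rintro rfl; simp at hu
    · intro h
      have : u = δ := CharTwo.add_eq_zero.1 h
      rw [this] at hu
      exact hδu hu
  -- the rational function
  obtain ⟨P, D, hP, hD, hPδ, hDδ, hDδ', hDu, hval⟩ : ∃ P D : L[X], P.natDegree ≤ 4 ∧ D.natDegree ≤ 4 ∧
      P.eval δ ≠ 0 ∧ D.eval δ = 0 ∧ D.derivative.eval δ ≠ 0 ∧
      (∀ u : L, u ^ (2^(2*f) + 1) = 1 → D.eval u ≠ 0) ∧
      (∀ u : L, u ^ (2^(2*f) + 1) = 1 → P.eval u / D.eval u =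
        (γ / (u + δ)) + φ (γ / (u + δ)) + φ (φ (γ / (u + δ))) + φ (φ (φ (γ / (u + δ))))) := by
    have h11 : 1 + φ δ * δ ≠ 0 := by
      intro h
      exact hδu (CharTwo.add_eq_zero.1 h).symm
    by_cases hδ2 : φ (φ δ) = δ
    · -- case II
      have hγ2 : φ (φ γ) ≠ γ := fun h => hnd ⟨h, hδ2⟩
      set γ' := γ + φ (φ γ) with hγ'
      have hγ'0 : γ' ≠ 0 := by
        intro h
        exact hγ2 (CharTwo.add_eq_zero.1 h).symm
      refine ⟨C γ' * (1 + C (φ δ) * X) + C (φ γ') * (X * (X + C δ)), (X + C δ) * (1 + C (φ δ) * X),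
        ?_, ?_, ?_, ?_, ?_, ?_, ?_⟩
      · compute_degree
        norm_num
      · compute_degree
        norm_num
      · simp only [eval_add, eval_mul, eval_C, eval_X, eval_one, CharTwo.add_self_eq_zero, mul_zero, add_zero]
        exact mul_ne_zero hγ'0 h11
      · simp [CharTwo.add_self_eq_zero]
      · simp only [derivative_mul, derivative_add, derivative_X, derivative_C, derivative_one, eval_add, eval_mul, eval_C, eval_X, eval_one, CharTwo.add_self_eq_zero, zero_mul, mul_zero, add_zero, one_mul]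
        exact h11
      · intro u hu
        obtain ⟨hu0, hu1, hu2⟩ := hcirc u hu
        simp only [eval_add, eval_mul, eval_C, eval_X, eval_one]
        refine mul_ne_zero hu2 ?_
        have : 1 + φ δ * u = u * φ (u + δ) := by
          rw [map_add]; linear_combination (-1 : L) * hu1
        rw [this]
        exact mul_ne_zero hu0 (by rw [_root_.map_ne_zero]; exact hu2)
      · intro u hu
        obtain ⟨hu0, hu1, hu2⟩ := hcirc u hu
        simp only [eval_add, eval_mul, eval_C, eval_X, eval_one]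
        have e1 : 1 + φ δ * u = u * φ (u + δ) := by
          rw [map_add]; linear_combination (-1 : L) * hu1
        have e2 : φ (φ u) = u := by
          have := congrArg φ hu1
          rw [map_mul, map_one] at this
          have h3 : φ u ≠ 0 := by rw [_root_.map_ne_zero]; exact hu0
          apply mul_right_cancel₀ h3
          rw [this, mul_comm, hu1]
        have e3 : φ (φ (u + δ)) = u + δ := by rw [map_add, map_add, e2, hδ2]
        have hw : φ (u + δ) ≠ 0 := by rw [_root_.map_ne_zero]; exact hu2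
        simp only [map_div₀, e3]
        rw [e1]
        have e4 : φ γ' = φ γ + φ (φ (φ γ)) := by rw [hγ', map_add]
        rw [e4, hγ']
        field_simp
        ring
    · -- case I
      have h12 : δ + φ (φ δ) ≠ 0 := by
        intro h
        exact hδ2 (CharTwo.add_eq_zero.1 h).symm
      have h13 : 1 + φ (φ (φ δ)) * δ ≠ 0 := by
        intro h
        have h1 : φ (φ (φ δ)) * δ = 1 := (CharTwo.add_eq_zero.1 h).symm
        have h2 := congrArg φ h1
        rw [map_mul, hδ4, map_one, mul_comm] at h2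
        exact hδu h2
      refine ⟨C γ * ((1 + C (φ δ) * X) * (X + C (φ (φ δ))) * (1 + C (φ (φ (φ δ))) * X)) +
        C (φ γ) * (X * (X + C δ) * (X + C (φ (φ δ))) * (1 + C (φ (φ (φ δ))) * X)) +
        C (φ (φ γ)) * ((X + C δ) * (1 + C (φ δ) * X) * (1 + C (φ (φ (φ δ))) * X)) +
        C (φ (φ (φ γ))) * (X * (X + C δ) * (1 + C (φ δ) * X) * (X + C (φ (φ δ)))),
        (X + C δ) * ((1 + C (φ δ) * X) * (X + C (φ (φ δ))) * (1 + C (φ (φ (φ δ))) * X)),
        ?_, ?_, ?_, ?_, ?_, ?_, ?_⟩
      · compute_degree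
      · compute_degree
      · simp only [eval_add, eval_mul, eval_C, eval_X, eval_one, CharTwo.add_self_eq_zero, mul_zero, zero_mul, add_zero]
        exact mul_ne_zero hγ (mul_ne_zero (mul_ne_zero h11 h12) h13)
      · simp [CharTwo.add_self_eq_zero]
      · rw [derivative_mul]
        simp only [derivative_add, derivative_X, derivative_C, eval_add, eval_mul, eval_C, eval_X, eval_one, CharTwo.add_self_eq_zero, zero_mul, add_zero, one_mul]
        exact mul_ne_zero (mul_ne_zero h11 h12) h13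
      · intro u hu
        obtain ⟨hu0, hu1, hu2⟩ := hcirc u hu
        simp only [eval_add, eval_mul, eval_C, eval_X, eval_one]
        have e1 : 1 + φ δ * u = u * φ (u + δ) := by
          rw [map_add]; linear_combination (-1 : L) * hu1
        have e2 : φ (φ u) = u := by
          have := congrArg φ hu1
          rw [map_mul, map_one] at this
          have h3 : φ u ≠ 0 := by rw [_root_.map_ne_zero]; exact hu0
          apply mul_right_cancel₀ h3
          rw [this, mul_comm, hu1]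
        have e3 : u + φ (φ δ) = φ (φ (u + δ)) := by rw [map_add, map_add, e2]
        have e4 : 1 + φ (φ (φ δ)) * u = u * φ (φ (φ (u + δ))) := by
          rw [map_add, map_add, map_add, e2]; linear_combination (-1 : L) * hu1
        rw [e1, e3, e4]
        have w1 : φ (u + δ) ≠ 0 := by rw [_root_.map_ne_zero]; exact hu2
        have w2 : φ (φ (u + δ)) ≠ 0 := by rw [_root_.map_ne_zero]; exact w1
        have w3 : φ (φ (φ (u + δ))) ≠ 0 := by rw [_root_.map_ne_zero]; exact w2
        exact mul_ne_zero hu2 (mul_ne_zero (mul_ne_zero (mul_ne_zero hu0 w1) w2) (mul_ne_zero hu0 w3))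
      · intro u hu
        obtain ⟨hu0, hu1, hu2⟩ := hcirc u hu
        simp only [eval_add, eval_mul, eval_C, eval_X, eval_one]
        have e1 : 1 + φ δ * u = u * φ (u + δ) := by
          rw [map_add]; linear_combination (-1 : L) * hu1
        have e2 : φ (φ u) = u := by
          have := congrArg φ hu1
          rw [map_mul, map_one] at this
          have h3 : φ u ≠ 0 := by rw [_root_.map_ne_zero]; exact hu0
          apply mul_right_cancel₀ h3
          rw [this, mul_comm, hu1]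
        have e3 : u + φ (φ δ) = φ (φ (u + δ)) := by rw [map_add, map_add, e2]
        have e4 : 1 + φ (φ (φ δ)) * u = u * φ (φ (φ (u + δ))) := by
          rw [map_add, map_add, map_add, e2]; linear_combination (-1 : L) * hu1
        rw [e1, e3, e4]
        have w1 : φ (u + δ) ≠ 0 := by rw [_root_.map_ne_zero]; exact hu2
        have w2 : φ (φ (u + δ)) ≠ 0 := by rw [_root_.map_ne_zero]; exact w1
        have w3 : φ (φ (φ (u + δ))) ≠ 0 := by rw [_root_.map_ne_zero]; exact w2
        simp only [map_div₀]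
        generalize φ (φ (φ (u + δ))) = W3 at *
        generalize φ (φ (u + δ)) = W2 at *
        generalize φ (u + δ) = W1 at *
        generalize u + δ = W0 at *
        field_simp
  obtain ⟨u, hu, hne⟩ := lemmaA f hf P D hP hD δ hPδ hDδ hDδ' (by rw [hrr]; exact hDu)
  rw [hrr] at hu
  refine ⟨u, hu, (hcirc u hu).2.2, ?_⟩
  rw [Tr_four, hφd, hφ2, hφ3, ← hval u hu]
  exact hne

end Cov

end Pool.Agent.Helper43.Ramsey
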