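import Mathlib
import Pool.Agent.Helper43.RamseyD

set_option autoImplicit false

namespace Pool.Agent.Helper43.Ramsey

open Polynomial Finset

section Cov

variable {L : Type*} [Field L] [CharP L 2]

/-- the coverage property for the circle of radius one in `F_{r^2}`, `r = 2^e`, relative to
the field `F_{r^4}`. -/
def Cov (L : Type*) [Field L] (e : ℕ) : Prop :=
  ∀ α β : L, α ≠ 0 → β ≠ 0 → α ^ (2^(4*e)) = α → β ^ (2^(4*e)) = β →
    ¬ (α ^ (2^(2*e)) = α ∧ β ^ (2^(2*e)) = β) →
    ∃ u v : L, u ^ (2^e + 1) = 1 ∧ v ^ (2^e + 1) = 1 ∧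
      (1 + α * u + β * v = 0 ∨ Tr (4*e) (α * u / (1 + α * u + β * v)^2) ≠ 0)

lemma pow_sub_one_of_circle (e : ℕ) (u : L) (hu : u ^ (2^e + 1) = 1) :
    u ^ (2^(2*e)) = u := by
  have h0 : u ≠ 0 := by
    rintro rfl
    rw [zero_pow (by positivity)] at hu
    exact zero_ne_one hu
  have h1 : u ^ (2^e) * u = 1 := by rw [← pow_succ]; exact hu
  have h2 : (u ^ (2^e)) ^ (2^e) * u ^ (2^e) = 1 := by
    rw [← mul_pow, h1, one_pow]
  have h3 : u ^ (2^e) ≠ 0 := pow_ne_zero _ h0
  have h4 : (u ^ (2^e)) ^ (2^e) = u := by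
    apply mul_right_cancel₀ h3
    rw [h2, mul_comm, h1]
  rw [← pow_mul, ← pow_add, ← two_mul] at h4
  exact h4

variable [IsAlgClosed L]

theorem cov_of_le (f : ℕ) (hf : 4 ≤ f) : Cov L (2*f) := by
  classical
  intro α β hα hβ hαq hβq hnot
  have e8 : 4 * (2 * f) = 8 * f := by ring
  have e4 : 2 * (2 * f) = 4 * f := by ring
  rw [e8] at hαq hβq
  rw [e4] at hnot
  rw [e8]
  -- Frobenius maps
  set ψ : L →+* L := iterateFrobenius L 2 (4*f) with hψ
  have hψd : ∀ x : L, x ^ (2^(4*f)) = ψ x := fun x => (iterateFrobenius_def 2 _ x).symm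
  set Θ : L →+* L := iterateFrobenius L 2 (8*f) with hΘ
  have hΘd : ∀ x : L, x ^ (2^(8*f)) = Θ x := fun x => (iterateFrobenius_def 2 _ x).symm
  have hΘψ : ∀ x : L, Θ x = ψ (ψ x) := by
    intro x
    rw [← hψd, ← hψd, ← hΘd, ← pow_mul, ← pow_add]
    congr 2; ring
  -- choice of v
  obtain ⟨v, hv, hv1, hvnd⟩ : ∃ v : L, v ^ (2^(2*f) + 1) = 1 ∧ 1 + β * v ≠ 0 ∧
      ¬ (ψ (β * v / α^2) = β * v / α^2 ∧ ψ ((1 + β * v)/α) = (1 + β * v)/α) := by
    obtain ⟨s, hs, hs'⟩ := exists_rootsFinset (L := L) (2^(2*f) + 1) (by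
      have : 2 ∣ 2 ^ (2*f) := dvd_pow_self 2 (by omega)
      omega)
    have hcard : 1 < (s.erase β⁻¹).card := by
      have h1 := Finset.pred_card_le_card_erase (s := s) (a := β⁻¹)
      have h2 : 2 ^ 1 < 2 ^ (2*f) := Nat.pow_lt_pow_right (by norm_num) (by omega)
      omega
    obtain ⟨v1, hv1, v2, hv2, hne⟩ := Finset.one_lt_card.1 hcard
    rw [Finset.mem_erase] at hv1 hv2
    have hone : ∀ v : L, v ≠ β⁻¹ → 1 + β * v ≠ 0 := by
      intro v hv h
      apply hv
      have : β * v = 1 := (CharTwo.add_eq_zero.1 h).symm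
      field_simp
      rw [mul_comm]; exact this
    have hfix : ∀ v ∈ s, ψ v = v := by
      intro v hv
      rw [← hψd]
      have := pow_sub_one_of_circle (2*f) v (hs' v hv)
      rw [e4] at this
      exact this
    by_contra hcon
    push Not at hcon
    have d1 := hcon v1 (hs' _ hv1.2) (hone v1 hv1.1)
    have d2 := hcon v2 (hs' _ hv2.2) (hone v2 hv2.1)
    have hv10 : v1 ≠ 0 := by
      rintro rfl
      have := hs' _ hv1.2
      rw [zero_pow (by positivity)] at this
      exact zero_ne_one this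
    have hψα : ψ α ≠ 0 := by rw [_root_.map_ne_zero]; exact hα
    have hψβ : ψ β ≠ 0 := by rw [_root_.map_ne_zero]; exact hβ
    have a1 : ψ β / ψ α ^ 2 = β / α ^ 2 := by
      have := d1.1
      rw [map_div₀, map_mul, map_pow, hfix v1 hv1.2] at this
      apply mul_right_cancel₀ hv10
      linear_combination this
    have a2 : ψ β / ψ α = β / α := by
      have t1 := d1.2
      have t2 := d2.2
      rw [map_div₀, map_add, map_one, map_mul, hfix v1 hv1.2] at t1
      rw [map_div₀, map_add, map_one, map_mul, hfix v2 hv2.2] at t2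
      apply mul_right_cancel₀ (sub_ne_zero.2 hne)
      linear_combination t1 - t2
    apply hnot
    rw [hψd, hψd]
    have a3 : ψ α = α := by
      have : ψ α = (ψ β / ψ α) / (ψ β / ψ α ^ 2) := by field_simp
      rw [this, a1, a2]
      field_simp
    refine ⟨a3, ?_⟩
    rw [a3] at a2
    field_simp at a2
    exact a2
  set δ : L := (1 + β * v) / α with hδ
  have hαδ : α * δ = 1 + β * v := by rw [hδ]; field_simp
  have hδ0 : δ ≠ 0 := div_ne_zero hv1 hα
  have hvΘ : Θ v = v := by
    rw [hΘψ]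
    have h : ψ v = v := by
      rw [← hψd]
      have := pow_sub_one_of_circle (2*f) v hv
      rw [e4] at this
      exact this
    rw [h, h]
  rw [hΘd] at hαq hβq
  have hδΘ : Θ δ = δ := by
    rw [hδ, map_div₀, map_add, map_one, map_mul, hαq, hβq, hvΘ]
  by_cases hδu : δ ^ (2^(2*f) + 1) = 1
  · refine ⟨δ, v, hδu, hv, Or.inl ?_⟩
    rw [hαδ]
    have : (1 : L) + (1 + β * v) + β * v = (1 + 1) + (β * v + β * v) := by ring
    rw [this, CharTwo.add_self_eq_zero, CharTwo.add_self_eq_zero, add_zero]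
  · -- γ
    obtain ⟨γ, hγ⟩ : ∃ γ : L, γ ^ 2 = β * v / α ^ 2 := IsAlgClosed.exists_pow_nat_eq _ (by norm_num)
    have hv0 : v ≠ 0 := by
      rintro rfl
      rw [zero_pow (by positivity)] at hv
      exact zero_ne_one hv
    have hγ0 : γ ≠ 0 := by
      rintro rfl
      rw [zero_pow (by norm_num)] at hγ
      exact (div_ne_zero (mul_ne_zero hβ hv0) (pow_ne_zero _ hα)) hγ.symm
    have sqinj : ∀ x y : L, x ^ 2 = y ^ 2 → x = y := by
      intro x y h
      have : (x + y) ^ 2 = 0 := by rw [CharTwo.add_sq, h, CharTwo.add_self_eq_zero]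
      exact CharTwo.add_eq_zero.1 ((pow_eq_zero_iff (by norm_num)).1 this)
    have hγΘ : Θ γ = γ := by
      apply sqinj
      rw [← map_pow, hγ, map_div₀, map_mul, map_pow, hαq, hβq, hvΘ]
    obtain ⟨u, hu, hw, htr⟩ := cov_aux f hf γ δ hγ0 (by rw [hΘd]; exact hγΘ) (by rw [hΘd]; exact hδΘ)
      hδu (by
        rintro ⟨h1, h2⟩
        apply hvnd
        rw [hψd] at h1 h2
        refine ⟨?_, h2⟩
        rw [← hγ, map_pow, h1])
    refine ⟨u, v, hu, hv, Or.inr ?_⟩
    have huΘ : Θ u = u := by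
      rw [hΘψ]
      have h : ψ u = u := by
        rw [← hψd]
        have := pow_sub_one_of_circle (2*f) u hu
        rw [e4] at this
        exact this
      rw [h, h]
    set w := u + δ with hw'
    set ε : L := 1 / α + γ with hε
    have hε2 : ε ^ 2 = δ / α := by
      rw [hε, CharTwo.add_sq, hγ, hδ]
      field_simp
    have hs : 1 + α * u + β * v = α * w := by
      rw [hw', mul_add, hαδ]; ring
    have hsplit : α * u / (1 + α * u + β * v)^2 = 1 / (α * w) + (ε / w) ^ 2 := by
      rw [hs, div_pow, hε2]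
      have : u = w + δ := by
        rw [hw', add_assoc, CharTwo.add_self_eq_zero, add_zero]
      rw [this]
      field_simp
    rw [hsplit, Tr_add, Tr_sq', ← Tr_add]
    · have : 1 / (α * w) + ε / w = γ / w := by
        rw [hε]
        have : (1 : L) / (α * w) + (1/α + γ)/w = (1 / (α * w) + 1 / (α * w)) + γ / w := by
          field_simp
          ring
        rw [this, CharTwo.add_self_eq_zero, zero_add]
      rw [this]
      exact htr
    · rw [hΘd, hε, hw', map_div₀, map_add, map_add, map_div₀, map_one, hαq, hγΘ, huΘ, hδΘ]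

end Cov

end Pool.Agent.Helper43.Ramsey
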