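import Mathlib
import Pool.Agent.Helper43.RamseyE

set_option autoImplicit false

namespace Pool.Agent.Helper43.Ramsey

open Polynomial Finset

/-- `Good L e h`: in the field with `2^(2e)` elements the cosets of the subgroup of order `h`
form a Ramsey scheme, and this subgroup contains the circle of order `2^e+1`. -/
structure Good (L : Type*) [Field L] (e h : ℕ) : Prop where
  dvd : h ∣ 2^(2*e) - 1
  circ : 2^e + 1 ∣ h
  cover : ∀ a b : L, a ≠ 0 → b ≠ 0 → a ^ (2^(2*e)) = a → b ^ (2^(2*e)) = b →
    ¬ (a ^ h = 1 ∧ b ^ h = 1) → ∃ x : L, x ^ (2^(2*e)) = x ∧ x ^ h = a ^ h ∧ (1 + x) ^ h = b ^ h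
  sf : ∀ x : L, x ^ (2^(2*e)) = x → x ^ h = 1 → (1 + x) ^ h = 1 → False

section Step

variable {L : Type*} [Field L] [IsAlgClosed L] [CharP L 2]

omit [IsAlgClosed L] in
lemma sq_inj {x y : L} (h : x ^ 2 = y ^ 2) : x = y := by
  have : (x + y) ^ 2 = 0 := by rw [CharTwo.add_sq, h, CharTwo.add_self_eq_zero]
  exact CharTwo.add_eq_zero.1 ((pow_eq_zero_iff (by norm_num)).1 this)

lemma Good.step {e h : ℕ} (he : 1 ≤ e) (hG : Good L e h) (hC : Cov L e) :
    Good L (4*e) (h * (2^(4*e) + 1)) := by
  have e8 : 2 * (4 * e) = 8 * e := by ring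
  set φ : L →+* L := iterateFrobenius L 2 (2*e) with hφ
  have hφd : ∀ x : L, x ^ (2^(2*e)) = φ x := fun x => (iterateFrobenius_def 2 _ x).symm
  set ψ : L →+* L := iterateFrobenius L 2 (4*e) with hψ
  have hψd : ∀ x : L, x ^ (2^(4*e)) = ψ x := fun x => (iterateFrobenius_def 2 _ x).symm
  have hψφ : ∀ x : L, ψ x = φ (φ x) := by
    intro x; rw [← hφd, ← hφd, ← hψd, ← pow_mul, ← pow_add]; congr 2; ring
  have h8 : ∀ x : L, x ^ (2^(8*e)) = ψ (ψ x) := by
    intro x; rw [← hψd, ← hψd, ← pow_mul, ← pow_add]; congr 2; ring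
  have hh : 0 < h := by
    rcases Nat.eq_zero_or_pos h with h0 | h0
    · exfalso
      have := hG.dvd
      rw [h0, zero_dvd_iff] at this
      have h2 : 2 ^ 1 ≤ 2 ^ (2 * e) := Nat.pow_le_pow_right (by norm_num) (by omega)
      omega
    · exact h0
  -- `h`-th roots of unity are in the small field
  have hroot : ∀ z : L, z ^ h = 1 → φ z = z := by
    intro z hz
    obtain ⟨k, hk⟩ := hG.dvd
    have h1 : z ^ (2^(2*e) - 1) = 1 := by rw [hk, pow_mul, hz, one_pow]
    rw [← hφd]
    have h2 : 2^(2*e) = (2^(2*e) - 1) + 1 := by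
      have := Nat.one_le_two_pow (n := 2*e)
      omega
    rw [h2, pow_succ, h1, one_mul]
  -- norm
  have hnorm : ∀ x : L, x ^ (h * (2^(4*e) + 1)) = (ψ x * x) ^ h := by
    intro x; rw [mul_comm h, pow_mul, pow_succ, hψd]
  -- factor of order of the big group
  have hdvd : h * (2^(4*e) + 1) ∣ 2^(8*e) - 1 := by
    obtain ⟨k, hk⟩ := hG.dvd
    have hA : ∃ A, 2^(2*e) = A + 1 := ⟨2^(2*e) - 1, by have := Nat.one_le_two_pow (n := 2*e); omega⟩
    obtain ⟨A, hA⟩ := hA
    have hA' : A = h * k := by rw [← hk, hA]; rfl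
    have e4 : 2^(4*e) = (A+1)^2 := by rw [← hA, ← pow_mul]; congr 1; ring
    have e8' : 2^(8*e) = (A+1)^4 := by rw [← hA, ← pow_mul]; congr 1; ring
    rw [e4, e8']
    refine ⟨k * (A + 2), ?_⟩
    rw [Nat.sub_eq_iff_eq_add (Nat.one_le_pow _ _ (by omega))]
    rw [show h * ((A + 1) ^ 2 + 1) * (k * (A + 2)) = (h * k) * ((A + 1) ^ 2 + 1) * (A + 2) by ring, ← hA']
    ring
  refine ⟨by rw [e8]; exact hdvd, Dvd.intro_left _ rfl, ?_, ?_⟩
  · -- coverage
    intro a b ha hb haq hbq hab
    rw [e8, h8] at haq hbq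
    rw [e8]
    rw [hnorm, hnorm] at hab
    set α := ψ a * a with hα
    set β := ψ b * b with hβ
    have hψα : ψ α = α := by rw [hα, map_mul, haq]; ring
    have hψβ : ψ β = β := by rw [hβ, map_mul, hbq]; ring
    have hα0 : α ≠ 0 := mul_ne_zero (by rw [_root_.map_ne_zero]; exact ha) ha
    have hβ0 : β ≠ 0 := mul_ne_zero (by rw [_root_.map_ne_zero]; exact hb) hb
    -- it suffices to find norms
    suffices hsuff : ∃ x : L, ψ (ψ x) = x ∧ (ψ x * x) ^ h = α ^ h ∧ (ψ (1 + x) * (1 + x)) ^ h = β ^ h by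
      obtain ⟨x, h1, h2, h3⟩ := hsuff
      exact ⟨x, by rw [h8]; exact h1, by rw [hnorm, hnorm]; exact h2, by rw [hnorm, hnorm]; exact h3⟩
    -- the degenerate way to realize norms
    have hdeg : ∀ i : L, ψ i = i → i ^ h = α ^ h → (1 + i) ^ h = β ^ h →
        ∃ x : L, ψ (ψ x) = x ∧ (ψ x * x) ^ h = α ^ h ∧ (ψ (1 + x) * (1 + x)) ^ h = β ^ h := by
      intro i hi1 hi2 hi3
      obtain ⟨x, hx⟩ : ∃ x : L, x ^ 2 = i := IsAlgClosed.exists_pow_nat_eq _ (by norm_num)
      have hψx : ψ x = x := by
        apply sq_inj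
        rw [← map_pow, hx, hi1]
      refine ⟨x, by rw [hψx, hψx], ?_, ?_⟩
      · rw [hψx, ← hi2, ← hx]; ring_nf
      · rw [map_add, map_one, hψx, ← hi3, ← hx]
        congr 1
        have : (1 + x) ^ 2 = 1 ^ 2 + x ^ 2 := CharTwo.add_sq _ _
        rw [one_pow] at this
        rw [← this]; ring
    by_cases hcase : α ^ (2^(2*e)) = α ∧ β ^ (2^(2*e)) = β
    · obtain ⟨i, hi1, hi2, hi3⟩ := hG.cover α β hα0 hβ0 hcase.1 hcase.2 hab
      rw [hφd] at hi1
      exact hdeg i (by rw [hψφ, hi1, hi1]) hi2 hi3
    · obtain ⟨u, v, hu, hv, huv⟩ := hC α β hα0 hβ0 (by rw [hψd]; exact hψα) (by rw [hψd]; exact hψβ) hcase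
      have hφu : φ u = u := by rw [← hφd]; exact pow_sub_one_of_circle e u hu
      have hφv : φ v = v := by rw [← hφd]; exact pow_sub_one_of_circle e v hv
      have hψu : ψ u = u := by rw [hψφ, hφu, hφu]
      have hψv : ψ v = v := by rw [hψφ, hφv, hφv]
      obtain ⟨k, hk⟩ := hG.circ
      have huh : (α * u) ^ h = α ^ h := by
        rw [mul_pow, hk, pow_mul u, hu, one_pow, mul_one]
      have hvh : (β * v) ^ h = β ^ h := by
        rw [mul_pow, hk, pow_mul v, hv, one_pow, mul_one]
      set i := α * u with hi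
      set j := β * v with hj
      have hψi : ψ i = i := by rw [hi, map_mul, hψα, hψu]
      have hψj : ψ j = j := by rw [hj, map_mul, hψβ, hψv]
      rcases huv with h0 | htr
      · have : 1 + i = j := CharTwo.add_eq_zero.1 h0
        exact hdeg i hψi huh (by rw [this]; exact hvh)
      · set t := 1 + i + j with ht
        have ht0 : t ≠ 0 := by
          intro h
          apply htr
          rw [h]
          simp [Tr]
        have hψt : ψ t = t := by rw [ht, map_add, map_add, map_one, hψi, hψj]
        -- root of X^2 + tX + i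
        obtain ⟨x, hx⟩ : ∃ x : L, x ^ 2 + t * x + i = 0 := by
          have hdeg2 : (X ^ 2 + C t * X + C i : L[X]).degree = 2 := by compute_degree!
          obtain ⟨x, hx⟩ := IsAlgClosed.exists_root (X ^ 2 + C t * X + C i : L[X]) (by
            rw [hdeg2]; norm_num)
          exact ⟨x, by simpa [IsRoot] using hx⟩
        have hxψ : ψ x = x + t := by
          have h1 : (ψ x) ^ 2 + t * ψ x + i = 0 := by
            have := congrArg ψ hx
            rw [map_add, map_add, map_pow, map_mul, map_zero, hψt, hψi] at this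
            exact this
          have h2 : (ψ x + x) * (ψ x + x + t) = 0 := by
            have two : (2 : L) = 0 := CharTwo.two_eq_zero
            linear_combination h1 + hx + (x * ψ x - i) * two
          rcases mul_eq_zero.1 h2 with h3 | h3
          · exfalso
            have hψx : ψ x = x := CharTwo.add_eq_zero.1 h3
            apply htr
            have h4 : i / t ^ 2 = (x / t) ^ 2 + x / t := by
              have : i = x ^ 2 + t * x := by
                have := CharTwo.add_eq_zero.1 hx
                exact this.symm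
              rw [this]
              field_simp
            rw [h4, Tr_add, Tr_sq', CharTwo.add_self_eq_zero]
            rw [hψd, map_div₀, hψx, hψt]
          · have h5 : ψ x + (x + t) = 0 := by rw [← add_assoc]; exact h3
            exact CharTwo.add_eq_zero.1 h5
        refine ⟨x, ?_, ?_, ?_⟩
        · rw [hxψ, map_add, hxψ, hψt, add_assoc, CharTwo.add_self_eq_zero, add_zero]
        · rw [← huh]
          congr 1
          have : (ψ x) * x = x ^ 2 + t * x := by rw [hxψ]; ring
          rw [this]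
          exact CharTwo.add_eq_zero.1 hx
        · rw [← hvh]
          congr 1
          have h6 : ψ (1 + x) * (1 + x) = (x ^ 2 + t * x) + (1 + t) + (x + x) := by
            rw [map_add, map_one, hxψ]; ring
          rw [h6, CharTwo.add_self_eq_zero, CharTwo.add_eq_zero.1 hx, ht]
          have h7 : i + (1 + (1 + i + j)) + 0 = (1 + 1) + (i + i) + j := by ring
          rw [h7, CharTwo.add_self_eq_zero, CharTwo.add_self_eq_zero]
          ring
  · -- sum-freeness
    intro x hxq hx1 hx2
    rw [hnorm] at hx1 hx2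
    rw [e8, h8] at hxq
    set i := ψ x * x with hi
    set j := ψ (1 + x) * (1 + x) with hj
    have hφi := hroot i hx1
    have hφj := hroot j hx2
    set t := ψ x + x with ht
    have hjt : j = 1 + t + i := by rw [hj, hi, ht, map_add, map_one]; ring
    have htij : t = 1 + i + j := by
      rw [hjt]
      have : 1 + i + (1 + t + i) = (1 + 1) + (i + i) + t := by ring
      rw [this, CharTwo.add_self_eq_zero, CharTwo.add_self_eq_zero]
      ring
    have hφt : φ t = t := by rw [htij, map_add, map_add, map_one, hφi, hφj]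
    have hx : x ^ 2 + t * x + i = 0 := by
      have : x ^ 2 + t * x + i = (x ^ 2 + x ^ 2) + (ψ x * x + ψ x * x) := by rw [ht, hi]; ring
      rw [this, CharTwo.add_self_eq_zero, CharTwo.add_self_eq_zero, add_zero]
    have h1 : (φ x) ^ 2 + t * φ x + i = 0 := by
      have := congrArg φ hx
      rw [map_add, map_add, map_pow, map_mul, map_zero, hφt, hφi] at this
      exact this
    have h2 : (φ x + x) * (φ x + x + t) = 0 := by
      have two : (2 : L) = 0 := CharTwo.two_eq_zero
      linear_combination h1 + hx + (x * φ x - i) * two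
    have hψx : ψ x = x := by
      rw [hψφ]
      rcases mul_eq_zero.1 h2 with h3 | h3
      · have : φ x = x := CharTwo.add_eq_zero.1 h3
        rw [this, this]
      · have h5 : φ x + (x + t) = 0 := by rw [← add_assoc]; exact h3
        have h6 : φ x = x + t := CharTwo.add_eq_zero.1 h5
        rw [h6, map_add, h6, hφt, add_assoc, CharTwo.add_self_eq_zero, add_zero]
    have ht0 : t = 0 := by rw [ht, hψx, CharTwo.add_self_eq_zero]
    have hj' : j = 1 + i := by rw [hjt, ht0]; ring
    rw [hj'] at hx2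
    exact hG.sf i (by rw [hφd]; exact hφi) hx1 hx2

end Step

end Pool.Agent.Helper43.Ramsey
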