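import Mathlib
import Pool.Agent.Helper43.RamseyF

set_option autoImplicit false

namespace Pool.Agent.Helper43.Ramsey

open Finset

/-- table of powers of the generator of the field with 256 elements -/
def expTab : ℕ := 0x18e47add86c361b83cfe9fa7db0582c160b8bcbebfbf3f7f5f47a3d90482412098a45ac562b9bc3eff9f279b259a251a653a7dde070381c0e078dc86432198241ae57a5dc6e3795c46231964babdbe3fff1f67bb3d7e5fc7e3f91c663bfd1e673b7d5e472399249aa55a452299a4da8542a158442219e4fa9da6db85c2e1785cc663397c5ec763b93c7edf87c3e1f81ce67bdd068341a0d884422118643afd9e271b65ba3dfe1fe7fb1d66bbbd3e7fdf0783c1e0f89ca65bc5e2f99c261be5fa1de6fb9d269ba5da05028140a058c46239fc1ee77b5d46a35944a259c4e279dc06030180c06038fc9ea75b45a2d984c261387cde8743a1d8040201008040201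
/-- table of logarithms -/
def logTab : ℕ := 0xaf5850a8eaf4d674e8ade7e6e9d5ae4fd72c757aeb16f50b51a0a99cb05f59cb5a3eccbbb18660fbaa559d29523ba16cf66f0c7fec4917c476a47bb7d8432d1fa2416d4753393c849e5d2a14abd356f261befcdcb2978790cdcfbc955bd13f372e892023d99244117cb4b8267799a5e318fec531edde4a670d63808cf7c0700757a7f373ace5d44e2b79150a9f9b5eca3dba85fa54283a6b6e7e48c3a3b6421e404638835c13d2f1bddb968fce94d03688229110b32598e2fd30dd66628bbf06a672e44d78099ac9b9f9276a7dc2b51d458212f0da8e9335210f24e12f658a05714c08c8f869c11c81ef8d340ee064044bc7681bee33df03c61a320219010000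

def gexp (i : ℕ) : ℕ := (expTab >>> (8*i)) % 256
def glog (n : ℕ) : ℕ := (logTab >>> (8*n)) % 256
def xt (n : ℕ) : ℕ := if n < 128 then 2 * n else (2 * n) ^^^ 285

def trv (n : ℕ) : ℕ :=
  gexp (n % 255) ^^^ gexp ((2*n) % 255) ^^^ gexp ((4*n) % 255) ^^^ gexp ((8*n) % 255) ^^^
  gexp ((16*n) % 255) ^^^ gexp ((32*n) % 255) ^^^ gexp ((64*n) % 255) ^^^ gexp ((128*n) % 255)

def sumv (a b : ℕ) : ℕ := 1 ^^^ gexp a ^^^ gexp b

def goodt (i j t : ℕ) : Bool :=
  Nat.beq (sumv ((i + 51*(t/5)) % 255) ((j + 51*(t%5)) % 255)) 0 ||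
  Nat.beq (trv (((i + 51*(t/5)) % 255 +
    2*(255 - glog (sumv ((i + 51*(t/5)) % 255) ((j + 51*(t%5)) % 255)))) % 255)) 1

def good (i j : ℕ) : Bool := (List.range 25).any fun t => goodt i j t

def check1 : Bool := Nat.beq (gexp 0) 1 && (List.range 255).all fun i =>
  Nat.beq (gexp (i+1)) (xt (gexp i)) && Nat.blt (gexp i) 256
def check2 : Bool := (List.range 255).all fun n =>
  Nat.beq (gexp (glog (n+1))) (n+1) && Nat.blt (glog (n+1)) 255
def check3 : Bool := (List.range 51).all fun i => (List.range 51).all fun j =>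
  (Nat.beq (i % 17) 0 && Nat.beq (j % 17) 0) || good i j

/-- level one: the field with 16 elements -/
def good16 (i j : ℕ) : Bool := (List.range 14).any fun t =>
  Nat.beq ((t+1) % 3) (i % 3) &&
    (Nat.beq (gexp (17 * (t+1)) ^^^ 1) (gexp (17 * (glog (gexp (17 * (t+1)) ^^^ 1) / 17))) &&
     Nat.beq ((glog (gexp (17 * (t+1)) ^^^ 1) / 17) % 3) (j % 3))
def check4 : Bool := (List.range 15).all fun i => (List.range 15).all fun j =>
  (Nat.beq (i % 3) 0 && Nat.beq (j % 3) 0) || good16 i j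
/-- sum-freeness for the field with 16 elements -/
def check5 : Bool := (List.range 15).all fun i =>
  (!(Nat.beq (i % 3) 0)) || Nat.beq i 0 || 
    (Nat.beq (gexp (17 * i) ^^^ 1) (gexp (glog (gexp (17 * i) ^^^ 1))) &&
     !(Nat.beq ((5 * glog (gexp (17 * i) ^^^ 1)) % 255) 0))

lemma check1_true : check1 = true := by decide +kernel
lemma check2_true : check2 = true := by decide +kernel
lemma check3_true : check3 = true := by decide +kernel
lemma check4_true : check4 = true := by decide +kernel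
lemma check5_true : check5 = true := by decide +kernel

end Pool.Agent.Helper43.Ramsey
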