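import Mathlib
import Pool.Agent.Helper43.RamseyG

set_option autoImplicit false

namespace Pool.Agent.Helper43.Ramsey

open Finset Polynomial

lemma gexp_zero : gexp 0 = 1 := by
  have h := check1_true
  rw [check1, Bool.and_eq_true, Nat.beq_eq] at h
  exact h.1

lemma gexp_step (i : ℕ) (hi : i < 255) : gexp (i+1) = xt (gexp i) ∧ gexp i < 256 := by
  have h := check1_true
  rw [check1, Bool.and_eq_true, List.all_eq_true] at h
  have := h.2 i (List.mem_range.2 hi)
  rw [Bool.and_eq_true, Nat.beq_eq, Nat.blt_eq] at this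
  exact this

lemma glog_spec (n : ℕ) (hn : n < 255) : gexp (glog (n+1)) = n + 1 ∧ glog (n+1) < 255 := by
  have h := check2_true
  rw [check2, List.all_eq_true] at h
  have := h n (List.mem_range.2 hn)
  rw [Bool.and_eq_true, Nat.beq_eq, Nat.blt_eq] at this
  exact this

lemma glog_spec' (n : ℕ) (h0 : n ≠ 0) (hn : n < 256) : gexp (glog n) = n ∧ glog n < 255 := by
  obtain ⟨k, rfl⟩ : ∃ k, n = k + 1 := ⟨n - 1, by omega⟩
  exact glog_spec k (by omega)

section Ev

variable {L : Type*} [Field L] [CharP L 2]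

/-- evaluation of a bit vector at `θ` -/
def ev (θ : L) (n : ℕ) : L := ∑ j ∈ range 9, if n.testBit j then θ ^ j else 0

lemma ev_xor (θ : L) (m n : ℕ) : ev θ (m ^^^ n) = ev θ m + ev θ n := by
  unfold ev
  rw [← Finset.sum_add_distrib]
  apply Finset.sum_congr rfl
  intro j _
  rw [Nat.testBit_xor]
  rcases m.testBit j <;> rcases n.testBit j <;> simp [CharTwo.add_self_eq_zero]

omit [CharP L 2] in
lemma ev_two_mul (θ : L) (n : ℕ) (hn : n < 256) : ev θ (2 * n) = θ * ev θ n := by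
  unfold ev
  rw [Finset.sum_range_succ', Finset.sum_range_succ _ 8]
  have h8 : n.testBit 8 = false := Nat.testBit_lt_two_pow (by omega)
  have h0 : (2 * n).testBit 0 = false := by simp
  rw [h8, h0]
  simp only [Bool.false_eq_true, if_false, add_zero]
  rw [Finset.mul_sum]
  apply Finset.sum_congr rfl
  intro j _
  have : (2 * n).testBit (j+1) = n.testBit j := by
    rw [Nat.testBit_succ]
    simp
  rw [this]
  split_ifs
  · ring
  · simp

omit [CharP L 2] in
lemma ev_poly (θ : L) (hθ : θ ^ 8 + θ ^ 4 + θ ^ 3 + θ ^ 2 + 1 = 0) : ev θ 285 = 0 := by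
  unfold ev
  simp only [Finset.sum_range_succ, Finset.sum_range_zero]
  have b0 : Nat.testBit 285 0 = true := by decide
  have b1 : Nat.testBit 285 1 = false := by decide
  have b2 : Nat.testBit 285 2 = true := by decide
  have b3 : Nat.testBit 285 3 = true := by decide
  have b4 : Nat.testBit 285 4 = true := by decide
  have b5 : Nat.testBit 285 5 = false := by decide
  have b6 : Nat.testBit 285 6 = false := by decide
  have b7 : Nat.testBit 285 7 = false := by decide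
  have b8 : Nat.testBit 285 8 = true := by decide
  rw [b0, b1, b2, b3, b4, b5, b6, b7, b8]
  simp only [Bool.false_eq_true, if_false, if_true, add_zero, zero_add]
  linear_combination hθ

lemma ev_xt (θ : L) (hθ : θ ^ 8 + θ ^ 4 + θ ^ 3 + θ ^ 2 + 1 = 0) (n : ℕ) (hn : n < 256) :
    ev θ (xt n) = θ * ev θ n := by
  unfold xt
  split_ifs
  · exact ev_two_mul θ n hn
  · rw [ev_xor, ev_poly θ hθ, add_zero]
    exact ev_two_mul θ n hn

omit [CharP L 2] in
lemma ev_zero (θ : L) : ev θ 0 = 0 := by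
  unfold ev; simp

omit [CharP L 2] in
lemma ev_one (θ : L) : ev θ 1 = 1 := by
  unfold ev
  rw [Finset.sum_range_succ']
  have : ∀ j, Nat.testBit 1 (j+1) = false := by
    intro j
    rw [Nat.testBit_succ]
    simp
  simp [this]

lemma ev_gexp (θ : L) (hθ : θ ^ 8 + θ ^ 4 + θ ^ 3 + θ ^ 2 + 1 = 0) (i : ℕ) (hi : i ≤ 255) :
    ev θ (gexp i) = θ ^ i := by
  induction i with
  | zero => rw [gexp_zero, ev_one, pow_zero]
  | succ i ih =>
    obtain ⟨h1, h2⟩ := gexp_step i (by omega)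
    rw [h1, ev_xt θ hθ _ h2, ih (by omega)]
    ring

lemma gexp_255 : gexp 255 = 1 := by decide +kernel

lemma theta_pow_255 (θ : L) (hθ : θ ^ 8 + θ ^ 4 + θ ^ 3 + θ ^ 2 + 1 = 0) : θ ^ 255 = 1 := by
  rw [← ev_gexp θ hθ 255 le_rfl, gexp_255, ev_one]

lemma theta_pow_mod (θ : L) (hθ : θ ^ 8 + θ ^ 4 + θ ^ 3 + θ ^ 2 + 1 = 0) (i : ℕ) :
    θ ^ i = θ ^ (i % 255) := by
  conv_lhs => rw [← Nat.div_add_mod i 255, pow_add, pow_mul, theta_pow_255 θ hθ, one_pow, one_mul]

lemma ev_gexp_mod (θ : L) (hθ : θ ^ 8 + θ ^ 4 + θ ^ 3 + θ ^ 2 + 1 = 0) (i : ℕ) :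
    ev θ (gexp (i % 255)) = θ ^ i := by
  rw [ev_gexp θ hθ _ (by omega), ← theta_pow_mod θ hθ]

omit [CharP L 2] in
lemma theta_ne_zero (θ : L) (hθ : θ ^ 8 + θ ^ 4 + θ ^ 3 + θ ^ 2 + 1 = 0) : θ ≠ 0 := by
  rintro rfl
  norm_num at hθ

lemma ev_ne_zero (θ : L) (hθ : θ ^ 8 + θ ^ 4 + θ ^ 3 + θ ^ 2 + 1 = 0) (n : ℕ) (h0 : n ≠ 0)
    (hn : n < 256) : ev θ n ≠ 0 := by
  obtain ⟨h1, h2⟩ := glog_spec' n h0 hn
  rw [← h1, ev_gexp θ hθ _ (by omega)]
  exact pow_ne_zero _ (theta_ne_zero θ hθ)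

lemma gexp_lt (i : ℕ) : gexp i < 256 := Nat.mod_lt _ (by norm_num)

lemma xor_lt {a b : ℕ} (ha : a < 256) (hb : b < 256) : a ^^^ b < 256 := by
  have := Nat.xor_lt_two_pow (n := 8) (x := a) (y := b) ha hb
  exact this

lemma theta_primitive (θ : L) (hθ : θ ^ 8 + θ ^ 4 + θ ^ 3 + θ ^ 2 + 1 = 0) :
    IsPrimitiveRoot θ 255 := by
  have hne : ∀ i, i ≤ 255 → (gexp i ^^^ 1) ≠ 0 → θ ^ i ≠ 1 := by
    intro i hi h0 h1
    have h2 := ev_ne_zero θ hθ _ h0 (xor_lt (gexp_lt i) (by norm_num))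
    apply h2
    rw [ev_xor, ev_gexp θ hθ i hi, ev_one, h1, CharTwo.add_self_eq_zero]
  have e85 : θ ^ 85 ≠ 1 := hne 85 (by norm_num) (by decide +kernel)
  have e51 : θ ^ 51 ≠ 1 := hne 51 (by norm_num) (by decide +kernel)
  have e15 : θ ^ 15 ≠ 1 := hne 15 (by norm_num) (by decide +kernel)
  rw [IsPrimitiveRoot.iff_orderOf]
  apply orderOf_eq_of_pow_and_pow_div_prime (by norm_num) (theta_pow_255 θ hθ)
  intro p hp hpd
  have : p ∈ Nat.primeFactors 255 := by
    rw [Nat.mem_primeFactors]; exact ⟨hp, hpd, by norm_num⟩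
  have h255 : Nat.primeFactors 255 = {3, 5, 17} := by
    have : (255 : ℕ) = 3 * (5 * 17) := by norm_num
    rw [this, Nat.primeFactors_mul (by norm_num) (by norm_num), Nat.primeFactors_mul (by norm_num) (by norm_num),
      Nat.Prime.primeFactors (by norm_num), Nat.Prime.primeFactors (by norm_num), Nat.Prime.primeFactors (by norm_num)]
    rfl
  rw [h255] at this
  simp only [Finset.mem_insert, Finset.mem_singleton] at this
  rcases this with rfl | rfl | rfl
  · exact e85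
  · exact e51
  · exact e15

end Ev

section Base

variable {L : Type*} [Field L] [IsAlgClosed L] [CharP L 2]

omit [IsAlgClosed L] in
lemma Tr_theta (θ : L) (hθ : θ ^ 8 + θ ^ 4 + θ ^ 3 + θ ^ 2 + 1 = 0) (n : ℕ) :
    Tr 8 (θ ^ n) = ev θ (trv n) := by
  unfold Tr trv
  simp only [ev_xor, ev_gexp_mod θ hθ]
  simp only [Finset.sum_range_succ, Finset.sum_range_zero, ← pow_mul, zero_add]
  ring_nf

omit [IsAlgClosed L] [CharP L 2] in
lemma exists_theta [IsAlgClosed L] : ∃ θ : L, θ ^ 8 + θ ^ 4 + θ ^ 3 + θ ^ 2 + 1 = 0 := by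
  have hdeg : (X ^ 8 + X ^ 4 + X ^ 3 + X ^ 2 + 1 : L[X]).degree = 8 := by compute_degree!
  obtain ⟨x, hx⟩ := IsAlgClosed.exists_root (X ^ 8 + X ^ 4 + X ^ 3 + X ^ 2 + 1 : L[X]) (by
    rw [hdeg]; norm_num)
  exact ⟨x, by simpa [IsRoot] using hx⟩

omit [IsAlgClosed L] in
lemma exists_log (θ : L) (hθ : θ ^ 8 + θ ^ 4 + θ ^ 3 + θ ^ 2 + 1 = 0) (α : L) (hα : α ≠ 0)
    (h : α ^ (2^8) = α) : ∃ i < 255, θ ^ i = α := by
  have h1 : α ^ 255 = 1 := by
    apply mul_right_cancel₀ hα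
    rw [one_mul, ← pow_succ]
    exact h
  exact (theta_primitive θ hθ).eq_pow_of_pow_eq_one h1

theorem cov_two : Cov L 2 := by
  intro α β hα hβ hαq hβq hnot
  obtain ⟨θ, hθ⟩ := exists_theta (L := L)
  norm_num only at hαq hβq hnot ⊢
  obtain ⟨i, hi, rfl⟩ := exists_log θ hθ α hα (by norm_num only; exact hαq)
  obtain ⟨j, hj, rfl⟩ := exists_log θ hθ β hβ (by norm_num only; exact hβq)
  have h255 := theta_pow_255 θ hθ
  have hnot' : ¬ (i % 51 % 17 = 0 ∧ j % 51 % 17 = 0) := by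
    rintro ⟨h1, h2⟩
    apply hnot
    have hi' : ∃ k, i = 17 * k := ⟨i / 17, by omega⟩
    have hj' : ∃ k, j = 17 * k := ⟨j / 17, by omega⟩
    obtain ⟨k, hk⟩ := hi'
    obtain ⟨l, hl⟩ := hj'
    have key : ∀ k : ℕ, (θ ^ (17 * k)) ^ 16 = θ ^ (17 * k) := by
      intro k
      rw [← pow_mul, show 17 * k * 16 = 255 * k + 17 * k by ring, pow_add, pow_mul, h255, one_pow, one_mul]
    rw [hk, hl]
    exact ⟨key k, key l⟩
  have hch := check3_true
  rw [check3, List.all_eq_true] at hch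
  have hch1 := hch (i % 51) (List.mem_range.2 (Nat.mod_lt _ (by norm_num)))
  rw [List.all_eq_true] at hch1
  have hch2 := hch1 (j % 51) (List.mem_range.2 (Nat.mod_lt _ (by norm_num)))
  rw [Bool.or_eq_true, Bool.and_eq_true, Nat.beq_eq, Nat.beq_eq] at hch2
  have hgood := hch2.resolve_left hnot'
  rw [good, List.any_eq_true] at hgood
  obtain ⟨t, ht, hgt⟩ := hgood
  rw [List.mem_range] at ht
  -- the elements
  have hred : ∀ (i a : ℕ), i < 255 → θ ^ i * θ ^ (51 * (a + 5 - i / 51)) = θ ^ (i % 51 + 51 * a) := by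
    intro i a hi
    rw [← pow_add]
    have h1 : i / 51 ≤ 4 := by omega
    have h2 : i + 51 * (a + 5 - i / 51) = 255 * 1 + (i % 51 + 51 * a) := by omega
    rw [h2, pow_add, pow_mul, h255, one_pow, one_mul]
  have hu5 : ∀ k : ℕ, (θ ^ (51 * k)) ^ 5 = 1 := by
    intro k
    rw [← pow_mul, show 51 * k * 5 = 255 * k by ring, pow_mul, h255, one_pow]
  refine ⟨θ ^ (51 * (t/5 + 5 - i/51)), θ ^ (51 * (t%5 + 5 - j/51)), hu5 _, hu5 _, ?_⟩
  rw [hred i _ hi, hred j _ hj]
  set A := i % 51 + 51 * (t/5) with hA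
  set B := j % 51 + 51 * (t%5) with hB
  rw [goodt, Bool.or_eq_true, Nat.beq_eq, Nat.beq_eq] at hgt
  rw [← hA, ← hB] at hgt
  set S := sumv (A % 255) (B % 255) with hS
  have hevS : ev θ S = 1 + θ ^ A + θ ^ B := by
    rw [hS, sumv, ev_xor, ev_xor, ev_one, ev_gexp_mod θ hθ, ev_gexp_mod θ hθ]
  by_cases hS0 : S = 0
  · left
    rw [← hevS, hS0, ev_zero]
  · right
    have h3 := hgt.resolve_left hS0
    have hSlt : S < 256 := by
      rw [hS, sumv]
      exact xor_lt (xor_lt (by norm_num) (gexp_lt _)) (gexp_lt _)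
    obtain ⟨h4, h5⟩ := glog_spec' S hS0 hSlt
    have h6 : θ ^ (glog S) = 1 + θ ^ A + θ ^ B := by
      rw [← hevS, ← ev_gexp θ hθ _ (by omega), h4]
    rw [← h6]
    have h7 : θ ^ A / (θ ^ glog S) ^ 2 = θ ^ ((A % 255 + 2 * (255 - glog S)) % 255) := by
      rw [← theta_pow_mod θ hθ]
      have hne : (θ ^ glog S) ^ 2 ≠ 0 := pow_ne_zero _ (pow_ne_zero _ (theta_ne_zero θ hθ))
      rw [div_eq_iff hne, ← pow_mul, ← pow_add]
      have : A % 255 + 2 * (255 - glog S) + glog S * 2 = 255 * 2 + A % 255 := by omega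
      have h8 : θ ^ (255 * 2 + A % 255) = θ ^ (A % 255) := by
        rw [pow_add, pow_mul, h255, one_pow, one_mul]
      rw [this, h8]
      exact theta_pow_mod θ hθ A
    rw [h7, Tr_theta θ hθ, h3, ev_one]
    exact one_ne_zero

theorem good_two : Good L 2 5 := by
  obtain ⟨θ, hθ⟩ := exists_theta (L := L)
  have h255 := theta_pow_255 θ hθ
  have hlog : ∀ α : L, α ≠ 0 → α ^ (2 ^ (2 * 2)) = α → ∃ l < 15, θ ^ (17 * l) = α := by
    intro α hα h
    have h16 : α ^ 16 = α := by norm_num only at h; exact h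
    obtain ⟨i, hi, rfl⟩ := exists_log θ hθ α hα (by
      norm_num only
      calc α ^ 256 = (α ^ 16) ^ 16 := by rw [← pow_mul]
        _ = α := by rw [h16, h16])
    have h1 : θ ^ (15 * i) = 1 := by
      apply mul_right_cancel₀ hα
      rw [one_mul, ← pow_add]
      conv_rhs => rw [← h16]
      rw [← pow_mul]
      congr 1
      ring
    have h2 := ((theta_primitive θ hθ).pow_eq_one_iff_dvd _).1 h1
    obtain ⟨l, hl⟩ : 17 ∣ i := by omega
    exact ⟨l, by omega, by rw [hl]⟩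
  have hfive : ∀ l : ℕ, (θ ^ (17 * l)) ^ 5 = θ ^ (85 * (l % 3)) := by
    intro l
    rw [← pow_mul]
    conv_lhs => rw [← Nat.div_add_mod l 3]
    rw [show 17 * (3 * (l / 3) + l % 3) * 5 = 255 * (l/3) + 85 * (l % 3) by ring, pow_add, pow_mul, h255,
      one_pow, one_mul]
  refine ⟨by norm_num, by norm_num, ?_, ?_⟩
  · intro a b ha hb haq hbq hab
    obtain ⟨i, hi, rfl⟩ := hlog a ha haq
    obtain ⟨j, hj, rfl⟩ := hlog b hb hbq
    rw [hfive, hfive] at hab
    have hnot : ¬ (i % 3 = 0 ∧ j % 3 = 0) := by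
      rintro ⟨h1, h2⟩
      apply hab
      rw [h1, h2]
      simp
    have hch := check4_true
    rw [check4, List.all_eq_true] at hch
    have hch1 := hch i (List.mem_range.2 hi)
    rw [List.all_eq_true] at hch1
    have hch2 := hch1 j (List.mem_range.2 hj)
    rw [Bool.or_eq_true, Bool.and_eq_true, Nat.beq_eq, Nat.beq_eq] at hch2
    have hg := hch2.resolve_left hnot
    rw [good16, List.any_eq_true] at hg
    obtain ⟨t, ht, hgt⟩ := hg
    rw [List.mem_range] at ht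
    rw [Bool.and_eq_true, Bool.and_eq_true, Nat.beq_eq, Nat.beq_eq, Nat.beq_eq] at hgt
    obtain ⟨g1, g2, g3⟩ := hgt
    set k := glog (gexp (17 * (t+1)) ^^^ 1) / 17 with hk
    refine ⟨θ ^ (17 * (t+1)), ?_, ?_, ?_⟩
    · norm_num only
      rw [← pow_mul, show 17 * (t+1) * 16 = 255 * (t+1) + 17 * (t+1) by ring, pow_add, pow_mul, h255,
        one_pow, one_mul]
    · rw [hfive, hfive, g1]
    · have h17 : 17 * k ≤ 255 := by
        have : glog (gexp (17 * (t+1)) ^^^ 1) < 256 := Nat.mod_lt _ (by norm_num)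
        omega
      have : 1 + θ ^ (17 * (t+1)) = θ ^ (17 * k) := by
        rw [← ev_gexp θ hθ (17 * (t+1)) (by omega), ← ev_gexp θ hθ (17 * k) h17, ← g2, ev_xor, ev_one, add_comm]
      rw [this, hfive, hfive, g3]
  · intro x hxq h1 h2
    have hx0 : x ≠ 0 := by rintro rfl; simp at h1
    obtain ⟨i, hi, rfl⟩ := hlog x hx0 hxq
    have hch := check5_true
    rw [check5, List.all_eq_true] at hch
    have hch1 := hch i (List.mem_range.2 hi)
    have hi3 : i % 3 = 0 := by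
      rw [← pow_mul] at h1
      have := ((theta_primitive θ hθ).pow_eq_one_iff_dvd _).1 h1
      omega
    simp only [Bool.or_eq_true, Bool.and_eq_true, Bool.not_eq_true', Nat.beq_eq] at hch1
    rcases hch1 with (hc | hc) | hc
    · have : Nat.beq (i % 3) 0 = true := by rw [Nat.beq_eq]; exact hi3
      rw [this] at hc
      exact absurd hc (by decide)
    · rw [hc] at h2
      simp [CharTwo.add_self_eq_zero] at h2
    · obtain ⟨c1, c2⟩ := hc
      set k := glog (gexp (17 * i) ^^^ 1) with hk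
      have hk' : k < 256 := Nat.mod_lt _ (by norm_num)
      have h3 : 1 + θ ^ (17 * i) = θ ^ k := by
        rw [← ev_gexp θ hθ (17 * i) (by omega), ← ev_gexp θ hθ k (by omega), ← c1, ev_xor, ev_one, add_comm]
      rw [h3, ← pow_mul] at h2
      have h4 := ((theta_primitive θ hθ).pow_eq_one_iff_dvd _).1 h2
      have h5 : 5 * k % 255 = 0 := by
        rw [mul_comm]; exact Nat.mod_eq_zero_of_dvd h4
      have h6 : Nat.beq (5 * k % 255) 0 = true := by rw [Nat.beq_eq]; exact h5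
      rw [h6] at c2
      exact absurd c2 (by decide)

end Base

end Pool.Agent.Helper43.Ramsey
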