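import Mathlib
import Pool.Agent.Helper43.RamseyH

set_option autoImplicit false

namespace Pool.Agent.Helper43.Ramsey

open Finset Polynomial

section Chain

variable {L : Type*} [Field L] [IsAlgClosed L] [CharP L 2]

theorem chain (n : ℕ) : ∃ h m : ℕ, Good L (2 * 4^n) h ∧ h * m = 2^(2*(2*4^n)) - 1 ∧ n < m := by
  induction n with
  | zero => exact ⟨5, 3, by simpa using good_two (L := L), by norm_num, by norm_num⟩
  | succ n ih =>
    obtain ⟨h, m, hG, hm, hn⟩ := ih
    have hC : Cov L (2 * 4^n) := by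
      rcases Nat.eq_zero_or_pos n with h0 | h0
      · rw [h0, pow_zero, mul_one]; exact cov_two
      · apply cov_of_le
        calc 4 = 4 ^ 1 := by norm_num
          _ ≤ 4 ^ n := Nat.pow_le_pow_right (by norm_num) h0
    have he : 1 ≤ 2 * 4 ^ n := by have := Nat.one_le_pow n 4 (by norm_num); omega
    have hG' := hG.step he hC
    have e1 : 4 * (2 * 4 ^ n) = 2 * 4 ^ (n+1) := by ring
    refine ⟨h * (2 ^ (4 * (2 * 4 ^ n)) + 1), m * (2 ^ (2 * (2 * 4 ^ n)) + 1), by rw [← e1]; exact hG', ?_, ?_⟩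
    · rw [← e1]
      set e := 2 * 4 ^ n with hedef
      obtain ⟨A, hA⟩ : ∃ A, 2^(2*e) = A + 1 := ⟨2^(2*e) - 1, by have := Nat.one_le_two_pow (n := 2*e); omega⟩
      have hA' : h * m = A := by rw [hm, hA]; rfl
      have e4 : 2^(4*e) = (A+1)^2 := by rw [← hA, ← pow_mul]; congr 1; ring
      have e8' : 2^(2*(4*e)) = (A+1)^4 := by rw [← hA, ← pow_mul]; congr 1; ring
      rw [e4, e8', hA]
      symm
      rw [Nat.sub_eq_iff_eq_add (Nat.one_le_pow _ _ (by omega))]
      rw [show h * ((A + 1) ^ 2 + 1) * (m * (A + 1 + 1)) = (h * m) * ((A + 1) ^ 2 + 1) * (A + 2) by ring, hA']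
      ring
    · have h1 : 1 ≤ 2 ^ (2 * (2 * 4 ^ n)) := Nat.one_le_two_pow
      nlinarith

end Chain

section Final

variable {L : Type*} [Field L] [IsAlgClosed L] [CharP L 2]

lemma exists_rootsFinset_iff (n : ℕ) (hn : ¬ 2 ∣ n) :
    ∃ s : Finset L, s.card = n ∧ ∀ u, u ∈ s ↔ u ^ n = 1 := by
  classical
  have h0 : n ≠ 0 := by rintro rfl; exact hn (dvd_zero 2)
  have hn' : (n : L) ≠ 0 := by
    intro h
    rw [CharP.cast_eq_zero_iff L 2] at h
    exact hn h
  have : NeZero (n : L) := ⟨hn'⟩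
  have : NeZero n := ⟨h0⟩
  obtain ⟨ζ, hζ⟩ := HasEnoughRootsOfUnity.exists_primitiveRoot L n
  exact ⟨nthRootsFinset n (1 : L), hζ.card_nthRootsFinset, fun u => mem_nthRootsFinset (Nat.pos_of_ne_zero h0) 1⟩

lemma exists_fixedFinset (q : ℕ) (hq : 1 < q) :
    ∃ s : Finset L, ∀ u, u ∈ s ↔ u ^ q = u := by
  classical
  have hne : (X ^ q - X : L[X]) ≠ 0 := by
    intro h
    have := congrArg (fun p => coeff p q) h
    simp only [coeff_sub, coeff_X_pow, if_true, coeff_X, coeff_zero] at this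
    rw [if_neg (by omega)] at this
    simp at this
  refine ⟨(X ^ q - X : L[X]).roots.toFinset, fun u => ?_⟩
  rw [Multiset.mem_toFinset, mem_roots hne]
  simp [IsRoot, sub_eq_zero]

theorem scheme_of_good (e h m : ℕ) (he : 1 ≤ e) (hG : Good L e h) (hm : h * m = 2^(2*e) - 1) :
    ∃ n : ℕ, 0 < n ∧
      ∃ R : Fin m → Fin n → Fin n → Prop,
        (∀ i : Fin m, ∀ x : Fin n, ¬ R i x x) ∧
        (∀ x y : Fin n, x ≠ y → ∃! i : Fin m, R i x y) ∧
        (∀ i : Fin m, ∀ x y : Fin n, R i x y ↔ R i y x) ∧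
        (∀ i : Fin m, ∀ x z : Fin n, (∃ y : Fin n, R i x y ∧ R i y z) ↔ ¬ R i x z) ∧
        (∀ i j : Fin m, i ≠ j → ∀ x z : Fin n,
          (∃ y : Fin n, R i x y ∧ R j y z) ↔ x ≠ z) := by
  classical
  set q := 2^(2*e) with hq
  have hq2 : 2 ≤ q := by
    calc 2 = 2 ^ 1 := by norm_num
      _ ≤ 2 ^ (2 * e) := Nat.pow_le_pow_right (by norm_num) (by omega)
  have hh0 : h ≠ 0 := by rintro rfl; omega
  have hm0 : m ≠ 0 := by rintro rfl; omega
  have hq1 : q = (q - 1) + 1 := by omega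
  have hqeven : 2 ∣ q := dvd_pow_self 2 (by omega)
  have hmodd : ¬ 2 ∣ m := by
    intro h2
    have : 2 ∣ q - 1 := by rw [← hm]; exact h2.mul_left h
    omega
  obtain ⟨C, hCc, hC⟩ := exists_rootsFinset_iff (L := L) m hmodd
  obtain ⟨U, hU⟩ := exists_fixedFinset (L := L) q (by omega)
  have hadd : ∀ x y, x ∈ U → y ∈ U → x + y ∈ U := by
    intro x y hx hy
    rw [hU] at *
    rw [hq, add_pow_char_pow, ← hq, hx, hy]
  have hmul : ∀ x y, x ∈ U → y ∈ U → x * y ∈ U := by
    intro x y hx hy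
    rw [hU] at *
    rw [mul_pow, hx, hy]
  have h0U : (0 : L) ∈ U := by rw [hU]; exact zero_pow (by omega)
  have hcol : ∀ w ∈ U, w ≠ 0 → w ^ h ∈ C := by
    intro w hw hw0
    rw [hC, ← pow_mul, hm]
    rw [hU, hq1, pow_succ] at hw
    exact mul_right_cancel₀ hw0 (by rw [one_mul]; exact hw)
  have hroot : ∀ c ∈ C, ∃ a ∈ U, a ≠ 0 ∧ a ^ h = c := by
    intro c hc
    obtain ⟨a, ha⟩ := IsAlgClosed.exists_pow_nat_eq c (Nat.pos_of_ne_zero hh0)
    have h1 : a ^ (q - 1) = 1 := by
      rw [← hm, pow_mul, ha]; exact (hC c).1 hc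
    refine ⟨a, ?_, ?_, ha⟩
    · rw [hU, hq1, pow_succ, h1, one_mul]
    · rintro rfl
      rw [zero_pow (by omega)] at h1
      exact zero_ne_one h1
  have hC0 : ∀ c ∈ C, c ≠ 0 := by
    rintro c hc rfl
    rw [hC, zero_pow hm0] at hc
    exact zero_ne_one hc
  have hcov : ∀ c ∈ C, ∀ d ∈ C, ∀ z ∈ U, z ≠ 0 → ¬ (z ^ h = c ∧ z ^ h = d) →
      ∃ w ∈ U, w ^ h = c ∧ (w + z) ^ h = d := by
    intro c hc d hd z hz hz0 hne
    have hzC := hcol z hz hz0
    have hzh0 : z ^ h ≠ 0 := pow_ne_zero _ hz0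
    have hcz : c / z ^ h ∈ C := by
      rw [hC] at *
      rw [div_pow, hc, hzC, div_one]
    have hdz : d / z ^ h ∈ C := by
      rw [hC] at *
      rw [div_pow, hd, hzC, div_one]
    obtain ⟨a, haU, ha0, ha⟩ := hroot _ hcz
    obtain ⟨b, hbU, hb0, hb⟩ := hroot _ hdz
    rw [hU] at haU hbU
    obtain ⟨x, hx1, hx2, hx3⟩ := hG.cover a b ha0 hb0 haU hbU (by
      rintro ⟨h1, h2⟩
      apply hne
      rw [ha, div_eq_one_iff_eq hzh0] at h1
      rw [hb, div_eq_one_iff_eq hzh0] at h2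
      exact ⟨h1.symm, h2.symm⟩)
    refine ⟨x * z, hmul _ _ ((hU x).2 hx1) hz, ?_, ?_⟩
    · rw [mul_pow, hx2, ha]; field_simp
    · have : x * z + z = (1 + x) * z := by ring
      rw [this, mul_pow, hx3, hb]; field_simp
  have hsf : ∀ c ∈ C, ∀ z ∈ U, z ≠ 0 → z ^ h = c → ∀ w ∈ U, w ^ h = c → (w + z) ^ h = c → False := by
    intro c hc z hz hz0 hzc w hw hwc hwzc
    have hc0 := hC0 c hc
    apply hG.sf (w / z)
    · rw [hU] at hz hw
      rw [div_pow, hz, hw]
    · rw [div_pow, hwc, hzc, div_self hc0]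
    · have : 1 + w / z = (w + z) / z := by field_simp; ring
      rw [this, div_pow, hwzc, hzc, div_self hc0]
  let eC : C ≃ Fin m := C.equivFinOfCardEq hCc
  let eU : U ≃ Fin U.card := U.equivFin
  have hself : ∀ x : L, x + x = 0 := fun x => CharTwo.add_self_eq_zero x
  refine ⟨U.card, Finset.card_pos.2 ⟨0, h0U⟩,
    fun i x y => ((eU.symm x : L) + (eU.symm y : L)) ^ h = (eC.symm i : L), ?_, ?_, ?_, ?_, ?_⟩
  · intro i x
    beta_reduce
    rw [hself, zero_pow hh0]
    exact fun h1 => hC0 _ (eC.symm i).2 h1.symm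
  · intro x y hxy
    have hw0 : (eU.symm x : L) + (eU.symm y : L) ≠ 0 := by
      intro h1
      have h2 : (eU.symm x : L) = (eU.symm y : L) := CharTwo.add_eq_zero.1 h1
      exact hxy (eU.symm.injective (Subtype.ext h2))
    have hwU := hadd _ _ (eU.symm x).2 (eU.symm y).2
    have hwC := hcol _ hwU hw0
    refine ⟨eC ⟨_, hwC⟩, ?_, ?_⟩
    · simp
    · intro i hi
      apply eC.symm.injective
      rw [Equiv.symm_apply_apply]
      exact Subtype.ext hi.symm
  · intro i x y
    beta_reduce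
    rw [add_comm]
  · intro i x z
    constructor
    · rintro ⟨y, hy1, hy2⟩ hxz
      have hz0 : (eU.symm x : L) + (eU.symm z : L) ≠ 0 := by
        intro h1
        rw [h1, zero_pow hh0] at hxz
        exact hC0 _ (eC.symm i).2 hxz.symm
      refine hsf _ (eC.symm i).2 _ (hadd _ _ (eU.symm x).2 (eU.symm z).2) hz0 hxz _
        (hadd _ _ (eU.symm x).2 (eU.symm y).2) hy1 ?_
      have : (eU.symm x : L) + (eU.symm y : L) + ((eU.symm x : L) + (eU.symm z : L)) =
        ((eU.symm x : L) + (eU.symm x : L)) + ((eU.symm y : L) + (eU.symm z : L)) := by ring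
      rw [this, hself, zero_add]
      exact hy2
    · intro hxz
      by_cases hx : x = z
      · subst hx
        obtain ⟨a, haU, ha0, ha⟩ := hroot _ (eC.symm i).2
        have hyU := hadd _ _ (eU.symm x).2 haU
        refine ⟨eU ⟨_, hyU⟩, ?_, ?_⟩
        · beta_reduce
          rw [Equiv.symm_apply_apply]
          have : (eU.symm x : L) + ((eU.symm x : L) + a) = ((eU.symm x : L) + (eU.symm x : L)) + a := by ring
          rw [this, hself, zero_add, ha]
        · beta_reduce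
          rw [Equiv.symm_apply_apply]
          have : ((eU.symm x : L) + a) + (eU.symm x : L) = ((eU.symm x : L) + (eU.symm x : L)) + a := by ring
          rw [this, hself, zero_add, ha]
      · have hz0 : (eU.symm x : L) + (eU.symm z : L) ≠ 0 := by
          intro h1
          have h2 : (eU.symm x : L) = (eU.symm z : L) := CharTwo.add_eq_zero.1 h1
          exact hx (eU.symm.injective (Subtype.ext h2))
        obtain ⟨w, hwU, hw1, hw2⟩ := hcov _ (eC.symm i).2 _ (eC.symm i).2 _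
          (hadd _ _ (eU.symm x).2 (eU.symm z).2) hz0 (fun h1 => hxz h1.1)
        have hyU := hadd _ _ (eU.symm x).2 hwU
        refine ⟨eU ⟨_, hyU⟩, ?_, ?_⟩
        · beta_reduce
          rw [Equiv.symm_apply_apply]
          have : (eU.symm x : L) + ((eU.symm x : L) + w) = ((eU.symm x : L) + (eU.symm x : L)) + w := by ring
          rw [this, hself, zero_add, hw1]
        · beta_reduce
          rw [Equiv.symm_apply_apply]
          have : ((eU.symm x : L) + w) + (eU.symm z : L) = w + ((eU.symm x : L) + (eU.symm z : L)) := by ring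
          rw [this, hw2]
  · intro i j hij x z
    constructor
    · rintro ⟨y, hy1, hy2⟩ rfl
      apply hij
      apply eC.symm.injective
      apply Subtype.ext
      rw [← hy1, ← hy2, add_comm]
    · intro hx
      have hz0 : (eU.symm x : L) + (eU.symm z : L) ≠ 0 := by
        intro h1
        have h2 : (eU.symm x : L) = (eU.symm z : L) := CharTwo.add_eq_zero.1 h1
        exact hx (eU.symm.injective (Subtype.ext h2))
      obtain ⟨w, hwU, hw1, hw2⟩ := hcov _ (eC.symm i).2 _ (eC.symm j).2 _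
        (hadd _ _ (eU.symm x).2 (eU.symm z).2) hz0 (by
          rintro ⟨h1, h2⟩
          apply hij
          apply eC.symm.injective
          apply Subtype.ext
          rw [← h1, ← h2])
      have hyU := hadd _ _ (eU.symm x).2 hwU
      refine ⟨eU ⟨_, hyU⟩, ?_, ?_⟩
      · beta_reduce
        rw [Equiv.symm_apply_apply]
        have : (eU.symm x : L) + ((eU.symm x : L) + w) = ((eU.symm x : L) + (eU.symm x : L)) + w := by ring
        rw [this, hself, zero_add, hw1]
      · beta_reduce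
        rw [Equiv.symm_apply_apply]
        have : ((eU.symm x : L) + w) + (eU.symm z : L) = w + ((eU.symm x : L) + (eU.symm z : L)) := by ring
        rw [this, hw2]

end Final

/-- Ramsey schemes exist for infinitely many numbers of colors. -/
theorem main :
    ∀ N : ℕ, ∃ m : ℕ, N < m ∧ ∃ n : ℕ, 0 < n ∧
      ∃ R : Fin m → Fin n → Fin n → Prop,
        (∀ i : Fin m, ∀ x : Fin n, ¬ R i x x) ∧
        (∀ x y : Fin n, x ≠ y → ∃! i : Fin m, R i x y) ∧
        (∀ i : Fin m, ∀ x y : Fin n, R i x y ↔ R i y x) ∧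
        (∀ i : Fin m, ∀ x z : Fin n, (∃ y : Fin n, R i x y ∧ R i y z) ↔ ¬ R i x z) ∧
        (∀ i j : Fin m, i ≠ j → ∀ x z : Fin n,
          (∃ y : Fin n, R i x y ∧ R j y z) ↔ x ≠ z) := by
  intro N
  obtain ⟨h, m, hG, hm, hN⟩ := chain (L := AlgebraicClosure (ZMod 2)) N
  exact ⟨m, hN, scheme_of_good (2 * 4^N) h m (by have := Nat.one_le_pow N 4 (by norm_num); omega) hG hm⟩

end Pool.Agent.Helper43.Ramsey
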