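import Mathlib

/-! Abstract combinatorics of braid moves on words indexed by `ℤ`. -/

namespace Pool.Helper43.Braid

variable {A : Type*}

/-- flip the factor at positions `p, p+1, p+2`. -/
def flip (W : ℤ → A) (p : ℤ) : ℤ → A := fun i =>
  if i = p then W (p + 1) else if i = p + 1 then W p else if i = p + 2 then W (p + 1) else W i

/-- the factor at positions `p, p+1, p+2` is a braid. -/
def Can (E : A → A → Prop) (W : ℤ → A) (p : ℤ) : Prop := E (W p) (W (p + 1)) ∧ W (p + 2) = W p

/-- performing the moves in the list one after the other leads from `W` to `W'`. -/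
def Run (E : A → A → Prop) : (ℤ → A) → List ℤ → (ℤ → A) → Prop
  | W, [], W' => W = W'
  | W, p :: l, W' => Can E W p ∧ Run E (flip W p) l W'

def Reach (E : A → A → Prop) (W W' : ℤ → A) : Prop := ∃ l, Run E W l W'

variable {E : A → A → Prop}

theorem flip_0 (W : ℤ → A) (p : ℤ) : flip W p p = W (p + 1) := by simp [flip]
theorem flip_1 (W : ℤ → A) (p : ℤ) : flip W p (p + 1) = W p := by simp [flip]
theorem flip_2 (W : ℤ → A) (p : ℤ) : flip W p (p + 2) = W (p + 1) := by
  simp [flip]
theorem flip_of_lt (W : ℤ → A) {p i : ℤ} (h : i < p) : flip W p i = W i := by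
  unfold flip
  rw [if_neg (by omega), if_neg (by omega), if_neg (by omega)]
theorem flip_of_gt (W : ℤ → A) {p i : ℤ} (h : p + 2 < i) : flip W p i = W i := by
  unfold flip
  rw [if_neg (by omega), if_neg (by omega), if_neg (by omega)]

theorem flip_flip {W : ℤ → A} {p : ℤ} (h : Can E W p) : flip (flip W p) p = W := by
  funext i
  unfold flip
  obtain ⟨_, h2⟩ := h
  by_cases h0 : i = p
  · subst h0; simp
  by_cases h1 : i = p + 1
  · subst h1; simp
  by_cases h3 : i = p + 2
  · subst h3; simp [h2]
  · simp [h0, h1, h3]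

theorem can_flip (hE : ∀ a b, E a b → E b a) {W : ℤ → A} {p : ℤ} (h : Can E W p) :
    Can E (flip W p) p := by
  refine ⟨?_, ?_⟩
  · rw [flip_0, flip_1]; exact hE _ _ h.1
  · rw [flip_0, flip_2]

theorem run_append {W W' : ℤ → A} {l l' : List ℤ} :
    Run E W (l ++ l') W' ↔ ∃ V, Run E W l V ∧ Run E V l' W' := by
  induction l generalizing W with
  | nil => simp [Run]
  | cons p l ih =>
    simp only [List.cons_append, Run, ih]
    constructor
    · rintro ⟨h, V, h1, h2⟩; exact ⟨V, ⟨h, h1⟩, h2⟩
    · rintro ⟨V, ⟨h, h1⟩, h2⟩; exact ⟨h, V, h1, h2⟩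

theorem Reach.refl (W : ℤ → A) : Reach E W W := ⟨[], rfl⟩

theorem Reach.trans {U V W : ℤ → A} (h : Reach E U V) (h' : Reach E V W) : Reach E U W := by
  obtain ⟨l, hl⟩ := h
  obtain ⟨l', hl'⟩ := h'
  exact ⟨l ++ l', run_append.2 ⟨V, hl, hl'⟩⟩

theorem Reach.step {W : ℤ → A} {p : ℤ} (h : Can E W p) : Reach E W (flip W p) := ⟨[p], h, rfl⟩

theorem Reach.symm (hE : ∀ a b, E a b → E b a) {U V : ℤ → A} (h : Reach E U V) : Reach E V U := by
  obtain ⟨l, hl⟩ := h
  induction l generalizing U with
  | nil => cases hl; exact Reach.refl _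
  | cons p l ih =>
    obtain ⟨h1, h2⟩ := hl
    refine (ih h2).trans ?_
    have := Reach.step (can_flip hE h1)
    rwa [flip_flip h1] at this

/-- only performing the moves to the right of the threshold `m`. -/
theorem filter_right {m : ℤ} {l : List ℤ} : ∀ {U U' U₂ : ℤ → A}, Run E U l U' →
    (∀ r ∈ l, r + 2 < m ∨ m ≤ r) → (∀ i, m ≤ i → U₂ i = U i) →
    ∃ V, Reach E U₂ V ∧ (∀ i, m ≤ i → V i = U' i) ∧ (∀ i, i < m → V i = U₂ i) := by
  induction l with
  | nil =>
    intro U U' U₂ h _ hag
    cases h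
    exact ⟨U₂, Reach.refl _, hag, fun _ _ => rfl⟩
  | cons p l ih =>
    intro U U' U₂ h hl hag
    obtain ⟨h1, h2⟩ := h
    rcases hl p (by simp) with hp | hp
    · exact ih h2 (fun r hr => hl r (by simp [hr])) (fun i hi => by
        rw [hag i hi, flip_of_gt _ (by omega)])
    · have hc : Can E U₂ p := by
        unfold Can
        rw [hag p hp, hag (p+1) (by omega), hag (p+2) (by omega)]; exact h1
      obtain ⟨V, hV1, hV2, hV3⟩ := ih (U₂ := flip U₂ p) h2 (fun r hr => hl r (by simp [hr]))
        (fun i hi => by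
          unfold flip
          rw [hag p hp, hag (p+1) (by omega), hag i hi])
      exact ⟨V, (Reach.step hc).trans hV1, hV2, fun i hi => by
        rw [hV3 i hi, flip_of_lt _ (by omega)]⟩

/-- only performing the moves to the left of the threshold `m`. -/
theorem filter_left {m : ℤ} {l : List ℤ} : ∀ {U U' U₂ : ℤ → A}, Run E U l U' →
    (∀ r ∈ l, r + 2 < m ∨ m ≤ r) → (∀ i, i < m → U₂ i = U i) →
    ∃ V, Reach E U₂ V ∧ (∀ i, i < m → V i = U' i) ∧ (∀ i, m ≤ i → V i = U₂ i) := by
  induction l with
  | nil =>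
    intro U U' U₂ h _ hag
    cases h
    exact ⟨U₂, Reach.refl _, hag, fun _ _ => rfl⟩
  | cons p l ih =>
    intro U U' U₂ h hl hag
    obtain ⟨h1, h2⟩ := h
    rcases hl p (by simp) with hp | hp
    · have hc : Can E U₂ p := by
        unfold Can
        rw [hag p (by omega), hag (p+1) (by omega), hag (p+2) (by omega)]; exact h1
      obtain ⟨V, hV1, hV2, hV3⟩ := ih (U₂ := flip U₂ p) h2 (fun r hr => hl r (by simp [hr]))
        (fun i hi => by
          unfold flip
          rw [hag p (by omega), hag (p+1) (by omega), hag i hi])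
      exact ⟨V, (Reach.step hc).trans hV1, hV2, fun i hi => by
        rw [hV3 i hi, flip_of_gt _ (by omega)]⟩
    · exact ih h2 (fun r hr => hl r (by simp [hr])) (fun i hi => by
        rw [hag i hi, flip_of_lt _ (by omega)])

/-- positions outside the moved factors keep their letters. -/
theorem run_const {l : List ℤ} {i : ℤ} : ∀ {U U' : ℤ → A}, Run E U l U' →
    (∀ r ∈ l, r + 2 < i ∨ i < r) → U' i = U i := by
  induction l with
  | nil => intro U U' h _; cases h; rfl
  | cons p l ih =>
    intro U U' h hl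
    obtain ⟨h1, h2⟩ := h
    rw [ih h2 (fun r hr => hl r (by simp [hr]))]
    rcases hl p (by simp) with hp | hp
    · exact flip_of_gt _ hp
    · exact flip_of_lt _ hp

/-- Standing assumptions on the class of the word `α`. -/
structure Good (E : A → A → Prop) (α : ℤ → A) : Prop where
  symm : ∀ a b, E a b → E b a
  ne : ∀ a b, E a b → a ≠ b
  tri : ∀ a b c, E a b → E b c → ¬ E a c
  red : ∀ W, Reach E α W → ∀ p, E (W p) (W (p + 1)) → W (p + 2) = W p → W (p + 3) ≠ W (p + 1)

/-- Key lemma: two neighbouring factors are never both braids in the class. -/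
theorem no_adj_aux {α : ℤ → A} (H : Good E α) : ∀ (n : ℕ) (W W' : ℤ → A) (l : List ℤ) (q q' : ℤ),
    l.length = n → Reach E α W → Run E W (q :: l) W' → Can E W' q' →
    (q' = q + 1 ∨ q = q' + 1) → False := by
  intro n
  induction n using Nat.strong_induction_on with
  | _ n ih =>
  intro W W' l q q' hn hW hrun hcan hqq
  -- no move of `l` is near
  have key : ∀ r ∈ l, ¬ (r = q ∨ r = q + 1 ∨ q = r + 1 ∨ r = q' + 1 ∨ q' = r + 1) := by
    intro r hr hbad
    obtain ⟨l1, l2, rfl⟩ := List.append_of_mem hr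
    have hrun' : Run E W ((q :: l1) ++ (r :: l2)) W' := hrun
    obtain ⟨V, hV1, hV2⟩ := run_append.1 hrun'
    have hVr : Reach E α V := hW.trans ⟨_, hV1⟩
    have hlen : l1.length + (l2.length + 1) = n := by simpa using hn
    rcases hbad with h | h | h | h | h
    · subst h
      exact ih l2.length (by omega) V W' l2 r q' rfl hVr hV2 hcan hqq
    · exact ih l1.length (by omega) W V l1 q r rfl hW hV1 hV2.1 (Or.inl h)
    · exact ih l1.length (by omega) W V l1 q r rfl hW hV1 hV2.1 (Or.inr h)
    · exact ih l2.length (by omega) V W' l2 r q' rfl hVr hV2 hcan (Or.inr h)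
    · exact ih l2.length (by omega) V W' l2 r q' rfl hVr hV2 hcan (Or.inl h)
  obtain ⟨hc, hrun2⟩ := hrun
  rcases hqq with h | h
  · subst h
    -- moves of `l` are `≤ q-2` or `≥ q+3`
    have hl : ∀ r ∈ l, r + 2 < q + 1 ∨ q + 3 ≤ r := by
      intro r hr
      have := key r hr
      push Not at this
      omega
    obtain ⟨V, hV1, hV2, hV3⟩ := filter_right (m := q + 1) (U₂ := flip W q) hrun2
      (fun r hr => by have := hl r hr; omega) (fun _ _ => rfl)
    have e1 : W' (q + 1) = W q := by
      rw [run_const hrun2 (fun r hr => by have := hl r hr; omega), flip_1]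
    have e2 : W' (q + 2) = W (q + 1) := by
      rw [run_const hrun2 (fun r hr => by have := hl r hr; omega), flip_2]
    have e3 : W' (q + 3) = W q := by
      have := hcan.2
      rw [show q + 1 + 2 = q + 3 by ring] at this
      rw [this, e1]
    have hVr : Reach E α V := (hW.trans (Reach.step hc)).trans hV1
    refine H.red V hVr q ?_ ?_ ?_
    · rw [hV3 q (by omega), flip_0, hV2 (q+1) (by omega), e1]
      exact H.symm _ _ hc.1
    · rw [hV2 (q+2) (by omega), e2, hV3 q (by omega), flip_0]
    · rw [hV2 (q+3) (by omega), e3, hV2 (q+1) (by omega), e1]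
  · subst h
    -- now the first move is `q'+1`, the second `q'`
    have hl : ∀ r ∈ l, r + 2 < q' + 1 ∨ q' + 3 ≤ r := by
      intro r hr
      have := key r hr
      push Not at this
      omega
    have e1 : W' (q' + 1) = W (q' + 2) := by
      rw [run_const hrun2 (fun r hr => by have := hl r hr; omega)]
      rw [flip_0]; congr 1; ring
    have e2 : W' (q' + 2) = W (q' + 1) := by
      rw [run_const hrun2 (fun r hr => by have := hl r hr; omega)]
      have := flip_1 W (q' + 1)
      rw [show q' + 1 + 1 = q' + 2 by ring] at this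
      exact this
    obtain ⟨V, hV1, hV2, hV3⟩ := filter_left (m := q' + 1) (U₂ := flip W (q' + 1)) hrun2
      (fun r hr => by have := hl r hr; omega) (fun _ _ => rfl)
    have e0 : W' q' = W (q' + 1) := by rw [← hcan.2, e2]
    have hVr : Reach E α V := (hW.trans (Reach.step hc)).trans hV1
    have f0 := flip_0 W (q' + 1)
    have f1 := flip_1 W (q' + 1)
    have f2 := flip_2 W (q' + 1)
    rw [show q' + 1 + 1 = q' + 2 by ring] at f0 f1 f2
    rw [show q' + 1 + 2 = q' + 3 by ring] at f2
    have hc1 := hc.1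
    rw [show q' + 1 + 1 = q' + 2 by ring] at hc1
    refine H.red V hVr q' ?_ ?_ ?_
    · rw [hV2 q' (by omega), e0, hV3 (q'+1) (by omega), f0]
      exact hc1
    · rw [hV2 q' (by omega), e0, hV3 (q'+2) (by omega), f1]
    · rw [hV3 (q'+3) (by omega), f2, hV3 (q'+1) (by omega), f0]

/-- the positions at which some word of the class has a braid. -/
def Ctr (E : A → A → Prop) (α : ℤ → A) : Set ℤ := {p | ∃ W, Reach E α W ∧ Can E W p}

theorem no_adj {α : ℤ → A} (H : Good E α) {p : ℤ} (hp : p ∈ Ctr E α) (hp' : p + 1 ∈ Ctr E α) :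
    False := by
  obtain ⟨U, hU, hUc⟩ := hp
  obtain ⟨V, hV, hVc⟩ := hp'
  -- from `flip U p` back to `U` and then to `V`
  have h1 : Reach E (flip U p) V :=
    ((Reach.step hUc).symm H.symm).trans ((hU.symm H.symm).trans hV)
  obtain ⟨l, hl⟩ := h1
  exact no_adj_aux H l.length U V l p (p+1) rfl hU ⟨hUc, hl⟩ hVc (Or.inl rfl)

end Pool.Helper43.Braid
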