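import Pool.Agent.Helper43.BraidA

namespace Pool.Helper43.Braid

variable {A : Type*} {E : A → A → Prop} {α : ℤ → A}

/-- Right invariant at the factor `p` with letters `s, t`. -/
def RI (E : A → A → Prop) (α : ℤ → A) (s t : A) (p : ℤ) (W : ℤ → A) : Prop :=
  ∃ a c, ((a = s ∧ c = t) ∨ (a = t ∧ c = s)) ∧ W (p + 1) = a ∧
    (W (p + 2) = c ∨ (p + 2 ∈ Ctr E α ∧ W (p + 3) = c ∧ E (W (p + 2)) c ∧ W (p + 2) ≠ a))

/-- Left invariant at the factor `p` with letters `s, t`. -/
def LI (E : A → A → Prop) (α : ℤ → A) (s t : A) (p : ℤ) (W : ℤ → A) : Prop :=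
  ∃ a c, ((a = s ∧ c = t) ∨ (a = t ∧ c = s)) ∧ W (p + 1) = a ∧
    (W p = c ∨ (p - 2 ∈ Ctr E α ∧ W (p - 1) = c ∧ E (W p) c ∧ W p ≠ a))

theorem RI_step (H : Good E α) {s t : A} (hst : E s t) {p q : ℤ} (hp : p ∈ Ctr E α)
    {W : ℤ → A} (hW : Reach E α W) (h : RI E α s t p W) (hq : Can E W q) :
    RI E α s t p (flip W q) := by
  have hqC : q ∈ Ctr E α := ⟨W, hW, hq⟩
  obtain ⟨a, c, hac, ha, h⟩ := h
  have hEac : E a c := by
    rcases hac with ⟨rfl, rfl⟩ | ⟨rfl, rfl⟩
    · exact hst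
    · exact H.symm _ _ hst
  rcases lt_or_ge q (p - 1) with h1 | h1
  · -- far left
    refine ⟨a, c, hac, ?_, ?_⟩
    · rw [flip_of_gt _ (by omega), ha]
    · rwa [flip_of_gt _ (by omega), flip_of_gt _ (by omega)]
  by_cases h2 : q = p - 1
  · subst h2
    exact (no_adj H hqC (by simpa using hp)).elim
  by_cases h3 : q = p
  · subst h3
    rcases h with h | ⟨_, h4, h5, h6⟩
    · refine ⟨c, a, by tauto, ?_, Or.inl ?_⟩
      · rw [flip_1, ← hq.2, h]
      · rw [flip_2, ha]
    · exfalso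
      have h7 := hq.1
      rw [← hq.2, ha] at h7
      exact H.tri _ _ _ h7 hEac h5
  by_cases h4 : q = p + 1
  · subst h4
    exact (no_adj H hp hqC).elim
  by_cases h5 : q = p + 2
  · subst h5
    have g0 : flip W (p + 2) (p + 1) = W (p + 1) := flip_of_lt _ (by omega)
    have g1 : flip W (p + 2) (p + 2) = W (p + 3) := by
      rw [flip_0]; congr 1; ring
    have g2 : flip W (p + 2) (p + 3) = W (p + 2) := by
      have := flip_1 W (p + 2)
      rwa [show p + 2 + 1 = p + 3 by ring] at this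
    have c1 := hq.1
    have c2 := hq.2
    rw [show p + 2 + 1 = p + 3 by ring] at c1
    rw [show p + 2 + 2 = p + 4 by ring] at c2
    rcases h with h | ⟨_, h4, h5, h6⟩
    · refine ⟨a, c, hac, by rw [g0, ha], Or.inr ⟨hqC, by rw [g2, h], ?_, ?_⟩⟩
      · rw [g1, ← h]; exact H.symm _ _ c1
      · rw [g1]
        intro h6
        refine H.red W hW (p + 1) ?_ ?_ ?_
        · rw [show p + 1 + 1 = p + 2 by ring, ha, h]; exact hEac
        · rw [show p + 1 + 2 = p + 3 by ring, h6, ha]
        · rw [show p + 1 + 3 = p + 4 by ring, show p + 1 + 1 = p + 2 by ring, c2]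
    · exact ⟨a, c, hac, by rw [g0, ha], Or.inl (by rw [g1, h4])⟩
  by_cases h6 : q = p + 3
  · subst h6
    rcases h with h | ⟨h4, _⟩
    · refine ⟨a, c, hac, ?_, Or.inl ?_⟩
      · rw [flip_of_lt _ (by omega), ha]
      · rw [flip_of_lt _ (by omega), h]
    · exact (no_adj H h4 (by rwa [show p + 2 + 1 = p + 3 by ring])).elim
  · refine ⟨a, c, hac, ?_, ?_⟩
    · rw [flip_of_lt _ (by omega), ha]
    · rwa [flip_of_lt _ (by omega), flip_of_lt _ (by omega)]

theorem LI_step (H : Good E α) {s t : A} (hst : E s t) {p q : ℤ} (hp : p ∈ Ctr E α)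
    {W : ℤ → A} (hW : Reach E α W) (h : LI E α s t p W) (hq : Can E W q) :
    LI E α s t p (flip W q) := by
  have hqC : q ∈ Ctr E α := ⟨W, hW, hq⟩
  obtain ⟨a, c, hac, ha, h⟩ := h
  have hEac : E a c := by
    rcases hac with ⟨rfl, rfl⟩ | ⟨rfl, rfl⟩
    · exact hst
    · exact H.symm _ _ hst
  rcases lt_or_ge (p + 1) q with h1 | h1
  · refine ⟨a, c, hac, ?_, ?_⟩
    · rw [flip_of_lt _ (by omega), ha]
    · rwa [flip_of_lt _ (by omega), flip_of_lt _ (by omega)]
  by_cases h4 : q = p + 1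
  · subst h4
    exact (no_adj H hp hqC).elim
  by_cases h3 : q = p
  · subst h3
    rcases h with h | ⟨_, h4, h5, h6⟩
    · refine ⟨c, a, by tauto, ?_, Or.inl ?_⟩
      · rw [flip_1, h]
      · rw [flip_0, ha]
    · exfalso
      have h7 := hq.1
      rw [ha] at h7
      exact H.tri _ _ _ h7 hEac h5
  by_cases h2 : q = p - 1
  · subst h2
    exact (no_adj H hqC (by simpa using hp)).elim
  by_cases h5 : q = p - 2
  · subst h5
    have g0 : flip W (p - 2) (p + 1) = W (p + 1) := flip_of_gt _ (by omega)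
    have g1 : flip W (p - 2) p = W (p - 1) := by
      have := flip_2 W (p - 2)
      rwa [show p - 2 + 2 = p by ring, show p - 2 + 1 = p - 1 by ring] at this
    have g2 : flip W (p - 2) (p - 1) = W (p - 2) := by
      have := flip_1 W (p - 2)
      rwa [show p - 2 + 1 = p - 1 by ring] at this
    have c1 := hq.1
    have c2 := hq.2
    rw [show p - 2 + 1 = p - 1 by ring] at c1
    rw [show p - 2 + 2 = p by ring] at c2
    rcases h with h | ⟨_, h4, h5, h6⟩
    · refine ⟨a, c, hac, by rw [g0, ha], Or.inr ⟨hqC, by rw [g2, ← c2, h], ?_, ?_⟩⟩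
      · rw [g1, ← h, c2]; exact H.symm _ _ c1
      · rw [g1]
        intro h6
        refine H.red W hW (p - 2) ?_ ?_ ?_
        · rw [show p - 2 + 1 = p - 1 by ring]; exact c1
        · rw [show p - 2 + 2 = p by ring]; exact c2
        · rw [show p - 2 + 3 = p + 1 by ring, show p - 2 + 1 = p - 1 by ring, ha, h6]
    · exact ⟨a, c, hac, by rw [g0, ha], Or.inl (by rw [g1, h4])⟩
  by_cases h6 : q = p - 3
  · subst h6
    rcases h with h | ⟨h4, _⟩
    · refine ⟨a, c, hac, ?_, Or.inl ?_⟩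
      · rw [flip_of_gt _ (by omega), ha]
      · rw [flip_of_gt _ (by omega), h]
    · exact (no_adj H hqC (by rwa [show p - 3 + 1 = p - 2 by ring])).elim
  · refine ⟨a, c, hac, ?_, ?_⟩
    · rw [flip_of_gt _ (by omega), ha]
    · rwa [flip_of_gt _ (by omega), flip_of_gt _ (by omega)]

/-- the data at all centres -/
structure Data (E : A → A → Prop) (α : ℤ → A) (s t : ℤ → A) : Prop where
  edge : ∀ p ∈ Ctr E α, E (s p) (t p)
  r : ∀ p ∈ Ctr E α, ∀ W, Reach E α W → RI E α (s p) (t p) p W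
  l : ∀ p ∈ Ctr E α, ∀ W, Reach E α W → LI E α (s p) (t p) p W

theorem exists_data (H : Good E α) : ∃ s t : ℤ → A, Data E α s t := by
  classical
  have key : ∀ p : ℤ, ∃ st : A × A, p ∈ Ctr E α → (E st.1 st.2 ∧
      (∀ W, Reach E α W → RI E α st.1 st.2 p W) ∧ (∀ W, Reach E α W → LI E α st.1 st.2 p W)) := by
    intro p
    by_cases hp : p ∈ Ctr E α
    · obtain ⟨U, hU, hc⟩ := id hp
      refine ⟨(U p, U (p + 1)), fun _ => ⟨hc.1, ?_, ?_⟩⟩
      · intro W hW
        obtain ⟨l, hl⟩ := (hU.symm H.symm).trans hW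
        have h0 : RI E α (U p) (U (p + 1)) p U := ⟨U (p+1), U p, Or.inr ⟨rfl, rfl⟩, rfl, Or.inl hc.2⟩
        have : ∀ (l : List ℤ) (V : ℤ → A), Reach E α V → RI E α (U p) (U (p + 1)) p V →
            Run E V l W → RI E α (U p) (U (p + 1)) p W := by
          intro l
          induction l with
          | nil => intro V _ h1 h2; cases h2; exact h1
          | cons q l ih =>
            intro V hV h1 h2
            exact ih _ (hV.trans (Reach.step h2.1)) (RI_step H hc.1 hp hV h1 h2.1) h2.2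
        exact this l U hU h0 hl
      · intro W hW
        obtain ⟨l, hl⟩ := (hU.symm H.symm).trans hW
        have h0 : LI E α (U p) (U (p + 1)) p U := ⟨U (p+1), U p, Or.inr ⟨rfl, rfl⟩, rfl, Or.inl rfl⟩
        have : ∀ (l : List ℤ) (V : ℤ → A), Reach E α V → LI E α (U p) (U (p + 1)) p V →
            Run E V l W → LI E α (U p) (U (p + 1)) p W := by
          intro l
          induction l with
          | nil => intro V _ h1 h2; cases h2; exact h1
          | cons q l ih =>
            intro V hV h1 h2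
            exact ih _ (hV.trans (Reach.step h2.1)) (LI_step H hc.1 hp hV h1 h2.1) h2.2
        exact this l U hU h0 hl
    · exact ⟨(α 0, α 0), fun h => (hp h).elim⟩
  choose st hst using key
  exact ⟨fun p => (st p).1, fun p => (st p).2, fun p hp => (hst p hp).1,
    fun p hp => (hst p hp).2.1, fun p hp => (hst p hp).2.2⟩

variable {s t : ℤ → A}

theorem letter_mem (hD : Data E α s t) {p : ℤ} (hp : p ∈ Ctr E α) {W : ℤ → A}
    (hW : Reach E α W) : W (p + 1) = s p ∨ W (p + 1) = t p := by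
  obtain ⟨a, c, hac, ha, _⟩ := hD.r p hp W hW
  rcases hac with ⟨rfl, rfl⟩ | ⟨rfl, rfl⟩ <;> simp [ha]

theorem edge_of (H : Good E α) (hD : Data E α s t) {p : ℤ} (hp : p ∈ Ctr E α) {a c : A}
    (hac : (a = s p ∧ c = t p) ∨ (a = t p ∧ c = s p)) : E a c := by
  rcases hac with ⟨rfl, rfl⟩ | ⟨rfl, rfl⟩
  · exact hD.edge p hp
  · exact H.symm _ _ (hD.edge p hp)

theorem adj_ne (H : Good E α) (hD : Data E α s t) {p : ℤ} (hp : p ∈ Ctr E α) {W : ℤ → A}
    (hW : Reach E α W) : W (p + 1) ≠ W (p + 3) := by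
  obtain ⟨a, c, hac, ha, h⟩ := hD.r p hp W hW
  have hE : E a c := edge_of H hD hp hac
  intro heq
  rcases h with h | ⟨_, h2, _, _⟩
  · refine no_adj H hp ⟨W, hW, ?_, ?_⟩
    · rw [show p + 1 + 1 = p + 2 by ring, ha, h]; exact hE
    · rw [show p + 1 + 2 = p + 3 by ring]; exact heq.symm
  · rw [ha, h2] at heq
    exact H.ne _ _ hE heq

/-- a target assignment of letters to the centres -/
def Target (E : A → A → Prop) (α : ℤ → A) (s t : ℤ → A) (x : ℤ → A) : Prop :=
  ∀ p ∈ Ctr E α, (x p = s p ∨ x p = t p) ∧ (p + 2 ∈ Ctr E α → x p ≠ x (p + 2))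

theorem target_of_reach (H : Good E α) (hD : Data E α s t) {W : ℤ → A} (hW : Reach E α W) :
    Target E α s t (fun p => W (p + 1)) := by
  intro p hp
  refine ⟨letter_mem hD hp hW, fun _ => ?_⟩
  have := adj_ne H hD hp hW
  show W (p + 1) ≠ W (p + 2 + 1)
  rwa [show p + 2 + 1 = p + 3 by ring]

/-- Main lemma: one can always make a move towards the target. -/
theorem exists_move (H : Good E α) (hD : Data E α s t) (hfin : (Ctr E α).Finite)
    {x : ℤ → A} (hx : Target E α s t x) {W : ℤ → A} (hW : Reach E α W)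
    (hne : ∃ p ∈ Ctr E α, W (p + 1) ≠ x p) :
    ∃ p ∈ Ctr E α, W (p + 1) ≠ x p ∧ Can E W p ∧ W p = x p := by
  classical
  set D : Set ℤ := {p | p ∈ Ctr E α ∧ W (p + 1) ≠ x p} with hDdef
  have hDfin : D.Finite := hfin.subset (fun p hp => hp.1)
  have hDne : D.Nonempty := by obtain ⟨p, hp, hp'⟩ := hne; exact ⟨p, hp, hp'⟩
  -- the partner letter
  have part : ∀ p ∈ D, ∀ a c, ((a = s p ∧ c = t p) ∨ (a = t p ∧ c = s p)) → W (p + 1) = a →
      x p = c := by
    intro p hp a c hac ha
    rcases (hx p hp.1).1 with h | h <;> rcases hac with ⟨h1, h2⟩ | ⟨h1, h2⟩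
    · exact absurd (by rw [ha, h1, h]) hp.2
    · rw [h, h2]
    · rw [h, h2]
    · exact absurd (by rw [ha, h1, h]) hp.2
  have hblock : ∀ p ∈ D, W (p + 2) = x p ∨ p + 2 ∈ D := by
    intro p hp
    obtain ⟨a, c, hac, ha, h⟩ := hD.r p hp.1 W hW
    have hc := part p hp a c hac ha
    rcases h with h | ⟨h1, h2, _, _⟩
    · left; rw [h, hc]
    · right
      refine ⟨h1, ?_⟩
      rw [show p + 2 + 1 = p + 3 by ring, h2, ← hc]
      exact (hx p hp.1).2 h1
  obtain ⟨p0, hp0, hmax⟩ := hDfin.exists_maximalFor id D hDne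
  have hopen0 : W (p0 + 2) = x p0 := by
    rcases hblock p0 hp0 with h | h
    · exact h
    · have := hmax h (show p0 ≤ p0 + 2 by omega)
      simp at this
  set D' : Set ℤ := {p | p ∈ D ∧ W (p + 2) = x p} with hD'def
  have hD'fin : D'.Finite := hDfin.subset (fun p hp => hp.1)
  obtain ⟨p1, hp1, hmin⟩ := hD'fin.exists_minimalFor id D' ⟨p0, hp0, hopen0⟩
  obtain ⟨⟨hp1C, hp1x⟩, hp1o⟩ := hp1
  obtain ⟨a, c, hac, ha, h⟩ := hD.l p1 hp1C W hW
  have hE : E a c := edge_of H hD hp1C hac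
  have hc := part p1 ⟨hp1C, hp1x⟩ a c hac ha
  rcases h with h | ⟨h1, h2, h3, h4⟩
  · refine ⟨p1, hp1C, hp1x, ⟨?_, ?_⟩, ?_⟩
    · rw [h, ha]; exact H.symm _ _ hE
    · rw [hp1o, h, hc]
    · rw [h, hc]
  · exfalso
    have hmem : p1 - 2 ∈ D := by
      refine ⟨h1, ?_⟩
      rw [show p1 - 2 + 1 = p1 - 1 by ring, h2, ← hc]
      have := (hx (p1 - 2) h1).2 (by simpa using hp1C)
      rw [show p1 - 2 + 2 = p1 by ring] at this
      exact this.symm
    obtain ⟨a', c', hac', ha', h'⟩ := hD.r (p1 - 2) h1 W hW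
    have hc' := part (p1 - 2) hmem a' c' hac' ha'
    rcases h' with h' | ⟨_, h6, h7, _⟩
    · have : p1 - 2 ∈ D' := ⟨hmem, by rw [h', hc']⟩
      have := hmin this (show p1 - 2 ≤ p1 by omega)
      simp at this
    · rw [show p1 - 2 + 3 = p1 + 1 by ring, ha] at h6
      rw [show p1 - 2 + 2 = p1 by ring, ← h6] at h7
      exact H.tri _ _ _ h7 hE h3

theorem ctr_of_mem_run {l : List ℤ} : ∀ {U V : ℤ → A}, Reach E α U → Run E U l V →
    ∀ r ∈ l, r ∈ Ctr E α := by
  induction l with
  | nil => intro U V _ _ r hr; simp at hr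
  | cons p l ih =>
    intro U V hU h r hr
    rcases List.mem_cons.1 hr with rfl | hr
    · exact ⟨U, hU, h.1⟩
    · exact ih (hU.trans (Reach.step h.1)) h.2 r hr

/-- a word of the class is determined by its letters at the centres -/
theorem word_ext (H : Good E α) (hD : Data E α s t) {W V : ℤ → A} (hW : Reach E α W)
    (hV : Reach E α V) (h : ∀ p ∈ Ctr E α, W (p + 1) = V (p + 1)) : W = V := by
  have hne : ∀ {U : ℤ → A} {p : ℤ}, Reach E α U → p ∈ Ctr E α → U p ≠ U (p + 1) := by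
    intro U p hU hp
    obtain ⟨a, c, hac, ha, h⟩ := hD.l p hp U hU
    have hE := edge_of H hD hp hac
    rcases h with h | ⟨_, _, _, h⟩
    · rw [h, ha]; exact (H.ne _ _ hE).symm
    · rw [ha]; exact h
  have uniq : ∀ {p : ℤ} {a c a' c' : A}, p ∈ Ctr E α → ((a = s p ∧ c = t p) ∨ (a = t p ∧ c = s p)) →
      ((a' = s p ∧ c' = t p) ∨ (a' = t p ∧ c' = s p)) → a = a' → c = c' := by
    intro p a c a' c' hp h1 h2 h3
    have := H.ne _ _ (hD.edge p hp)
    rcases h1 with ⟨r1, r2⟩ | ⟨r1, r2⟩ <;> rcases h2 with ⟨r3, r4⟩ | ⟨r3, r4⟩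
    · rw [r2, r4]
    · exact absurd (by rw [← r1, h3, r3]) this
    · exact absurd (by rw [← r1, h3, r3]) this
    · rw [r2, r4]
  -- the position `p + 2`
  have hb : ∀ p ∈ Ctr E α, W (p + 2) = V (p + 2) := by
    intro p hp
    obtain ⟨a, c, hac, ha, h1⟩ := hD.r p hp W hW
    obtain ⟨a', c', hac', ha', h1'⟩ := hD.r p hp V hV
    have haa : a = a' := by rw [← ha, ← ha', h p hp]
    have hcc := uniq hp hac hac' haa
    rcases h1 with h1 | ⟨h2, h3, h4, h5⟩ <;> rcases h1' with h1' | ⟨h2', h3', h4', h5'⟩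
    · rw [h1, h1', hcc]
    · exfalso
      have e := h (p + 2) h2'
      rw [show p + 2 + 1 = p + 3 by ring, h3', ← hcc, ← h1] at e
      exact hne hW h2' (by rw [show p + 2 + 1 = p + 3 by ring]; exact e.symm)
    · exfalso
      have e := h (p + 2) h2
      rw [show p + 2 + 1 = p + 3 by ring, h3, hcc, ← h1'] at e
      exact hne hV h2 (by rw [show p + 2 + 1 = p + 3 by ring]; exact e)
    · obtain ⟨b, d, hbd, hb, k⟩ := hD.l (p + 2) h2 W hW
      obtain ⟨b', d', hbd', hb', k'⟩ := hD.l (p + 2) h2 V hV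
      rw [show p + 2 + 1 = p + 3 by ring] at hb hb'
      have hEbd := edge_of H hD h2 hbd
      have hEbd' := edge_of H hD h2 hbd'
      have hbb : b = b' := by
        rw [← hb, ← hb']
        have := h (p + 2) h2
        rwa [show p + 2 + 1 = p + 3 by ring] at this
      have hdd := uniq h2 hbd hbd' hbb
      rcases k with k | ⟨_, _, k2, _⟩
      · rcases k' with k' | ⟨_, _, k2', _⟩
        · rw [k, k', hdd]
        · exfalso
          have : c' = b' := by rw [← h3', hb']
          rw [this] at h4'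
          exact H.tri _ _ _ h4' hEbd' k2'
      · exfalso
        have : c = b := by rw [← h3, hb]
        rw [this] at h4
        exact H.tri _ _ _ h4 hEbd k2
  funext i
  by_cases h1 : i - 1 ∈ Ctr E α
  · have := h _ h1
    simpa using this
  by_cases h2 : i - 2 ∈ Ctr E α
  · have := hb _ h2
    simpa using this
  by_cases h3 : i ∈ Ctr E α
  · obtain ⟨a, c, hac, ha, k⟩ := hD.l i h3 W hW
    obtain ⟨a', c', hac', ha', k'⟩ := hD.l i h3 V hV
    have haa : a = a' := by rw [← ha, ← ha', h i h3]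
    have hcc := uniq h3 hac hac' haa
    rcases k with k | ⟨k, _⟩
    · rcases k' with k' | ⟨k', _⟩
      · rw [k, k', hcc]
      · exact (h2 k').elim
    · exact (h2 k).elim
  · obtain ⟨l, hl⟩ := hW
    obtain ⟨l', hl'⟩ := hV
    have far : ∀ {l : List ℤ} {V : ℤ → A}, Run E α l V → ∀ r ∈ l, r + 2 < i ∨ i < r := by
      intro l V hl r hr
      have hrC := ctr_of_mem_run (Reach.refl α) hl r hr
      have e1 : r ≠ i := fun e => h3 (e ▸ hrC)
      have e2 : r ≠ i - 1 := fun e => h1 (e ▸ hrC)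
      have e3 : r ≠ i - 2 := fun e => h2 (e ▸ hrC)
      omega
    rw [run_const hl (far hl), run_const hl' (far hl')]

/-- two antipodal targets -/
theorem exists_antipodal (H : Good E α) (hD : Data E α s t) (hfin : (Ctr E α).Finite) :
    ∃ x y : ℤ → A, Target E α s t x ∧ Target E α s t y ∧ ∀ p ∈ Ctr E α, x p ≠ y p := by
  classical
  obtain ⟨N, hN⟩ := hfin.bddAbove
  obtain ⟨N0, hN0⟩ := hfin.bddBelow
  -- build a good pair on `{p | p ≤ N0 + n}` by induction
  have key : ∀ n : ℕ, ∃ x y : ℤ → A, ∀ p ∈ Ctr E α, p ≤ N0 + n →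
      ((x p = s p ∧ y p = t p) ∨ (x p = t p ∧ y p = s p)) ∧
      (p - 2 ∈ Ctr E α → x (p - 2) ≠ x p ∧ y (p - 2) ≠ y p) := by
    intro n
    induction n with
    | zero =>
      refine ⟨s, t, fun p hp hpn => ⟨Or.inl ⟨rfl, rfl⟩, fun h => ?_⟩⟩
      have := hN0 h
      simp at hpn
      omega
    | succ n ih =>
      obtain ⟨x, y, hxy⟩ := ih
      set q : ℤ := N0 + n + 1 with hq
      by_cases hqC : q ∈ Ctr E α
      · have hstq := H.ne _ _ (hD.edge q hqC)
        -- choose the value at q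
        have hex : ∃ u v : A, ((u = s q ∧ v = t q) ∨ (u = t q ∧ v = s q)) ∧
            (q - 2 ∈ Ctr E α → x (q - 2) ≠ u ∧ y (q - 2) ≠ v) := by
          by_cases h2 : q - 2 ∈ Ctr E α
          · have h3 := (hxy (q - 2) h2 (by omega)).1
            have h4 : x (q - 2) ≠ y (q - 2) := by
              have := H.ne _ _ (hD.edge _ h2)
              rcases h3 with ⟨e1, e2⟩ | ⟨e1, e2⟩
              · rw [e1, e2]; exact this
              · rw [e1, e2]; exact this.symm
            by_cases h5 : x (q - 2) ≠ s q ∧ y (q - 2) ≠ t q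
            · exact ⟨s q, t q, Or.inl ⟨rfl, rfl⟩, fun _ => h5⟩
            · refine ⟨t q, s q, Or.inr ⟨rfl, rfl⟩, fun _ => ?_⟩
              rw [not_and_or, not_not, not_not] at h5
              rcases h5 with h5 | h5
              · rw [h5] at h4 ⊢
                exact ⟨hstq, h4.symm⟩
              · rw [h5] at h4 ⊢
                exact ⟨h4, hstq.symm⟩
          · exact ⟨s q, t q, Or.inl ⟨rfl, rfl⟩, fun h => (h2 h).elim⟩
        obtain ⟨u, v, huv, huv2⟩ := hex
        refine ⟨Function.update x q u, Function.update y q v, ?_⟩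
        intro p hp hpn
        by_cases hpq : p = q
        · rw [hpq]
          refine ⟨by simpa using huv, fun h => ?_⟩
          rw [Function.update_self, Function.update_self, Function.update_of_ne (by omega),
            Function.update_of_ne (by omega)]
          exact huv2 h
        · have hle : p ≤ N0 + n := by push_cast at hpn; omega
          rw [Function.update_of_ne hpq, Function.update_of_ne hpq,
            Function.update_of_ne (by omega), Function.update_of_ne (by omega)]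
          exact hxy p hp hle
      · refine ⟨x, y, fun p hp hpn => hxy p hp ?_⟩
        have : p ≠ q := fun e => hqC (e ▸ hp)
        push_cast at hpn
        omega
  obtain ⟨x, y, hxy⟩ := key (N - N0).toNat
  have hle : ∀ p ∈ Ctr E α, p ≤ N0 + (N - N0).toNat := by
    intro p hp
    have h1 := hN hp
    omega
  refine ⟨x, y, ?_, ?_, ?_⟩
  · intro p hp
    refine ⟨?_, fun h2 => ?_⟩
    · rcases (hxy p hp (hle p hp)).1 with h | h
      · exact Or.inl h.1
      · exact Or.inr h.1
    · have := ((hxy (p + 2) h2 (hle _ h2)).2 (by simpa using hp)).1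
      simpa using this
  · intro p hp
    refine ⟨?_, fun h2 => ?_⟩
    · rcases (hxy p hp (hle p hp)).1 with h | h
      · exact Or.inr h.2
      · exact Or.inl h.2
    · have := ((hxy (p + 2) h2 (hle _ h2)).2 (by simpa using hp)).2
      simpa using this
  · intro p hp
    have hst := H.ne _ _ (hD.edge p hp)
    rcases (hxy p hp (hle p hp)).1 with ⟨h1, h2⟩ | ⟨h1, h2⟩
    · rw [h1, h2]; exact hst
    · rw [h1, h2]; exact hst.symm

end Pool.Helper43.Braid
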