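import Mathlib

namespace Pool.Helper43.Braid

/-- The hypercube graph `Q_n`: binary strings of length `n`, adjacent when they differ in exactly
one place. -/
def hypercube (n : ℕ) : SimpleGraph (Fin n → Bool) where
  Adj x y := hammingDist x y = 1
  symm := ⟨fun x y h => by rw [hammingDist_comm]; exact h⟩
  loopless := ⟨fun x h => by simp at h⟩

/-- `G` embeds isometrically in the hypercube `Q_n`. -/
def EmbedsInCube {V : Type*} (G : SimpleGraph V) (n : ℕ) : Prop :=
  ∃ f : V → (Fin n → Bool), ∀ x y, (hypercube n).dist (f x) (f y) = G.dist x y

/-- The isometric dimension: the least `n` such that `G` embeds isometrically in `Q_n`. -/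
noncomputable def isometricDim {V : Type*} (G : SimpleGraph V) : ℕ :=
  sInf {n | EmbedsInCube G n}

/-- `w'` is obtained from the word `w` by one braid move: a factor `s t s` with `m(s,t) = 3`
is replaced by `t s t`. -/
def BraidMove {B : Type*} (M : CoxeterMatrix B) (w w' : List B) : Prop :=
  ∃ (u v : List B) (s t : B), M s t = 3 ∧ w = u ++ [s, t, s] ++ v ∧ w' = u ++ [t, s, t] ++ v

/-- The braid graph of the word `α`: its vertices are the words that can be obtained from `α` by a
finite sequence of braid moves, two (distinct) words being adjacent when they differ by a single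
braid move. -/
def braidGraph {B : Type*} (M : CoxeterMatrix B) (α : List B) :
    SimpleGraph {w : List B // Relation.ReflTransGen (BraidMove M) α w} :=
  SimpleGraph.fromRel (fun x y => BraidMove M x.1 y.1)

/-- The Coxeter matrix is of type Lambda: simply laced, and its Coxeter graph (edges: pairs with
entry `3`) has no 3-cycle. -/
def IsTypeLambda {B : Type*} (M : CoxeterMatrix B) : Prop :=
  (∀ s t, s ≠ t → M s t = 2 ∨ M s t = 3) ∧ ∀ s t u, ¬ (M s t = 3 ∧ M t u = 3 ∧ M s u = 3)

end Pool.Helper43.Braid
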