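import Pool.Agent.Helper43.BraidB
import Pool.Agent.Helper43.BraidDefs

namespace Pool.Helper43.Braid

/-- general metric lemma -/
theorem dist_eq_hamming {V ι : Type*} [Fintype ι] (G : SimpleGraph V) (f : V → ι → Bool)
    (h1 : ∀ u v, G.Adj u v → hammingDist (f u) (f v) ≤ 1)
    (h2 : ∀ u v, u ≠ v → ∃ u', G.Adj u u' ∧
      hammingDist (f u') (f v) + 1 ≤ hammingDist (f u) (f v)) :
    ∀ u v, G.Reachable u v ∧ G.dist u v = hammingDist (f u) (f v) := by
  have up : ∀ n u v, hammingDist (f u) (f v) = n → G.Reachable u v ∧ G.dist u v ≤ n := by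
    intro n
    induction n using Nat.strong_induction_on with
    | _ n ih =>
    intro u v hn
    by_cases huv : u = v
    · subst huv; simp
    · obtain ⟨u', ha, hd⟩ := h2 u v huv
      obtain ⟨r, hr⟩ := ih _ (by omega) u' v rfl
      refine ⟨ha.reachable.trans r, ?_⟩
      obtain ⟨w, hw⟩ := r.exists_walk_length_eq_dist
      have := SimpleGraph.dist_le (SimpleGraph.Walk.cons ha w)
      rw [SimpleGraph.Walk.length_cons] at this
      omega
  have low : ∀ {u v} (w : G.Walk u v), hammingDist (f u) (f v) ≤ w.length := by
    intro u v w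
    induction w with
    | nil => simp
    | @cons a b c h w ih =>
      rw [SimpleGraph.Walk.length_cons]
      have := hammingDist_triangle (f a) (f b) (f c)
      have := h1 _ _ h
      omega
  intro u v
  obtain ⟨r, hr⟩ := up _ u v rfl
  refine ⟨r, le_antisymm hr ?_⟩
  obtain ⟨w, hw⟩ := r.exists_walk_length_eq_dist
  rw [← hw]
  exact low w

theorem hammingDist_flip_le {ι : Type*} [Fintype ι] {x y : ι → Bool} (i : ι)
    (h : ∀ j, j ≠ i → x j = y j) : hammingDist x y ≤ 1 := by
  classical
  unfold hammingDist
  calc _ ≤ ({i} : Finset ι).card := Finset.card_le_card (fun j hj => by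
        simp only [Finset.mem_filter, Finset.mem_univ, true_and] at hj
        simp only [Finset.mem_singleton]
        by_contra hne
        exact hj (h j hne))
    _ = 1 := by simp

theorem hammingDist_flip_lt {ι : Type*} [Fintype ι] {x y z : ι → Bool} (i : ι)
    (h : ∀ j, j ≠ i → y j = x j) (hx : x i ≠ z i) (hy : y i = z i) :
    hammingDist y z + 1 ≤ hammingDist x z := by
  classical
  unfold hammingDist
  rw [Nat.succ_le_iff]
  apply Finset.card_lt_card
  refine Finset.ssubset_iff_subset_ne.2 ⟨?_, ?_⟩
  · intro j hj
    simp only [Finset.mem_filter, Finset.mem_univ, true_and] at hj ⊢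
    by_cases hji : j = i
    · rw [hji] at hj; exact absurd hy hj
    · rwa [← h j hji]
  · intro heq
    have : i ∈ Finset.univ.filter (fun j => x j ≠ z j) := by simpa using hx
    rw [← heq] at this
    simp [hy] at this

theorem hypercube_dist (n : ℕ) (x y : Fin n → Bool) :
    (hypercube n).dist x y = hammingDist x y := by
  refine (dist_eq_hamming (hypercube n) id (fun u v h => le_of_eq h) ?_ x y).2
  intro u v huv
  obtain ⟨i, hi⟩ := Function.ne_iff.1 huv
  refine ⟨Function.update u i (v i), ?_, ?_⟩
  · show hammingDist u (Function.update u i (v i)) = 1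
    apply le_antisymm
    · exact hammingDist_flip_le i (fun j hj => by rw [Function.update_of_ne hj])
    · rw [Nat.succ_le_iff]
      apply hammingDist_pos.2
      intro h
      have := congrFun h i
      rw [Function.update_self] at this
      exact hi this
  · exact hammingDist_flip_lt i (fun j hj => by
      simp only [id]; rw [Function.update_of_ne hj]) hi (by simp)

theorem hammingDist_equiv {ι κ : Type*} [Fintype ι] [Fintype κ] (e : ι ≃ κ) (x y : κ → Bool) :
    hammingDist (fun i => x (e i)) (fun i => y (e i)) = hammingDist x y := by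
  classical
  unfold hammingDist
  apply Finset.card_bij (fun i _ => e i)
  · intro i hi; simpa using hi
  · intro i _ j _ h; exact e.injective h
  · intro k hk
    exact ⟨e.symm k, by simpa using hk, by simp⟩

end Pool.Helper43.Braid
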