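import Pool.Agent.Helper43.BraidC

namespace Pool.Helper43.Braid

variable {B : Type*}

/-- a word as a function on `ℤ` -/
def toZ (w : List B) : ℤ → Option B := fun i => if i < 0 then none else w[i.toNat]?

/-- the relation `m(s,t) = 3` on letters -/
def Rel (M : CoxeterMatrix B) : Option B → Option B → Prop :=
  fun x y => ∃ s t, x = some s ∧ y = some t ∧ M s t = 3

theorem toZ_nat (w : List B) (n : ℕ) : toZ w (n : ℤ) = w[n]? := by
  unfold toZ
  rw [if_neg (by omega), Int.toNat_natCast]

theorem toZ_injective : Function.Injective (toZ : List B → ℤ → Option B) := by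
  intro w w' h
  apply List.ext_getElem?
  intro i
  have := congrFun h (i : ℤ)
  rwa [toZ_nat, toZ_nat] at this

theorem toZ_some {w : List B} {p : ℤ} {s : B} (h : toZ w p = some s) :
    ∃ n : ℕ, p = n ∧ n < w.length ∧ w[n]? = some s := by
  unfold toZ at h
  split_ifs at h with hp
  refine ⟨p.toNat, by omega, ?_, h⟩
  exact (List.getElem?_eq_some_iff.1 h).1

theorem toZ_flip (u v : List B) (s t : B) :
    toZ (u ++ [t, s, t] ++ v) = flip (toZ (u ++ [s, t, s] ++ v)) (u.length : ℤ) := by
  funext i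
  have e0 : ∀ a b c : B, toZ (u ++ [a, b, c] ++ v) (u.length : ℤ) = some a := by
    intro a b c
    rw [toZ_nat]; simp
  have e1 : ∀ a b c : B, toZ (u ++ [a, b, c] ++ v) ((u.length : ℤ) + 1) = some b := by
    intro a b c
    rw [show ((u.length : ℤ) + 1) = ((u.length + 1 : ℕ) : ℤ) by push_cast; ring, toZ_nat]
    rw [List.append_assoc, List.getElem?_append_right (by omega)]
    simp
  have e2 : ∀ a b c : B, toZ (u ++ [a, b, c] ++ v) ((u.length : ℤ) + 2) = some c := by
    intro a b c
    rw [show ((u.length : ℤ) + 2) = ((u.length + 2 : ℕ) : ℤ) by push_cast; ring, toZ_nat]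
    rw [List.append_assoc, List.getElem?_append_right (by omega)]
    simp
  unfold flip
  by_cases h0 : i = (u.length : ℤ)
  · rw [if_pos h0, h0, e0, e1]
  by_cases h1 : i = (u.length : ℤ) + 1
  · rw [if_neg h0, if_pos h1, h1, e0, e1]
  by_cases h2 : i = (u.length : ℤ) + 2
  · rw [if_neg h0, if_neg h1, if_pos h2, h2, e1, e2]
  rw [if_neg h0, if_neg h1, if_neg h2]
  by_cases hi : i < 0
  · simp [toZ, hi]
  · obtain ⟨n, rfl⟩ : ∃ n : ℕ, i = n := ⟨i.toNat, by omega⟩
    rw [toZ_nat, toZ_nat, List.append_assoc, List.append_assoc]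
    by_cases hn : n < u.length
    · rw [List.getElem?_append_left hn, List.getElem?_append_left hn]
    · have h3 : 3 ≤ n - u.length := by omega
      have k1 : ∀ L : List B, (u ++ L)[n]? = L[n - u.length]? := fun L =>
        List.getElem?_append_right (by omega)
      have k2 : ∀ a b c : B, ([a, b, c] ++ v)[n - u.length]? = v[n - u.length - 3]? :=
        fun a b c => List.getElem?_append_right (by simpa using h3)
      rw [k1, k1, k2, k2]

theorem move_can {M : CoxeterMatrix B} {w w' : List B} (h : BraidMove M w w') :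
    ∃ p, Can (Rel M) (toZ w) p ∧ toZ w' = flip (toZ w) p := by
  obtain ⟨u, v, s, t, hm, rfl, rfl⟩ := h
  refine ⟨u.length, ⟨⟨s, t, ?_, ?_, hm⟩, ?_⟩, toZ_flip u v s t⟩
  · rw [toZ_nat]; simp
  · rw [show ((u.length : ℤ) + 1) = ((u.length + 1 : ℕ) : ℤ) by push_cast; ring, toZ_nat]
    rw [List.append_assoc, List.getElem?_append_right (by omega)]
    simp
  · rw [show ((u.length : ℤ) + 2) = ((u.length + 2 : ℕ) : ℤ) by push_cast; ring, toZ_nat, toZ_nat]
    rw [List.append_assoc, List.getElem?_append_right (by omega)]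
    simp

theorem can_move {M : CoxeterMatrix B} {w : List B} {p : ℤ} (h : Can (Rel M) (toZ w) p) :
    ∃ w', BraidMove M w w' ∧ toZ w' = flip (toZ w) p := by
  obtain ⟨⟨s, t, h1, h2, hm⟩, h3⟩ := h
  obtain ⟨n, rfl, hn, hs⟩ := toZ_some h1
  rw [show ((n : ℤ) + 1) = ((n + 1 : ℕ) : ℤ) by push_cast; ring, toZ_nat] at h2
  rw [h1, show ((n : ℤ) + 2) = ((n + 2 : ℕ) : ℤ) by push_cast; ring, toZ_nat] at h3
  obtain ⟨l0, g0⟩ := List.getElem?_eq_some_iff.1 hs
  obtain ⟨l1, g1⟩ := List.getElem?_eq_some_iff.1 h2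
  obtain ⟨l2, g2⟩ := List.getElem?_eq_some_iff.1 h3
  have hw : w = w.take n ++ [s, t, s] ++ w.drop (n + 3) := by
    have e1 : w.drop n = s :: w.drop (n + 1) := by rw [List.drop_eq_getElem_cons l0, g0]
    have e2 : w.drop (n + 1) = t :: w.drop (n + 2) := by rw [List.drop_eq_getElem_cons l1, g1]
    have e3 : w.drop (n + 2) = s :: w.drop (n + 3) := by rw [List.drop_eq_getElem_cons l2, g2]
    conv_lhs => rw [← List.take_append_drop n w, e1, e2, e3]
    simp
  have hlen : (w.take n).length = n := by simp; omega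
  refine ⟨w.take n ++ [t, s, t] ++ w.drop (n + 3), ⟨_, _, s, t, hm, hw, rfl⟩, ?_⟩
  rw [toZ_flip, ← hw, hlen]

theorem reach_of_refl {M : CoxeterMatrix B} {w w' : List B}
    (h : Relation.ReflTransGen (BraidMove M) w w') : Reach (Rel M) (toZ w) (toZ w') := by
  induction h with
  | refl => exact Reach.refl _
  | tail _ h ih =>
    obtain ⟨p, hp, he⟩ := move_can h
    rw [he]
    exact ih.trans (Reach.step hp)

theorem refl_of_reach {M : CoxeterMatrix B} {V : ℤ → Option B} {l : List ℤ} : ∀ {w : List B},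
    Run (Rel M) (toZ w) l V → ∃ w', V = toZ w' ∧ Relation.ReflTransGen (BraidMove M) w w' := by
  induction l with
  | nil => intro w h; exact ⟨w, h.symm, Relation.ReflTransGen.refl⟩
  | cons p l ih =>
    intro w h
    obtain ⟨w1, h1, h2⟩ := can_move h.1
    have h3 := h.2
    rw [← h2] at h3
    obtain ⟨w', h4, h5⟩ := ih h3
    exact ⟨w', h4, Relation.ReflTransGen.head h1 h5⟩

theorem move_length {M : CoxeterMatrix B} {w w' : List B}
    (h : Relation.ReflTransGen (BraidMove M) w w') : w'.length = w.length := by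
  induction h with
  | refl => rfl
  | tail _ h ih =>
    obtain ⟨u, v, s, t, _, rfl, rfl⟩ := h
    rw [← ih]; simp

section Group

variable {W : Type*} [Group W] {M : CoxeterMatrix B} (cs : CoxeterSystem M W)

theorem braid_rel {s t : B} (h : M s t = 3) :
    cs.simple s * cs.simple t * cs.simple s = cs.simple t * cs.simple s * cs.simple t := by
  have h1 := cs.simple_mul_simple_pow s t
  rw [h] at h1
  have hs : cs.simple s * cs.simple s = 1 := cs.simple_mul_simple_self s
  have ht : cs.simple t * cs.simple t = 1 := cs.simple_mul_simple_self t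
  have hsi : (cs.simple s)⁻¹ = cs.simple s := cs.inv_simple s
  have hti : (cs.simple t)⁻¹ = cs.simple t := cs.inv_simple t
  have h2 : (cs.simple s * cs.simple t * cs.simple s) * (cs.simple t * cs.simple s * cs.simple t)
      = 1 := by
    rw [← h1]; group
    simp only [pow_succ, pow_zero, one_mul, mul_assoc, zpow_ofNat]
  rw [eq_inv_of_mul_eq_one_left h2]
  simp [mul_inv_rev, hsi, hti, mul_assoc]

theorem move_prod {w w' : List B} (h : Relation.ReflTransGen (BraidMove M) w w') :
    cs.wordProd w' = cs.wordProd w := by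
  induction h with
  | refl => rfl
  | tail _ h ih =>
    obtain ⟨u, v, s, t, hm, rfl, rfl⟩ := h
    rw [← ih]
    have := braid_rel cs hm
    simp only [cs.wordProd_append, cs.wordProd_cons, cs.wordProd_nil, mul_one, ← mul_assoc]
    rw [mul_assoc (cs.wordProd u), mul_assoc (cs.wordProd u), ← this]
    simp only [← mul_assoc]

theorem move_reduced {w w' : List B} (h : Relation.ReflTransGen (BraidMove M) w w')
    (hw : cs.IsReduced w) : cs.IsReduced w' := by
  unfold CoxeterSystem.IsReduced at *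
  rw [move_prod cs h, hw, move_length h]

theorem not_reduced_four {s t : B} (h : M s t = 3) : ¬ cs.IsReduced [s, t, s, t] := by
  intro hr
  unfold CoxeterSystem.IsReduced at hr
  have : cs.wordProd [s, t, s, t] = cs.wordProd [t, s] := by
    have := braid_rel cs h
    simp only [cs.wordProd_cons, cs.wordProd_nil, mul_one, ← mul_assoc]
    rw [this, mul_assoc, cs.simple_mul_simple_self, mul_one]
  rw [this] at hr
  have h2 := cs.length_wordProd_le [t, s]
  rw [hr] at h2
  simp at h2

theorem good_of_reduced (htf : ∀ s t u, M s t = 3 → M t u = 3 → M s u ≠ 3)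
    {α : List B} (hα : cs.IsReduced α) : Good (Rel M) (toZ α) := by
  refine ⟨?_, ?_, ?_, ?_⟩
  · rintro a b ⟨s, t, rfl, rfl, h⟩
    exact ⟨t, s, rfl, rfl, by rw [M.symmetric]; exact h⟩
  · rintro a b ⟨s, t, rfl, rfl, h⟩ heq
    have := Option.some.inj heq
    subst this
    rw [M.diagonal] at h
    omega
  · rintro a b c ⟨s, t, rfl, rfl, h⟩ ⟨t', u, h1, rfl, h2⟩ ⟨s', u', h3, h4, h5⟩
    have e1 := Option.some.inj h1
    have e3 := Option.some.inj h3
    have e4 := Option.some.inj h4
    subst e1 e3 e4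
    exact htf _ _ _ h h2 h5
  · intro V hV p h1 h2 h3
    obtain ⟨l, hl⟩ := hV
    obtain ⟨w, rfl, hw⟩ := refl_of_reach hl
    have hred := move_reduced cs hw hα
    obtain ⟨s, t, hs, ht, hm⟩ := h1
    rw [hs] at h2
    rw [ht] at h3
    obtain ⟨n, rfl, hn, hs'⟩ := toZ_some hs
    rw [show ((n : ℤ) + 1) = ((n + 1 : ℕ) : ℤ) by push_cast; ring, toZ_nat] at ht
    rw [show ((n : ℤ) + 2) = ((n + 2 : ℕ) : ℤ) by push_cast; ring, toZ_nat] at h2
    rw [show ((n : ℤ) + 3) = ((n + 3 : ℕ) : ℤ) by push_cast; ring, toZ_nat] at h3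
    obtain ⟨l0, g0⟩ := List.getElem?_eq_some_iff.1 hs'
    obtain ⟨l1, g1⟩ := List.getElem?_eq_some_iff.1 ht
    obtain ⟨l2, g2⟩ := List.getElem?_eq_some_iff.1 h2
    obtain ⟨l3, g3⟩ := List.getElem?_eq_some_iff.1 h3
    have e1 : w.drop n = s :: w.drop (n + 1) := by rw [List.drop_eq_getElem_cons l0, g0]
    have e2 : w.drop (n + 1) = t :: w.drop (n + 2) := by rw [List.drop_eq_getElem_cons l1, g1]
    have e3 : w.drop (n + 2) = s :: w.drop (n + 3) := by rw [List.drop_eq_getElem_cons l2, g2]
    have e4 : w.drop (n + 3) = t :: w.drop (n + 4) := by rw [List.drop_eq_getElem_cons l3, g3]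
    have hd : cs.IsReduced (w.drop n) := hred.drop n
    have ht4 : cs.IsReduced ((w.drop n).take 4) := hd.take 4
    rw [e1, e2, e3, e4] at ht4
    exact not_reduced_four cs hm (by simpa using ht4)

theorem ctr_finite {α : List B} : (Ctr (Rel M) (toZ α)).Finite := by
  apply (Set.finite_Icc (0 : ℤ) α.length).subset
  rintro p ⟨V, ⟨l, hl⟩, hc⟩
  obtain ⟨w, rfl, hw⟩ := refl_of_reach hl
  obtain ⟨⟨s, t, hs, _, _⟩, _⟩ := hc
  obtain ⟨n, rfl, hn, _⟩ := toZ_some hs
  rw [move_length hw] at hn
  exact ⟨by omega, by omega⟩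

end Group

end Pool.Helper43.Braid
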