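import Pool.Agent.Helper43.BraidD

namespace Pool.Helper43.Braid

theorem main {B W : Type*} [Group W] (M : CoxeterMatrix B) (cs : CoxeterSystem M W)
    (htf : ∀ s t u, M s t = 3 → M t u = 3 → M s u ≠ 3)
    (α : List B) (hα : cs.IsReduced α) :
    Finite {w : List B // Relation.ReflTransGen (BraidMove M) α w} ∧
    (braidGraph M α).Connected ∧
    (∃ n, EmbedsInCube (braidGraph M α) n) ∧
    isometricDim (braidGraph M α) = (braidGraph M α).diam := by
  classical
  have H : Good (Rel M) (toZ α) := good_of_reduced cs htf hα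
  obtain ⟨s, t, hD⟩ := exists_data H
  set C : Set ℤ := Ctr (Rel M) (toZ α) with hC
  have hfin : C.Finite := ctr_finite
  have : Fintype C := hfin.fintype
  set V := {w : List B // Relation.ReflTransGen (BraidMove M) α w} with hV
  set G := braidGraph M α with hG
  have hr : ∀ u : V, Reach (Rel M) (toZ α) (toZ u.1) := fun u => reach_of_refl u.2
  let f : V → C → Bool := fun u p => decide (toZ u.1 ((p : ℤ) + 1) = s p)
  -- comparing coordinates
  have fne : ∀ (a b : Option B) (p : ℤ), (a = s p ∨ a = t p) → (b = s p ∨ b = t p) → a ≠ b →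
      decide (a = s p) ≠ decide (b = s p) := by
    intro a b p ha hb hab h
    rw [decide_eq_decide] at h
    rcases ha with ha | ha
    · have := h.1 ha
      exact hab (by rw [ha, this])
    · by_cases h1 : a = s p
      · exact hab (by rw [h.1 h1, h1])
      · have h2 : b ≠ s p := fun e => h1 (h.2 e)
        rcases hb with hb | hb
        · exact h2 hb
        · exact hab (by rw [ha, hb])
  have moveone : ∀ u v : V, BraidMove M u.1 v.1 → hammingDist (f u) (f v) ≤ 1 := by
    intro u v h
    obtain ⟨p, hp, he⟩ := move_can h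
    have hpC : p ∈ C := ⟨_, hr u, hp⟩
    refine hammingDist_flip_le ⟨p, hpC⟩ (fun q hq => ?_)
    have hqp : (q : ℤ) ≠ p := fun e => hq (Subtype.ext e)
    have hq1 : (q : ℤ) + 1 ≠ p := fun e => no_adj H q.2 (by rw [e]; exact hpC)
    have hq2 : (q : ℤ) ≠ p + 1 := fun e => no_adj H hpC (by rw [← e]; exact q.2)
    show decide (toZ u.1 ((q : ℤ) + 1) = s q) = decide (toZ v.1 ((q : ℤ) + 1) = s q)
    rw [he]
    have : flip (toZ u.1) p ((q : ℤ) + 1) = toZ u.1 ((q : ℤ) + 1) := by
      rcases lt_or_ge ((q : ℤ) + 1) p with h | h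
      · exact flip_of_lt _ h
      · exact flip_of_gt _ (by omega)
    rw [this]
  have h1 : ∀ u v : V, G.Adj u v → hammingDist (f u) (f v) ≤ 1 := by
    intro u v h
    rcases h.2 with h | h
    · exact moveone u v h
    · rw [hammingDist_comm]; exact moveone v u h
  -- moves towards a target
  have htarget : ∀ (x : ℤ → Option B), Target (Rel M) (toZ α) s t x → ∀ u : V,
      (∃ p ∈ C, toZ u.1 (p + 1) ≠ x p) → ∃ u' : V, ∃ p : C, G.Adj u u' ∧
        toZ u.1 ((p : ℤ) + 1) ≠ x p ∧ toZ u'.1 ((p : ℤ) + 1) = x p ∧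
        ∀ q : C, q ≠ p → toZ u'.1 ((q : ℤ) + 1) = toZ u.1 ((q : ℤ) + 1) := by
    intro x hx u hne
    obtain ⟨p, hpC, hpx, hcan, hpx'⟩ := exists_move H hD hfin hx (hr u) hne
    obtain ⟨w', hw1, hw2⟩ := can_move hcan
    refine ⟨⟨w', u.2.tail hw1⟩, ⟨p, hpC⟩, ?_, hpx, ?_, ?_⟩
    · refine ⟨?_, Or.inl hw1⟩
      intro e
      have e' : u.1 = w' := congrArg Subtype.val e
      rw [← e'] at hw2
      have := congrFun hw2 (p + 1)
      rw [flip_1, hpx'] at this
      exact hpx this
    · show toZ w' (p + 1) = x p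
      rw [hw2, flip_1, hpx']
    · intro q hq
      show toZ w' ((q : ℤ) + 1) = _
      rw [hw2]
      have hqp : (q : ℤ) ≠ p := fun e => hq (Subtype.ext e)
      have hq1 : (q : ℤ) + 1 ≠ p := fun e => no_adj H q.2 (by rw [e]; exact hpC)
      have hq2 : (q : ℤ) ≠ p + 1 := fun e => no_adj H hpC (by rw [← e]; exact q.2)
      rcases lt_or_ge ((q : ℤ) + 1) p with h | h
      · exact flip_of_lt _ h
      · exact flip_of_gt _ (by omega)
  have hneq : ∀ u v : V, u ≠ v → ∃ p ∈ C, toZ u.1 (p + 1) ≠ toZ v.1 (p + 1) := by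
    intro u v huv
    by_contra hcon
    push Not at hcon
    exact huv (Subtype.ext (toZ_injective (word_ext H hD (hr u) (hr v) hcon)))
  have h2 : ∀ u v : V, u ≠ v → ∃ u', G.Adj u u' ∧
      hammingDist (f u') (f v) + 1 ≤ hammingDist (f u) (f v) := by
    intro u v huv
    obtain ⟨u', p, ha, hp1, hp2, hq⟩ := htarget (fun p => toZ v.1 (p + 1))
      (target_of_reach H hD (hr v)) u (hneq u v huv)
    refine ⟨u', ha, hammingDist_flip_lt p (fun q hqp => ?_) ?_ ?_⟩
    · show decide _ = decide _
      rw [hq q hqp]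
    · exact fne _ _ _ (letter_mem hD p.2 (hr u)) (letter_mem hD p.2 (hr v)) hp1
    · show decide _ = decide _
      rw [hp2]
  have hdist := dist_eq_hamming G f h1 h2
  have hfinj : Function.Injective f := by
    intro u v huv
    have h := hdist u v
    rw [huv, hammingDist_self] at h
    exact (h.1.dist_eq_zero_iff).1 h.2
  have hVfin : Finite V := Finite.of_injective f hfinj
  have hVne : Nonempty V := ⟨⟨α, Relation.ReflTransGen.refl⟩⟩
  have hconn : G.Connected := by
    rw [SimpleGraph.connected_iff]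
    exact ⟨fun u v => (hdist u v).1, hVne⟩
  -- reaching every target
  have hreach : ∀ (x : ℤ → Option B), Target (Rel M) (toZ α) s t x →
      ∃ u : V, ∀ p : C, toZ u.1 ((p : ℤ) + 1) = x p := by
    intro x hx
    have key : ∀ n : ℕ, ∀ u : V, (Finset.univ.filter
        (fun p : C => toZ u.1 ((p : ℤ) + 1) ≠ x p)).card = n →
        ∃ u : V, ∀ p : C, toZ u.1 ((p : ℤ) + 1) = x p := by
      intro n
      induction n using Nat.strong_induction_on with
      | _ n ih =>
      intro u hn
      by_cases hne : ∃ p ∈ C, toZ u.1 (p + 1) ≠ x p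
      · obtain ⟨u', p, _, hp1, hp2, hq⟩ := htarget x hx u hne
        refine ih _ ?_ u' rfl
        rw [← hn]
        apply Finset.card_lt_card
        rw [Finset.ssubset_iff_subset_ne]
        refine ⟨?_, ?_⟩
        · intro q hq'
          simp only [Finset.mem_filter, Finset.mem_univ, true_and] at hq' ⊢
          by_cases hqp : q = p
          · rw [hqp] at hq'; exact absurd hp2 hq'
          · rwa [← hq q hqp]
        · intro heq
          have : p ∈ Finset.univ.filter (fun p : C => toZ u.1 ((p : ℤ) + 1) ≠ x p) := by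
            simpa using hp1
          rw [← heq] at this
          simp only [Finset.mem_filter, Finset.mem_univ, true_and] at this
          exact this hp2
      · push Not at hne
        exact ⟨u, fun p => hne p p.2⟩
    exact key _ ⟨α, Relation.ReflTransGen.refl⟩ rfl
  obtain ⟨x, y, hx, hy, hxy⟩ := exists_antipodal H hD hfin
  obtain ⟨u, hu⟩ := hreach x hx
  obtain ⟨v, hv⟩ := hreach y hy
  have huv : hammingDist (f u) (f v) = Fintype.card C := by
    unfold hammingDist
    rw [Finset.filter_true_of_mem, Finset.card_univ]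
    intro p _
    exact fne _ _ _ (letter_mem hD p.2 (hr u)) (letter_mem hD p.2 (hr v))
      (by rw [hu, hv]; exact hxy p p.2)
  have hediam : G.ediam ≠ ⊤ := SimpleGraph.connected_iff_ediam_ne_top.1 hconn
  have hdiam : G.diam = Fintype.card C := by
    apply le_antisymm
    · obtain ⟨a, b, hab⟩ := G.exists_dist_eq_diam
      rw [← hab, (hdist a b).2]
      exact hammingDist_le_card_fintype
    · rw [← huv, ← (hdist u v).2]
      exact SimpleGraph.dist_le_diam hediam
  -- the embedding
  let e : Fin (Fintype.card C) ≃ C := (Fintype.equivFin C).symm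
  have hemb : EmbedsInCube G (Fintype.card C) := by
    refine ⟨fun w i => f w (e i), fun a b => ?_⟩
    rw [hypercube_dist, (hdist a b).2]
    exact hammingDist_equiv e (f a) (f b)
  refine ⟨hVfin, hconn, ⟨_, hemb⟩, ?_⟩
  apply le_antisymm
  · rw [hdiam]
    exact Nat.sInf_le hemb
  · have hle : ∀ n ∈ {n | EmbedsInCube G n}, G.diam ≤ n := by
      rintro n ⟨g, hg⟩
      obtain ⟨a, b, hab⟩ := G.exists_dist_eq_diam
      rw [← hab, ← hg, hypercube_dist]
      simpa using hammingDist_le_card_fintype (x := g a) (y := g b)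
    exact le_csInf ⟨_, hemb⟩ hle

end Pool.Helper43.Braid
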