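import Pool.Agent.Helper43.VA.Fin

/-!
# Vojta's inequality for integral points, on average over the divisor

`U` is any set of points of `ℙ^n(ℚ)`, for instance the integral points outside some closed subset of
a Deligne-Mumford stack `X` whose coarse space lies in `ℙ^n`; `D` is the section of `X` by a
hypersurface `F = 0` of degree `d`. If the number of points of `U` of height at most `B` is
`O(B ^ a)`, then for almost all `D`, in terms of its height, Vojta's inequality
`N^(1)(D, x) ≥ h_{K_X(D)}(x) - δ h(x)` holds, with `K_X` replaced by `O(-a)` and with a sharp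
dependence on `D`, at all points `x ∈ U` off `D` whose height is at most the height of `D`. The
definitions are in `Pool/Agent/Helper43/VA/Defs.lean`.
-/

set_option autoImplicit false

namespace Pool.Agent.Results.MP_a41896_nt.DivisorAverage

open Pool.Agent.Helper43.VA

/-- For every set `U` of primitive vectors with at most `C₀ B ^ a` elements of height at most `B`,
for all `B ≥ 1`: the proportion, among the forms `F` of degree `d` with coefficients of absolute
value at most `A`, of those with some `x ∈ U` of height at most `A` such that `F(x) ≠ 0` and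
`N^(1)(F, x) < (d - a - δ) h(x) + log A - log K` is `O(K ^ (-(1 - η)))`, uniformly in `A ≥ 0`,
`K ≥ 1` and `U`. -/
theorem result (n d : ℕ) (S : Finset ℕ) (a C₀ δ η : ℝ) (ha : 0 ≤ a) (hC₀ : 0 ≤ C₀) (hδ : 0 < δ)
    (hη : 0 < η) :
    ∃ C : ℝ, 0 < C ∧ ∀ U : Set (Fin (n + 1) → ℤ), (∀ x ∈ U, IsPrimitive x) →
      (∀ B : ℕ, 1 ≤ B → ({x ∈ U | supNorm x ≤ B}.ncard : ℝ) ≤ C₀ * (B : ℝ) ^ a) →
      ∀ A : ℕ, ∀ K : ℝ, 1 ≤ K →
      ((violating d S U (a + δ) A K).ncard : ℝ) ≤ C * K ^ (-(1 - η)) * (forms n d A).ncard :=
  main n d S a C₀ δ η ha hC₀ hδ hη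

end Pool.Agent.Results.MP_a41896_nt.DivisorAverage
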