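import Mathlib

set_option autoImplicit false

namespace Pool.Agent.Helper43.Rect

open Finset

/-- a set is monochromatic under a coloring -/
def Mono {α β : Type*} (χ : α → β) (s : Finset α) : Prop := ∃ k, ∀ i ∈ s, χ i = k

lemma exists_mono_subset {α : Type*} {c m : ℕ} (χ : α → Fin c) (s : Finset α)
    (hs : c * (m - 1) < s.card) : ∃ t ⊆ s, t.card = m ∧ Mono χ t := by
  classical
  obtain ⟨k, -, hk⟩ := Finset.exists_lt_card_fiber_of_mul_lt_card_of_maps_to
    (s := s) (t := (Finset.univ : Finset (Fin c))) (f := χ) (n := m - 1)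
    (fun a _ => Finset.mem_univ _) (by simpa using hs)
  obtain ⟨t, ht, htc⟩ := Finset.exists_subset_card_eq (s := s.filter (fun x => χ x = k)) (n := m) (by omega)
  exact ⟨t, ht.trans (Finset.filter_subset _ _), htc, k, fun i hi => (Finset.mem_filter.1 (ht hi)).2⟩

open Classical in
lemma popular {α : Type*} {c m w : ℕ} (hw : c * (m - 1) < w) (b : Finset α) (hb : b.card = w)
    (hm : m ≤ w) (X : Finset (α → Fin c)) :
    ∃ s ⊆ b, s.card = m ∧ X.card ≤ 2 ^ w * (X.filter (fun χ => Mono χ s)).card := by
  by_contra hcon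
  push Not at hcon
  have h1 : ∀ χ : α → Fin c, ∃ t ⊆ b, t.card = m ∧ Mono χ t := fun χ =>
    exists_mono_subset χ b (by rw [hb]; exact hw)
  choose f hf1 hf2 hf3 using h1
  have hmaps : ∀ χ ∈ X, f χ ∈ b.powersetCard m := fun χ _ =>
    Finset.mem_powersetCard.2 ⟨hf1 χ, hf2 χ⟩
  have h2 := Finset.card_eq_sum_card_fiberwise (f := f) (s := X) (t := b.powersetCard m) hmaps
  have hne : (b.powersetCard m).Nonempty := by
    rw [Finset.powersetCard_nonempty, hb]; exact hm
  have h3 : ∀ s ∈ b.powersetCard m, 2 ^ w * (X.filter (fun χ => f χ = s)).card < X.card := by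
    intro s hs
    rw [Finset.mem_powersetCard] at hs
    refine lt_of_le_of_lt ?_ (hcon s hs.1 hs.2)
    apply Nat.mul_le_mul_left
    apply Finset.card_le_card
    intro χ hχ
    rw [Finset.mem_filter] at *
    exact ⟨hχ.1, by rw [← hχ.2]; exact hf3 χ⟩
  have h4 : ∑ s ∈ b.powersetCard m, 2 ^ w * (X.filter (fun χ => f χ = s)).card <
      ∑ s ∈ b.powersetCard m, X.card := Finset.sum_lt_sum_of_nonempty hne h3
  rw [← Finset.mul_sum, ← h2, Finset.sum_const, smul_eq_mul] at h4
  have h5 : (b.powersetCard m).card ≤ 2 ^ w := by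
    rw [← hb, ← Finset.card_powerset]
    exact Finset.card_le_card (fun t ht => Finset.mem_powerset.2 (Finset.mem_powersetCard.1 ht).1)
  have := Nat.mul_le_mul_right X.card h5
  omega

open Classical in
lemma greedy {α β : Type*} {c m w : ℕ} (hw : c * (m - 1) < w) (hm : m ≤ w)
    (X : Finset (α → Fin c)) (blk : β → Finset α) (blocks : Finset β)
    (hb : ∀ b ∈ blocks, (blk b).card = w) :
    ∃ A : β → Finset α, (∀ b ∈ blocks, A b ⊆ blk b ∧ (A b).card = m) ∧
      (X.filter (fun χ => ∀ b ∈ blocks, ¬ Mono χ (A b))).card * (2 ^ w) ^ blocks.card ≤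
        X.card * (2 ^ w - 1) ^ blocks.card := by
  induction blocks using Finset.induction_on with
  | empty => exact ⟨fun _ => ∅, by simp, by simp⟩
  | insert b B hbB ih =>
    obtain ⟨A, hA1, hA2⟩ := ih (fun b' hb' => hb b' (Finset.mem_insert_of_mem hb'))
    set X' := X.filter (fun χ => ∀ b ∈ B, ¬ Mono χ (A b)) with hX'
    obtain ⟨s, hs1, hs2, hs3⟩ := popular hw (blk b) (hb b (Finset.mem_insert_self _ _)) hm X'
    refine ⟨Function.update A b s, ?_, ?_⟩
    · intro b' hb'
      rcases Finset.mem_insert.1 hb' with rfl | hb''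
      · rw [Function.update_self]; exact ⟨hs1, hs2⟩
      · rw [Function.update_of_ne (by rintro rfl; exact hbB hb'')]
        exact hA1 b' hb''
    · rw [Finset.card_insert_of_notMem hbB]
      set X'' := X.filter (fun χ => ∀ b' ∈ insert b B, ¬ Mono χ (Function.update A b s b')) with hX''
      have hsub : X'' ⊆ X'.filter (fun χ => ¬ Mono χ s) := by
        intro χ hχ
        rw [hX'', Finset.mem_filter] at hχ
        rw [Finset.mem_filter, hX', Finset.mem_filter]
        refine ⟨⟨hχ.1, ?_⟩, ?_⟩
        · intro b' hb'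
          have := hχ.2 b' (Finset.mem_insert_of_mem hb')
          rwa [Function.update_of_ne (by rintro rfl; exact hbB hb')] at this
        · have := hχ.2 b (Finset.mem_insert_self _ _)
          rwa [Function.update_self] at this
      have hcard := Finset.card_filter_add_card_filter_not (s := X') (fun χ => Mono χ s)
      have hle := Finset.card_le_card hsub
      have hpos : 1 ≤ 2 ^ w := Nat.one_le_two_pow
      obtain ⟨W, hW⟩ : ∃ W, 2 ^ w = W + 1 := ⟨2 ^ w - 1, by omega⟩
      rw [hW] at hs3 hA2 ⊢
      simp only [Nat.add_sub_cancel] at hA2 ⊢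
      have key : X''.card * (W + 1) ≤ X'.card * W := by
        nlinarith
      calc X''.card * (W + 1) ^ (B.card + 1) = (X''.card * (W+1)) * (W+1) ^ B.card := by ring
        _ ≤ (X'.card * W) * (W+1) ^ B.card := Nat.mul_le_mul_right _ key
        _ = (X'.card * (W+1) ^ B.card) * W := by ring
        _ ≤ (X.card * W ^ B.card) * W := Nat.mul_le_mul_right _ hA2
        _ = X.card * W ^ (B.card + 1) := by ring

/-- rank blocks of a finite set -/
lemma rank_block {n : ℕ} (F : Finset (Fin n)) (w : ℕ) (hw : 0 < w) (hF : w ∣ F.card) (k : ℕ)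
    (hk : ∃ i ∈ F, (F.filter (fun j => j < i)).card / w = k) :
    (F.filter (fun i => (F.filter (fun j => j < i)).card / w = k)).card = w := by
  classical
  set r : Fin n → ℕ := fun i => (F.filter (fun j => j < i)).card with hr
  have hinj : Set.InjOn r F := by
    intro i hi i' hi' h
    by_contra hne
    rcases lt_or_gt_of_ne hne with hlt | hlt
    · have : r i < r i' := by
        apply Finset.card_lt_card
        rw [Finset.ssubset_iff_of_subset]
        · exact ⟨i, Finset.mem_filter.2 ⟨hi, hlt⟩, by simp⟩
        · intro j hj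
          rw [Finset.mem_filter] at *
          exact ⟨hj.1, hj.2.trans hlt⟩
      omega
    · have : r i' < r i := by
        apply Finset.card_lt_card
        rw [Finset.ssubset_iff_of_subset]
        · exact ⟨i', Finset.mem_filter.2 ⟨hi', hlt⟩, by simp⟩
        · intro j hj
          rw [Finset.mem_filter] at *
          exact ⟨hj.1, hj.2.trans hlt⟩
      omega
  have himg : F.image r = Finset.range F.card := by
    apply Finset.eq_of_subset_of_card_le
    · intro x hx
      obtain ⟨i, hi, rfl⟩ := Finset.mem_image.1 hx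
      rw [Finset.mem_range]
      apply Finset.card_lt_card
      rw [Finset.ssubset_iff_of_subset (Finset.filter_subset _ _)]
      exact ⟨i, hi, by simp⟩
    · rw [Finset.card_range, Finset.card_image_of_injOn hinj]
  have h1 : (F.filter (fun i => r i / w = k)).card = ((F.filter (fun i => r i / w = k)).image r).card := by
    rw [Finset.card_image_of_injOn]
    intro i hi i' hi' h
    exact hinj (Finset.mem_filter.1 hi).1 (Finset.mem_filter.1 hi').1 h
  rw [h1]
  have h2 : (F.filter (fun i => r i / w = k)).image r = Finset.Ico (k * w) ((k + 1) * w) := by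
    ext x
    rw [Finset.mem_image, Finset.mem_Ico]
    constructor
    · rintro ⟨i, hi, rfl⟩
      have h3 := (Finset.mem_filter.1 hi).2
      rw [Nat.div_eq_iff hw] at h3
      constructor
      · omega
      · have : (k + 1) * w = k * w + w := by ring
        omega
    · rintro ⟨hx1, hx2⟩
      obtain ⟨i0, hi0, hk0⟩ := hk
      have h3 : r i0 < F.card := by
        rw [← Finset.mem_range, ← himg]; exact Finset.mem_image_of_mem r hi0
      obtain ⟨N, hN⟩ := hF
      have hkN : k < N := by
        rw [← hk0]
        rw [Nat.div_lt_iff_lt_mul hw]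
        rw [mul_comm, ← hN]; exact h3
      have hx3 : x ∈ Finset.range F.card := by
        rw [Finset.mem_range, hN]
        calc x < (k + 1) * w := hx2
          _ ≤ N * w := Nat.mul_le_mul_right _ hkN
          _ = w * N := by ring
      rw [← himg] at hx3
      obtain ⟨i, hi, rfl⟩ := Finset.mem_image.1 hx3
      refine ⟨i, Finset.mem_filter.2 ⟨hi, ?_⟩, rfl⟩
      rw [Nat.div_eq_iff hw]
      have : (k + 1) * w = k * w + w := by ring
      omega
  rw [h2, Nat.card_Ico]
  have : (k + 1) * w = k * w + w := by ring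
  omega

end Pool.Agent.Helper43.Rect
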