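import Mathlib
import Pool.Agent.Helper43.RectA

set_option autoImplicit false

namespace Pool.Agent.Helper43.Rect

open Finset

open Classical in
lemma level {n c m w q : ℕ} (hw : c * (m - 1) < w) (hm : m ≤ w) (hm1 : 1 ≤ m)
    (σ : Fin n → ℕ) (hσ : ∀ u, w * q ∣ (univ.filter (fun i => σ i = u)).card)
    (X : Finset (Fin n → Fin c)) :
    ∃ σ' : Fin n → ℕ, (∀ i, σ' i / 2 = σ i) ∧
      (∀ u, q ∣ (univ.filter (fun i => σ' i = u)).card) ∧
      ∃ X' : Finset (Fin n → Fin c), X'.card * (2^w)^(n/w) ≤ X.card * (2^w-1)^(n/w) ∧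
        ∀ χ ∈ X, χ ∉ X' → ∃ (a b : Fin n) (u : ℕ),
          m ≤ (univ.filter (fun i => a ≤ i ∧ i ≤ b ∧ σ' i = u)).card ∧
          Mono χ (univ.filter (fun i => a ≤ i ∧ i ≤ b ∧ σ' i = u)) := by
  have hw0 : 0 < w := by omega
  set F : ℕ → Finset (Fin n) := fun u => univ.filter (fun i => σ i = u) with hF
  set r : Fin n → ℕ := fun i => ((F (σ i)).filter (fun j => j < i)).card with hr
  set B : Fin n → ℕ × ℕ := fun i => (σ i, r i / w) with hB
  set blk : ℕ × ℕ → Finset (Fin n) := fun b => univ.filter (fun i => B i = b) with hblk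
  set blocks : Finset (ℕ × ℕ) := univ.image B with hblocks
  have hcardblk : ∀ b ∈ blocks, (blk b).card = w := by
    intro b hb
    obtain ⟨i0, -, rfl⟩ := Finset.mem_image.1 hb
    have h1 : blk (B i0) = (F (σ i0)).filter (fun i => ((F (σ i0)).filter (fun j => j < i)).card / w = r i0 / w) := by
      ext i
      simp only [hblk, hB, hF, hr, Finset.mem_filter, Finset.mem_univ, true_and, Prod.mk.injEq]
      constructor
      · rintro ⟨h1, h2⟩
        refine ⟨h1, ?_⟩
        rw [h1] at h2
        exact h2
      · rintro ⟨h1, h2⟩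
        refine ⟨h1, ?_⟩
        rw [h1]
        exact h2
    rw [h1]
    apply rank_block _ _ hw0 (dvd_trans (Dvd.intro _ rfl) (hσ (σ i0)))
    exact ⟨i0, by simp [hF], rfl⟩
  obtain ⟨A, hA1, hA2⟩ := greedy hw hm X blk blocks hcardblk
  have hnblocks : blocks.card = n / w := by
    have h1 := Finset.card_eq_sum_card_image B (univ : Finset (Fin n))
    rw [Finset.sum_congr rfl (fun b hb => hcardblk b hb)] at h1
    rw [Finset.sum_const, smul_eq_mul, Finset.card_univ, Fintype.card_fin] at h1
    rw [h1, Nat.mul_div_cancel _ hw0]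
  have hBmem : ∀ i, B i ∈ blocks := fun i => Finset.mem_image_of_mem B (Finset.mem_univ i)
  have hAB : ∀ b ∈ blocks, ∀ i ∈ A b, B i = b := by
    intro b hb i hi
    exact (Finset.mem_filter.1 ((hA1 b hb).1 hi)).2
  set σ' : Fin n → ℕ := fun i => 2 * σ i + (if i ∈ A (B i) then 0 else 1) with hσ'
  have hdiv : ∀ i, σ' i / 2 = σ i := by
    intro i
    simp only [hσ']
    split_ifs <;> omega
  refine ⟨σ', hdiv, ?_, X.filter (fun χ => ∀ b ∈ blocks, ¬ Mono χ (A b)), by rw [← hnblocks]; exact hA2, ?_⟩
  · -- divisibility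
    intro u
    have hq : q ∣ (blocks.filter (fun b => b.1 = u / 2)).card := by
      have h1 := hσ (u / 2)
      have h2 : (univ.filter (fun i => σ i = u / 2)).card = w * (blocks.filter (fun b => b.1 = u / 2)).card := by
        rw [Finset.card_eq_sum_card_fiberwise (f := B) (t := blocks) (fun i _ => hBmem i)]
        rw [Finset.card_filter, Finset.mul_sum]
        apply Finset.sum_congr rfl
        intro b hb
        split_ifs with hbu
        · rw [mul_one, ← hcardblk b hb]
          congr 1
          ext i
          simp only [hblk, Finset.mem_filter, Finset.mem_univ, true_and]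
          constructor
          · exact fun h => h.2
          · intro h
            refine ⟨?_, h⟩
            rw [← hbu, ← h]
        · rw [mul_zero, Finset.card_eq_zero, Finset.filter_eq_empty_iff]
          intro i hi h
          apply hbu
          rw [← h]
          exact (Finset.mem_filter.1 hi).2
      rw [h2] at h1
      exact Nat.dvd_of_mul_dvd_mul_left hw0 h1
    have h3 : ∃ d, (univ.filter (fun i => σ' i = u)).card = d * (blocks.filter (fun b => b.1 = u / 2)).card := by
      rcases Nat.mod_two_eq_zero_or_one u with hu | hu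
      · refine ⟨m, ?_⟩
        rw [Finset.card_eq_sum_card_fiberwise (f := B) (t := blocks) (fun i _ => hBmem i)]
        rw [Finset.card_filter, Finset.mul_sum]
        apply Finset.sum_congr rfl
        intro b hb
        split_ifs with hbu
        · rw [mul_one, ← (hA1 b hb).2]
          congr 1
          ext i
          simp only [Finset.mem_filter, Finset.mem_univ, true_and]
          constructor
          · rintro ⟨h1, h2⟩
            by_contra h3
            rw [← h2] at h3
            simp only [hσ', if_neg h3] at h1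
            omega
          · intro h
            have h4 := hAB b hb i h
            refine ⟨?_, h4⟩
            have h5 : i ∈ A (B i) := by rw [h4]; exact h
            have h6 : σ i = u / 2 := by rw [← hbu, ← h4]
            simp only [hσ', if_pos h5]
            omega
        · rw [mul_zero, Finset.card_eq_zero, Finset.filter_eq_empty_iff]
          intro i hi h
          apply hbu
          rw [← h]
          have h1 := (Finset.mem_filter.1 hi).2
          rw [← h1, hdiv]
      · refine ⟨w - m, ?_⟩
        rw [Finset.card_eq_sum_card_fiberwise (f := B) (t := blocks) (fun i _ => hBmem i)]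
        rw [Finset.card_filter, Finset.mul_sum]
        apply Finset.sum_congr rfl
        intro b hb
        split_ifs with hbu
        · rw [mul_one, ← (hA1 b hb).2, ← hcardblk b hb, ← Finset.card_sdiff_of_subset (hA1 b hb).1]
          congr 1
          ext i
          simp only [Finset.mem_filter, Finset.mem_univ, true_and, Finset.mem_sdiff, hblk]
          constructor
          · rintro ⟨h1, h2⟩
            refine ⟨h2, ?_⟩
            intro h3
            rw [← h2] at h3
            simp only [hσ', if_pos h3] at h1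
            omega
          · rintro ⟨h1, h2⟩
            refine ⟨?_, h1⟩
            have h5 : i ∉ A (B i) := by rw [h1]; exact h2
            have h6 : σ i = u / 2 := by rw [← hbu, ← h1]
            simp only [hσ', if_neg h5]
            omega
        · rw [mul_zero, Finset.card_eq_zero, Finset.filter_eq_empty_iff]
          intro i hi h
          apply hbu
          rw [← h]
          have h1 := (Finset.mem_filter.1 hi).2
          rw [← h1, hdiv]
    obtain ⟨d, hd⟩ := h3
    rw [hd]
    exact Dvd.dvd.mul_left hq d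
  · -- success
    intro χ hχ hχ'
    rw [Finset.mem_filter, not_and] at hχ'
    have h1 := hχ' hχ
    push Not at h1
    obtain ⟨b, hb, hmono⟩ := h1
    obtain ⟨hAs, hAc⟩ := hA1 b hb
    have hne : (A b).Nonempty := by
      rw [← Finset.card_pos, hAc]; omega
    refine ⟨(A b).min' hne, (A b).max' hne, 2 * b.1, ?_⟩
    have hset : (univ.filter (fun i => (A b).min' hne ≤ i ∧ i ≤ (A b).max' hne ∧ σ' i = 2 * b.1)) = A b := by
      ext i
      simp only [Finset.mem_filter, Finset.mem_univ, true_and]
      constructor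
      · rintro ⟨h1, h2, h3⟩
        have hσi : σ i = b.1 := by rw [← hdiv, h3]; omega
        have hiA : i ∈ A (B i) := by
          by_contra h4
          simp only [hσ', if_neg h4] at h3
          omega
        have hmin := hAB b hb _ ((A b).min'_mem hne)
        have hmax := hAB b hb _ ((A b).max'_mem hne)
        have hmono_r : ∀ i j : Fin n, σ i = σ j → i ≤ j → r i ≤ r j := by
          intro i j hij hle
          apply Finset.card_le_card
          intro k hk
          rw [Finset.mem_filter] at *
          rw [← hij]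
          exact ⟨hk.1, lt_of_lt_of_le hk.2 hle⟩
        have hσmin : σ ((A b).min' hne) = b.1 := congrArg Prod.fst hmin
        have hσmax : σ ((A b).max' hne) = b.1 := congrArg Prod.fst hmax
        have hrmin : r ((A b).min' hne) / w = b.2 := congrArg Prod.snd hmin
        have hrmax : r ((A b).max' hne) / w = b.2 := congrArg Prod.snd hmax
        have e1 := hmono_r _ _ (hσmin.trans hσi.symm) h1
        have e2 := hmono_r _ _ (hσi.trans hσmax.symm) h2
        have e3 := Nat.div_le_div_right (c := w) e1
        have e4 := Nat.div_le_div_right (c := w) e2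
        have hBi : B i = b := by
          apply Prod.ext
          · exact hσi
          · show r i / w = b.2
            omega
        rw [hBi] at hiA
        exact hiA
      · intro hi
        refine ⟨Finset.min'_le _ _ hi, Finset.le_max' _ _ hi, ?_⟩
        have h4 := hAB b hb i hi
        have h5 : i ∈ A (B i) := by rw [h4]; exact hi
        have h6 : σ i = b.1 := by rw [← h4]
        simp only [hσ', if_pos h5, h6]
        rfl
    rw [hset]
    exact ⟨hAc.ge, hmono⟩

open Classical in
lemma claim {n c m w : ℕ} (hw : c * (m - 1) < w) (hm : m ≤ w) (hm1 : 1 ≤ m) (T : ℕ) :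
    ∀ (σ : Fin n → ℕ) (_ : ∀ u, w ^ T ∣ (univ.filter (fun i => σ i = u)).card)
    (X : Finset (Fin n → Fin c)) (_ : X.card * ((2^w-1)^(n/w))^T < ((2^w)^(n/w))^T),
    ∃ Y : Fin n → ℕ, (∃ j, ∀ i, σ i = Y i / 2^j) ∧
      ∀ χ ∈ X, ∃ (a b : Fin n) (u j : ℕ),
          m ≤ (univ.filter (fun i => a ≤ i ∧ i ≤ b ∧ Y i / 2^j = u)).card ∧
          Mono χ (univ.filter (fun i => a ≤ i ∧ i ≤ b ∧ Y i / 2^j = u)) := by
  induction T with
  | zero =>
    intro σ _ X hX
    refine ⟨σ, ⟨0, by simp⟩, ?_⟩
    have : X = ∅ := by
      rw [← Finset.card_eq_zero]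
      simpa using hX
    rw [this]
    simp
  | succ T ih =>
    intro σ hσ X hX
    obtain ⟨σ', h1, h2, X', h3, h4⟩ := level (q := w ^ T) hw hm hm1 σ (by
      intro u; have := hσ u; rwa [pow_succ, mul_comm] at this) X
    have hX' : X'.card * ((2^w-1)^(n/w))^T < ((2^w)^(n/w))^T := by
      set P := (2^w)^(n/w) with hP
      set Q := (2^w-1)^(n/w) with hQ
      have hP0 : 0 < P := by positivity
      have : P * (X'.card * Q ^ T) < P * P ^ T := by
        calc P * (X'.card * Q ^ T) = (X'.card * P) * Q ^ T := by ring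
          _ ≤ (X.card * Q) * Q ^ T := Nat.mul_le_mul_right _ h3
          _ = X.card * Q ^ (T + 1) := by ring
          _ < P ^ (T + 1) := hX
          _ = P * P ^ T := by ring
      exact lt_of_mul_lt_mul_left this (Nat.zero_le _)
    obtain ⟨Y, ⟨j, hj⟩, hY⟩ := ih σ' h2 X' hX'
    refine ⟨Y, ⟨j + 1, ?_⟩, ?_⟩
    · intro i
      rw [← h1, hj, Nat.div_div_eq_div_mul, pow_succ]
    · intro χ hχ
      by_cases hχ' : χ ∈ X'
      · exact hY χ hχ'
      · obtain ⟨a, b, u, h5⟩ := h4 χ hχ hχ'
        refine ⟨a, b, u, j, ?_⟩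
        simp only [← hj]
        exact h5

open Classical in
/-- The theorem of Chen, Pach, Szegedy and Tardos on axis-parallel rectangles. -/
theorem rectangles (c m : ℕ) (hm1 : 1 ≤ m) : ∃ (n : ℕ) (Y : Fin n → ℕ), ∀ χ : Fin n → Fin c,
    ∃ (a b : Fin n) (u j : ℕ),
          m ≤ (univ.filter (fun i => a ≤ i ∧ i ≤ b ∧ Y i / 2^j = u)).card ∧
          Mono χ (univ.filter (fun i => a ≤ i ∧ i ≤ b ∧ Y i / 2^j = u)) := by
  set w := c * (m - 1) + m with hw
  have hw0 : 0 < w := by omega
  obtain ⟨T, hT⟩ : ∃ T, c ^ w * (2^w-1)^T < (2^w)^T := by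
    have h2 : (1 : ℝ) < 2 ^ w := one_lt_pow₀ (by norm_num) (by omega)
    obtain ⟨T, hT⟩ := exists_pow_lt_of_lt_one (x := 1 / ((c : ℝ) ^ w + 1)) (y := ((2:ℝ)^w - 1) / 2^w)
      (by positivity) (by rw [div_lt_one (by positivity)]; linarith)
    refine ⟨T, ?_⟩
    have h3 : ((c ^ w * (2^w-1)^T : ℕ) : ℝ) < (((2^w)^T : ℕ) : ℝ) := by
      have hcast : ((2^w - 1 : ℕ) : ℝ) = (2:ℝ)^w - 1 := by
        rw [Nat.cast_sub Nat.one_le_two_pow]; push_cast; ring
      rw [Nat.cast_mul, Nat.cast_pow, Nat.cast_pow, hcast]
      push_cast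
      rw [div_pow, div_lt_div_iff₀ (by positivity) (by positivity), one_mul] at hT
      have h4 : 0 ≤ ((2:ℝ)^w-1)^T := pow_nonneg (by linarith) _
      nlinarith
    exact_mod_cast h3
  refine ⟨w ^ (T + 1), ?_⟩
  have hn : w ^ (T + 1) / w = w ^ T := by rw [pow_succ, Nat.mul_div_cancel _ hw0]
  obtain ⟨Y, -, hY⟩ := claim (n := w ^ (T+1)) (c := c) (m := m) (w := w) (by omega) (by omega) hm1 T
    (fun _ => 0) (by
      intro u
      by_cases hu : u = 0
      · subst hu
        simp only [Finset.filter_true, Finset.card_univ, Fintype.card_fin]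
        exact pow_dvd_pow _ (by omega)
      · rw [Finset.filter_false_of_mem (by intro i _ h; exact hu h.symm)]
        simp) univ (by
      rw [Finset.card_univ, Fintype.card_fun, Fintype.card_fin, Fintype.card_fin, hn]
      have h1 : c ^ (w ^ (T+1)) = (c ^ w) ^ (w ^ T) := by rw [← pow_mul, pow_succ, mul_comm]
      have h2 : ((2 ^ w - 1) ^ (w ^ T)) ^ T = ((2 ^ w - 1) ^ T) ^ (w ^ T) := by
        rw [← pow_mul, ← pow_mul, mul_comm]
      have h3 : ((2 ^ w) ^ (w ^ T)) ^ T = ((2 ^ w) ^ T) ^ (w ^ T) := by
        rw [← pow_mul (2 ^ w), ← pow_mul (2 ^ w), mul_comm]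
      rw [h1, h2, h3, ← mul_pow]
      exact Nat.pow_lt_pow_left hT (by positivity))
  exact ⟨Y, fun χ => hY χ (Finset.mem_univ _)⟩

end Pool.Agent.Helper43.Rect
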