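import Pool.Agent.Helper43.SphDefs

namespace Pool.Helper43.Sph

open Finset

set_option linter.unusedSectionVars false

variable {V ι : Type} [Fintype V] [DecidableEq V] [Fintype ι] [DecidableEq ι]

theorem bdry_apply (c : Finset V → ZMod 2) (τ : Finset V) :
    bdry V c τ = ∑ v ∈ Finset.univ.filter (fun v => v ∉ τ), c (insert v τ) := rfl

theorem add_self2 (x : ZMod 2) : x + x = 0 := CharTwo.add_self_eq_zero x

theorem bdry_bdry (c : Finset V → ZMod 2) : bdry V (bdry V c) = 0 := by
  funext τ
  rw [bdry_apply]
  simp only [bdry_apply]
  rw [Finset.sum_sigma']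
  refine Finset.sum_involution (fun p _ => ⟨p.2, p.1⟩) ?_ ?_ ?_ ?_
  · rintro ⟨v, w⟩ _
    show c (insert w (insert v τ)) + c (insert v (insert w τ)) = 0
    rw [Finset.insert_comm]
    exact add_self2 _
  · rintro ⟨v, w⟩ h _ heq
    simp only [Finset.mem_sigma, Finset.mem_filter, Finset.mem_univ, true_and,
      Finset.mem_insert, not_or] at h
    have : w = v := congrArg Sigma.fst heq
    exact h.2.1 this
  · rintro ⟨v, w⟩ h
    simp only [Finset.mem_sigma, Finset.mem_filter, Finset.mem_univ, true_and,
      Finset.mem_insert, not_or] at h ⊢
    exact ⟨h.2.2, fun e => h.2.1 e.symm, h.1⟩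
  · rintro ⟨v, w⟩ _
    rfl

/-- the sets `G` disjoint from `F` such that no colour class is contained in `G ∪ F` -/
def XX (π : V → ι) (F : Finset V) : Set (Finset V) :=
  {G | Disjoint G F ∧ ∀ j, ∃ v, π v = j ∧ v ∉ G ∧ v ∉ F}

/-- colour class `j` outside `F` -/
def Bl (π : V → ι) (F : Finset V) (j : ι) : Finset V :=
  Finset.univ.filter (fun v => π v = j ∧ v ∉ F)

theorem mem_Bl {π : V → ι} {F : Finset V} {j : ι} {v : V} :
    v ∈ Bl π F j ↔ π v = j ∧ v ∉ F := by simp [Bl]

theorem chains_mem {K : Set (Finset V)} {s : ℕ} {c : Finset V → ZMod 2}
    (hc : c ∈ chains K s) {σ : Finset V} (h : c σ ≠ 0) : σ ∈ K ∧ σ.card = s := hc σ h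

theorem one_step {π : V → ι} {F : Finset V} {s : ℕ} {c : Finset V → ZMod 2}
    (hc : c ∈ chains (XX π F) s) (hz : bdry V c = 0) (j : ι) (b : V) (hb : b ∈ Bl π F j) :
    ∃ e ∈ chains (XX π F) (s + 1), ∀ τ, (c + bdry V e) τ =
      if (Bl π F j \ τ).card = 1 then c ((τ ∪ Bl π F j).erase b) else 0 := by
  classical
  obtain ⟨hbj, hbF⟩ := mem_Bl.1 hb
  set X := XX π F with hX
  let e : Finset V → ZMod 2 := fun G => if b ∈ G ∧ G ∈ X then c (G.erase b) else 0
  have he : e ∈ chains X (s + 1) := by
    intro G hG
    simp only [e] at hG
    split_ifs at hG with h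
    · refine ⟨h.2, ?_⟩
      have := (hc _ hG).2
      rw [Finset.card_erase_of_mem h.1] at this
      have h0 : 0 < G.card := Finset.card_pos.2 ⟨b, h.1⟩
      omega
    · exact absurd rfl hG
  refine ⟨e, he, fun τ => ?_⟩
  rw [Pi.add_apply, bdry_apply]
  by_cases hbτ : b ∈ τ
  · -- the case `b ∈ τ`
    by_cases hτ : τ ∈ X
    · -- cycle condition
      have hcyc : c τ = ∑ v ∈ univ.filter (fun v => v ∉ τ), c ((insert v τ).erase b) := by
        have h1 := congrFun hz (τ.erase b)
        rw [bdry_apply] at h1
        have hset : (univ.filter (fun v => v ∉ τ.erase b)) =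
            insert b (univ.filter (fun v => v ∉ τ)) := by
          ext v
          simp only [Finset.mem_filter, Finset.mem_univ, true_and, Finset.mem_erase,
            Finset.mem_insert, not_and]
          constructor
          · intro h
            by_cases hv : v = b
            · exact Or.inl hv
            · exact Or.inr (h hv)
          · rintro (h | h)
            · intro h2; exact absurd h h2
            · intro _; exact h
        rw [hset, Finset.sum_insert (by simp [hbτ]), Finset.insert_erase hbτ] at h1
        have h2 : ∑ v ∈ univ.filter (fun v => v ∉ τ), c (insert v (τ.erase b)) =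
            ∑ v ∈ univ.filter (fun v => v ∉ τ), c ((insert v τ).erase b) := by
          refine Finset.sum_congr rfl (fun v hv => ?_)
          simp only [Finset.mem_filter, Finset.mem_univ, true_and] at hv
          have hvb : v ≠ b := fun h => hv (h ▸ hbτ)
          rw [Finset.erase_insert_of_ne hvb]
        rw [h2] at h1
        have h1' : c τ + ∑ v ∈ univ.filter (fun v => v ∉ τ), c ((insert v τ).erase b) = 0 := h1
        exact CharTwo.add_eq_zero.1 h1'
      have hlhs : c τ + ∑ v ∈ univ.filter (fun v => v ∉ τ), e (insert v τ) =
          ∑ v ∈ univ.filter (fun v => v ∉ τ),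
            if insert v τ ∈ X then 0 else c ((insert v τ).erase b) := by
        rw [hcyc, ← Finset.sum_add_distrib]
        refine Finset.sum_congr rfl (fun v _ => ?_)
        simp only [e]
        by_cases hv : insert v τ ∈ X
        · rw [if_pos ⟨Finset.mem_insert_of_mem hbτ, hv⟩, if_pos hv]
          exact add_self2 _
        · rw [if_neg (fun h => hv h.2), if_neg hv, add_zero]
      rw [hlhs]
      -- nonzero terms
      have hterm : ∀ v, v ∉ τ → insert v τ ∉ X → c ((insert v τ).erase b) ≠ 0 →
          Bl π F j \ τ = {v} := by
        intro v hvτ hins hcv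
        have hmem := (hc _ hcv).1
        have hins2 : ∃ i, ∀ u, π u = i → u ∉ F → u ∈ insert v τ := by
          by_contra hcon
          push Not at hcon
          apply hins
          refine ⟨?_, fun i => ?_⟩
          · rw [Finset.disjoint_left]
            intro u hu huF
            by_cases hub : u = b
            · exact hbF (hub ▸ huF)
            · exact Finset.disjoint_left.1 hmem.1 (Finset.mem_erase.2 ⟨hub, hu⟩) huF
          · obtain ⟨u, h1, h2, h3⟩ := hcon i
            exact ⟨u, h1, h3, h2⟩
        obtain ⟨i, hi⟩ := hins2
        obtain ⟨u, hu1, hu2, hu3⟩ := hmem.2 i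
        have hub : u = b := by
          by_contra hne
          exact hu2 (Finset.mem_erase.2 ⟨hne, hi u hu1 hu3⟩)
        have hij : i = j := by rw [← hu1, hub, hbj]
        subst hij
        obtain ⟨w, hw1, hw2, hw3⟩ := hτ.2 i
        have hw : w = v := by
          have := hi w hw1 hw3
          rcases Finset.mem_insert.1 this with h | h
          · exact h
          · exact absurd h hw2
        ext x
        simp only [Finset.mem_sdiff, mem_Bl, Finset.mem_singleton]
        constructor
        · rintro ⟨⟨h1, h2⟩, h3⟩
          rcases Finset.mem_insert.1 (hi x h1 h2) with h | h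
          · exact h
          · exact absurd h h3
        · rintro rfl
          rw [← hw]
          exact ⟨⟨hw1, hw3⟩, hw2⟩
      split_ifs with hcard
      · obtain ⟨w, hw⟩ := Finset.card_eq_one.1 hcard
        have hwmem : w ∈ Bl π F j \ τ := by rw [hw]; exact Finset.mem_singleton_self w
        have hwτ : w ∉ τ := (Finset.mem_sdiff.1 hwmem).2
        rw [Finset.sum_eq_single w]
        · have hnot : insert w τ ∉ X := by
            intro h
            obtain ⟨u, hu1, hu2, hu3⟩ := h.2 j
            have : u ∈ Bl π F j \ τ := Finset.mem_sdiff.2 ⟨mem_Bl.2 ⟨hu1, hu3⟩,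
              fun h => hu2 (Finset.mem_insert_of_mem h)⟩
            rw [hw, Finset.mem_singleton] at this
            exact hu2 (this ▸ Finset.mem_insert_self _ _)
          rw [if_neg hnot]
          congr 2
          ext x
          simp only [Finset.mem_insert, Finset.mem_union]
          constructor
          · rintro (h | h)
            · right; rw [h]; exact (Finset.mem_sdiff.1 hwmem).1
            · exact Or.inl h
          · rintro (h | h)
            · exact Or.inr h
            · by_cases hx : x ∈ τ
              · exact Or.inr hx
              · left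
                have : x ∈ Bl π F j \ τ := Finset.mem_sdiff.2 ⟨h, hx⟩
                rw [hw, Finset.mem_singleton] at this
                exact this
        · intro v hv hvw
          simp only [Finset.mem_filter, Finset.mem_univ, true_and] at hv
          by_contra hne
          split_ifs at hne with h
          · exact hne rfl
          · have := hterm v hv h hne
            rw [hw, Finset.singleton_inj] at this
            exact hvw this.symm
        · intro h
          exact absurd (by simpa using hwτ) h
      · apply Finset.sum_eq_zero
        intro v hv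
        simp only [Finset.mem_filter, Finset.mem_univ, true_and] at hv
        by_contra hne
        split_ifs at hne with h
        · exact hne rfl
        · have := hterm v hv h hne
          rw [this] at hcard
          exact hcard (Finset.card_singleton v)
    · -- `τ ∉ X`
      have h0 : c τ = 0 := by
        by_contra h
        exact hτ (hc _ h).1
      have h1 : ∑ v ∈ univ.filter (fun v => v ∉ τ), e (insert v τ) = 0 := by
        apply Finset.sum_eq_zero
        intro v _
        simp only [e]
        rw [if_neg]
        rintro ⟨_, h⟩
        apply hτ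
        refine ⟨Finset.disjoint_of_subset_left (Finset.subset_insert _ _) h.1, fun i => ?_⟩
        obtain ⟨u, h1, h2, h3⟩ := h.2 i
        exact ⟨u, h1, fun h4 => h2 (Finset.mem_insert_of_mem h4), h3⟩
      rw [h0, h1, add_zero]
      split_ifs with hcard
      · by_contra hne
        have hmem := (hc _ (fun h => hne h.symm)).1
        apply hτ
        refine ⟨?_, fun i => ?_⟩
        · rw [Finset.disjoint_left]
          intro u hu huF
          by_cases hub : u = b
          · exact hbF (hub ▸ huF)
          · exact Finset.disjoint_left.1 hmem.1
              (Finset.mem_erase.2 ⟨hub, Finset.mem_union_left _ hu⟩) huF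
        · by_cases hij : i = j
          · subst hij
            obtain ⟨w, hw⟩ := Finset.card_eq_one.1 hcard
            have hwmem : w ∈ Bl π F i \ τ := by rw [hw]; exact Finset.mem_singleton_self w
            obtain ⟨h1, h2⟩ := Finset.mem_sdiff.1 hwmem
            exact ⟨w, (mem_Bl.1 h1).1, h2, (mem_Bl.1 h1).2⟩
          · obtain ⟨u, hu1, hu2, hu3⟩ := hmem.2 i
            refine ⟨u, hu1, fun h4 => hu2 (Finset.mem_erase.2 ⟨?_, Finset.mem_union_left _ h4⟩), hu3⟩
            intro hub
            exact hij (by rw [← hu1, hub, hbj])
      · rfl
  · -- the case `b ∉ τ`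
    have h1 : ∑ v ∈ univ.filter (fun v => v ∉ τ), e (insert v τ) =
        if insert b τ ∈ X then c τ else 0 := by
      rw [Finset.sum_eq_single b]
      · simp only [e]
        by_cases h : insert b τ ∈ X
        · rw [if_pos ⟨Finset.mem_insert_self _ _, h⟩, if_pos h, Finset.erase_insert hbτ]
        · rw [if_neg (fun h' => h h'.2), if_neg h]
      · intro v _ hvb
        simp only [e]
        rw [if_neg]
        rintro ⟨h, _⟩
        rcases Finset.mem_insert.1 h with h | h
        · exact hvb h.symm
        · exact hbτ h
      · intro h
        exact absurd (by simpa using hbτ) h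
    rw [h1]
    have hbmem : b ∈ Bl π F j \ τ := Finset.mem_sdiff.2 ⟨hb, hbτ⟩
    by_cases hc0 : c τ = 0
    · rw [hc0, ite_self, add_zero]
      split_ifs with hcard
      · have hw : Bl π F j \ τ = {b} := by
          obtain ⟨w, hw⟩ := Finset.card_eq_one.1 hcard
          rw [hw, Finset.mem_singleton] at hbmem
          rw [hw, hbmem]
        have : (τ ∪ Bl π F j).erase b = τ := by
          ext x
          simp only [Finset.mem_erase, Finset.mem_union]
          constructor
          · rintro ⟨h2, h3 | h3⟩
            · exact h3
            · by_contra hx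
              have : x ∈ Bl π F j \ τ := Finset.mem_sdiff.2 ⟨h3, hx⟩
              rw [hw, Finset.mem_singleton] at this
              exact h2 this
          · intro hx
            exact ⟨fun h => hbτ (h ▸ hx), Or.inl hx⟩
        rw [this, hc0]
      · rfl
    · have hτ := (hc _ hc0).1
      by_cases hcard : (Bl π F j \ τ).card = 1
      · have hw : Bl π F j \ τ = {b} := by
          obtain ⟨w, hw⟩ := Finset.card_eq_one.1 hcard
          rw [hw, Finset.mem_singleton] at hbmem
          rw [hw, hbmem]
        have hnot : insert b τ ∉ X := by
          intro h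
          obtain ⟨u, hu1, hu2, hu3⟩ := h.2 j
          have : u ∈ Bl π F j \ τ := Finset.mem_sdiff.2 ⟨mem_Bl.2 ⟨hu1, hu3⟩,
            fun h => hu2 (Finset.mem_insert_of_mem h)⟩
          rw [hw, Finset.mem_singleton] at this
          exact hu2 (this ▸ Finset.mem_insert_self _ _)
        rw [if_neg hnot, if_pos hcard, add_zero]
        congr 1
        ext x
        simp only [Finset.mem_erase, Finset.mem_union]
        constructor
        · intro hx
          exact ⟨fun h => hbτ (h ▸ hx), Or.inl hx⟩
        · rintro ⟨h2, h3 | h3⟩
          · exact h3
          · by_contra hx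
            have : x ∈ Bl π F j \ τ := Finset.mem_sdiff.2 ⟨h3, hx⟩
            rw [hw, Finset.mem_singleton] at this
            exact h2 this
      · have hins : insert b τ ∈ X := by
          refine ⟨?_, fun i => ?_⟩
          · rw [Finset.disjoint_insert_left]
            exact ⟨hbF, hτ.1⟩
          · by_cases hij : i = j
            · subst hij
              have : ∃ w ∈ Bl π F i \ τ, w ≠ b := by
                by_contra hcon
                push Not at hcon
                apply hcard
                rw [Finset.card_eq_one]
                exact ⟨b, Finset.eq_singleton_iff_unique_mem.2 ⟨hbmem, hcon⟩⟩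
              obtain ⟨w, hw, hwb⟩ := this
              obtain ⟨h1, h2⟩ := Finset.mem_sdiff.1 hw
              refine ⟨w, (mem_Bl.1 h1).1, ?_, (mem_Bl.1 h1).2⟩
              rw [Finset.mem_insert, not_or]
              exact ⟨hwb, h2⟩
            · obtain ⟨u, hu1, hu2, hu3⟩ := hτ.2 i
              refine ⟨u, hu1, ?_, hu3⟩
              rw [Finset.mem_insert, not_or]
              refine ⟨?_, hu2⟩
              intro hub
              exact hij (by rw [← hu1, hub, hbj])
        rw [if_pos hins, if_neg hcard]
        exact add_self2 _

end Pool.Helper43.Sph
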