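import Pool.Agent.Helper43.SphA

namespace Pool.Helper43.Sph

open Finset

set_option linter.unusedSectionVars false

variable {V ι : Type} [Fintype V] [DecidableEq V] [Fintype ι] [DecidableEq ι]

theorem iterate {π : V → ι} {F : Finset V} {s : ℕ} (b : ι → V) (hb : ∀ j, b j ∈ Bl π F j)
    (J : Finset ι) : ∀ {c : Finset V → ZMod 2}, c ∈ chains (XX π F) s → bdry V c = 0 →
    ∃ e ∈ chains (XX π F) (s + 1), ∀ τ, (c + bdry V e) τ =
      if (∀ j ∈ J, (Bl π F j \ τ).card = 1) then c ((τ ∪ J.biUnion (Bl π F)) \ J.image b)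
      else 0 := by
  classical
  induction J using Finset.induction_on with
  | empty =>
    intro c _ _
    exact ⟨0, Submodule.zero_mem _, fun τ => by simp⟩
  | insert j J hj ih =>
    intro c hc hz
    obtain ⟨e, he, hee⟩ := ih hc hz
    -- the new cycle
    have hc' : c + bdry V e ∈ chains (XX π F) s := by
      refine Submodule.add_mem _ hc ?_
      intro τ hτ
      rw [bdry_apply] at hτ
      obtain ⟨v, hv, hv2⟩ := Finset.exists_ne_zero_of_sum_ne_zero hτ
      obtain ⟨h1, h2⟩ := he _ hv2
      simp only [Finset.mem_filter, Finset.mem_univ, true_and] at hv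
      rw [Finset.card_insert_of_notMem hv] at h2
      refine ⟨⟨Finset.disjoint_of_subset_left (Finset.subset_insert _ _) h1.1, fun i => ?_⟩,
        by omega⟩
      obtain ⟨u, g1, g2, g3⟩ := h1.2 i
      exact ⟨u, g1, fun h4 => g2 (Finset.mem_insert_of_mem h4), g3⟩
    have hz' : bdry V (c + bdry V e) = 0 := by
      rw [map_add, hz, bdry_bdry, add_zero]
    obtain ⟨e', he', hee'⟩ := one_step hc' hz' j (b j) (hb j)
    refine ⟨e + e', Submodule.add_mem _ he he', fun τ => ?_⟩
    rw [map_add, ← add_assoc, hee' τ, hee]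
    -- compare the two descriptions
    have hBl : ∀ i ∈ J, Bl π F i \ ((τ ∪ Bl π F j).erase (b j)) = Bl π F i \ τ := by
      intro i hi
      have hij : i ≠ j := fun h => hj (h ▸ hi)
      ext x
      simp only [Finset.mem_sdiff, Finset.mem_erase, Finset.mem_union, mem_Bl, not_and, not_or]
      constructor
      · rintro ⟨⟨h1, h2⟩, h3⟩
        refine ⟨⟨h1, h2⟩, (h3 ?_).1⟩
        rintro rfl
        exact hij (h1.symm.trans (mem_Bl.1 (hb j)).1)
      · rintro ⟨⟨h1, h2⟩, h3⟩
        refine ⟨⟨h1, h2⟩, fun _ => ⟨h3, fun h4 => ?_⟩⟩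
        exact absurd (h1.symm.trans h4) hij
    have hset : ((τ ∪ Bl π F j).erase (b j) ∪ J.biUnion (Bl π F)) \ J.image b =
        (τ ∪ (insert j J).biUnion (Bl π F)) \ (insert j J).image b := by
      ext x
      simp only [Finset.mem_sdiff, Finset.mem_erase, Finset.mem_union, Finset.mem_biUnion,
        Finset.mem_insert, Finset.mem_image]
      constructor
      · rintro ⟨h1 | ⟨i, hi, hxi⟩, h2⟩
        · refine ⟨?_, ?_⟩
          · rcases h1.2 with h | h
            · exact Or.inl h
            · exact Or.inr ⟨j, Or.inl rfl, h⟩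
          · rintro ⟨i, rfl | hi, hi2⟩
            · exact h1.1 hi2.symm
            · exact h2 ⟨i, hi, hi2⟩
        · refine ⟨Or.inr ⟨i, Or.inr hi, hxi⟩, ?_⟩
          rintro ⟨i', rfl | hi', hi2⟩
          · have e1 := (mem_Bl.1 hxi).1
            have e2 := (mem_Bl.1 (hb i')).1
            rw [hi2, e1] at e2
            exact hj (e2 ▸ hi)
          · exact h2 ⟨i', hi', hi2⟩
      · rintro ⟨h1, h2⟩
        have hxj : x ≠ b j := fun h => h2 ⟨j, Or.inl rfl, h.symm⟩
        refine ⟨?_, fun ⟨i, hi, hi2⟩ => h2 ⟨i, Or.inr hi, hi2⟩⟩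
        rcases h1 with h | ⟨i, rfl | hi, hxi⟩
        · exact Or.inl ⟨hxj, Or.inl h⟩
        · exact Or.inl ⟨hxj, Or.inr hxi⟩
        · exact Or.inr ⟨i, hi, hxi⟩
    by_cases hcard : (Bl π F j \ τ).card = 1
    · rw [if_pos hcard, hset]
      congr 1
      apply propext
      constructor
      · intro h i hi
        rcases Finset.mem_insert.1 hi with rfl | hi
        · exact hcard
        · rw [← hBl i hi]; exact h i hi
      · intro h i hi
        rw [hBl i hi]; exact h i (Finset.mem_insert_of_mem hi)
    · rw [if_neg hcard, if_neg]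
      intro h
      exact hcard (h j (Finset.mem_insert_self _ _))

theorem card_le_of_mem {π : V → ι} {F G : Finset V} (hG : G ∈ XX π F) :
    G.card + F.card + Fintype.card ι ≤ Fintype.card V := by
  choose v hv using hG.2
  have hinj : Function.Injective v := by
    intro i j h
    rw [← (hv i).1, ← (hv j).1, h]
  have h1 : Disjoint (G ∪ F) (univ.image v) := by
    rw [Finset.disjoint_left]
    intro x hx hx2
    obtain ⟨i, _, rfl⟩ := Finset.mem_image.1 hx2
    rcases Finset.mem_union.1 hx with h | h
    · exact (hv i).2.1 h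
    · exact (hv i).2.2 h
  have h2 := Finset.card_le_univ ((G ∪ F) ∪ univ.image v)
  rw [Finset.card_union_of_disjoint h1, Finset.card_union_of_disjoint hG.1,
    Finset.card_image_of_injective _ hinj, Finset.card_univ] at h2
  exact h2

/-- the facets -/
def IsTop (π : V → ι) (F : Finset V) (τ : Finset V) : Prop :=
  Disjoint τ F ∧ ∀ j, (Bl π F j \ τ).card = 1

theorem top_mem {π : V → ι} {F τ : Finset V} (h : IsTop π F τ) : τ ∈ XX π F := by
  refine ⟨h.1, fun j => ?_⟩
  obtain ⟨w, hw⟩ := Finset.card_eq_one.1 (h.2 j)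
  have hwmem : w ∈ Bl π F j \ τ := by rw [hw]; exact Finset.mem_singleton_self w
  obtain ⟨h1, h2⟩ := Finset.mem_sdiff.1 hwmem
  exact ⟨w, (mem_Bl.1 h1).1, h2, (mem_Bl.1 h1).2⟩

theorem top_card {π : V → ι} {F τ : Finset V} (h : IsTop π F τ) :
    τ.card + F.card + Fintype.card ι = Fintype.card V := by
  have h1 : (τ ∪ F)ᶜ = univ.biUnion (fun j => Bl π F j \ τ) := by
    ext x
    simp only [Finset.mem_compl, Finset.mem_union, not_or, Finset.mem_biUnion, Finset.mem_univ,
      true_and, Finset.mem_sdiff, mem_Bl]
    constructor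
    · rintro ⟨h1, h2⟩
      exact ⟨π x, ⟨rfl, h2⟩, h1⟩
    · rintro ⟨j, ⟨_, h2⟩, h1⟩
      exact ⟨h1, h2⟩
  have h2 : (univ.biUnion (fun j => Bl π F j \ τ)).card = Fintype.card ι := by
    rw [Finset.card_biUnion]
    · rw [Finset.sum_congr rfl (fun j _ => h.2 j)]
      simp
    · intro i _ j _ hij
      rw [Function.onFun, Finset.disjoint_left]
      intro x hx hx2
      have e1 := (mem_Bl.1 (Finset.mem_sdiff.1 hx).1).1
      have e2 := (mem_Bl.1 (Finset.mem_sdiff.1 hx2).1).1
      exact hij (e1.symm.trans e2)
  have h3 := Finset.card_compl_add_card (τ ∪ F)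
  rw [h1, h2, Finset.card_union_of_disjoint h.1] at h3
  omega

/-- the fundamental cycle -/
noncomputable def zz (π : V → ι) (F : Finset V) : Finset V → ZMod 2 := by
  classical
  exact fun τ => if IsTop π F τ then 1 else 0

theorem zz_cycle (π : V → ι) (F : Finset V) : bdry V (zz π F) = 0 := by
  classical
  funext τ
  rw [bdry_apply]
  have h0 : ∑ v ∈ univ.filter (fun v => v ∉ τ), zz π F (insert v τ) =
      (((univ.filter (fun v => v ∉ τ)).filter (fun v => IsTop π F (insert v τ))).card : ZMod 2) := by
    rw [Finset.card_filter]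
    push_cast
    rfl
  rw [h0]
  set S := (univ.filter (fun v => v ∉ τ)).filter (fun v => IsTop π F (insert v τ)) with hS
  by_cases hne : S.Nonempty
  · obtain ⟨v0, hv0⟩ := hne
    simp only [hS, Finset.mem_filter, Finset.mem_univ, true_and] at hv0
    obtain ⟨hv0τ, hdis, htop⟩ := hv0
    have hv0F : v0 ∉ F := by
      intro h
      exact Finset.disjoint_left.1 hdis (Finset.mem_insert_self _ _) h
    set j := π v0 with hj
    have hv0B : v0 ∈ Bl π F j := mem_Bl.2 ⟨hj.symm, hv0F⟩
    have hcardj : (Bl π F j \ τ).card = 2 := by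
      have h1 := htop j
      have h2 : Bl π F j \ insert v0 τ = (Bl π F j \ τ).erase v0 := by
        ext x
        simp only [Finset.mem_sdiff, Finset.mem_insert, Finset.mem_erase, not_or]
        tauto
      rw [h2, Finset.card_erase_of_mem (Finset.mem_sdiff.2 ⟨hv0B, hv0τ⟩)] at h1
      omega
    have hcardi : ∀ i, i ≠ j → (Bl π F i \ τ).card = 1 := by
      intro i hi
      have h1 := htop i
      have h2 : Bl π F i \ insert v0 τ = Bl π F i \ τ := by
        ext x
        simp only [Finset.mem_sdiff, Finset.mem_insert, not_or, mem_Bl]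
        constructor
        · rintro ⟨h3, h4, h5⟩; exact ⟨h3, h5⟩
        · rintro ⟨h3, h4⟩
          refine ⟨h3, ?_, h4⟩
          rintro rfl
          exact hi (h3.1.symm.trans hj.symm)
      rwa [h2] at h1
    have hSeq : S = Bl π F j \ τ := by
      ext v
      simp only [hS, Finset.mem_filter, Finset.mem_univ, true_and, Finset.mem_sdiff]
      constructor
      · rintro ⟨h1, h2, h3⟩
        refine ⟨?_, h1⟩
        have hvF : v ∉ F := fun h => Finset.disjoint_left.1 h2 (Finset.mem_insert_self _ _) h
        refine mem_Bl.2 ⟨?_, hvF⟩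
        by_contra hne
        have h4 := h3 j
        have h5 : Bl π F j \ insert v τ = Bl π F j \ τ := by
          ext x
          simp only [Finset.mem_sdiff, Finset.mem_insert, not_or, mem_Bl]
          constructor
          · rintro ⟨g3, g4, g5⟩; exact ⟨g3, g5⟩
          · rintro ⟨g3, g4⟩
            refine ⟨g3, ?_, g4⟩
            intro hxv
            exact hne (by rw [← hxv]; exact g3.1)
        rw [h5, hcardj] at h4
        omega
      · rintro ⟨h1, h2⟩
        refine ⟨h2, ?_, fun i => ?_⟩
        · rw [Finset.disjoint_insert_left]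
          exact ⟨(mem_Bl.1 h1).2, Finset.disjoint_of_subset_left (Finset.subset_insert _ _) hdis⟩
        · by_cases hi : i = j
          · subst hi
            have h3 : Bl π F j \ insert v τ = (Bl π F j \ τ).erase v := by
              ext x
              simp only [Finset.mem_sdiff, Finset.mem_insert, Finset.mem_erase, not_or]
              tauto
            rw [h3, Finset.card_erase_of_mem (Finset.mem_sdiff.2 ⟨h1, h2⟩), hcardj]
          · have h3 : Bl π F i \ insert v τ = Bl π F i \ τ := by
              ext x
              simp only [Finset.mem_sdiff, Finset.mem_insert, not_or, mem_Bl]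
              constructor
              · rintro ⟨h3, h4, h5⟩; exact ⟨h3, h5⟩
              · rintro ⟨h3, h4⟩
                refine ⟨h3, ?_, h4⟩
                rintro rfl
                exact hi (h3.1.symm.trans (mem_Bl.1 h1).1)
            rw [h3]
            exact hcardi i hi
    rw [hSeq, hcardj]
    rfl
  · rw [Finset.not_nonempty_iff_eq_empty] at hne
    rw [hne]
    rfl

/-- The main homology computation. -/
theorem hasSphereHomology_XX (π : V → ι) (F : Finset V) (hF : ∀ j, ∃ v, π v = j ∧ v ∉ F) :
    HasSphereHomology (XX π F) (Fintype.card V - Fintype.card ι - F.card) := by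
  classical
  choose b hb using hF
  have hb' : ∀ j, b j ∈ Bl π F j := fun j => mem_Bl.2 (hb j)
  set m := Fintype.card V - Fintype.card ι - F.card with hm
  set T0 : Finset V := Fᶜ \ univ.image b with hT0
  have hbinj : Function.Injective b := by
    intro i j h
    rw [← (hb i).1, ← (hb j).1, h]
  have hT0top : IsTop π F T0 := by
    refine ⟨?_, fun j => ?_⟩
    · rw [Finset.disjoint_left]
      intro x hx hxF
      simp only [hT0, Finset.mem_sdiff, Finset.mem_compl] at hx
      exact hx.1 hxF
    · rw [Finset.card_eq_one]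
      refine ⟨b j, ?_⟩
      ext x
      simp only [hT0, Finset.mem_sdiff, mem_Bl, Finset.mem_compl, Finset.mem_image,
        Finset.mem_univ, true_and, Finset.mem_singleton]
      constructor
      · rintro ⟨⟨h1, h2⟩, h3⟩
        by_contra hne
        apply h3
        refine ⟨h2, ?_⟩
        rintro ⟨i, rfl⟩
        exact hne (by rw [← h1, (hb i).1])
      · rintro rfl
        exact ⟨⟨(hb j).1, (hb j).2⟩, fun h => h.2 ⟨j, rfl⟩⟩
  have hT0card : T0.card = m := by
    have := top_card hT0top
    omega
  -- every cycle is homologous to a multiple of `zz`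
  have key : ∀ s, ∀ c ∈ chains (XX π F) s, bdry V c = 0 →
      ∃ e ∈ chains (XX π F) (s + 1), c + bdry V e = c T0 • zz π F := by
    intro s c hc hz
    obtain ⟨e, he, hee⟩ := iterate b hb' univ hc hz
    refine ⟨e, he, ?_⟩
    funext τ
    rw [hee τ, Pi.smul_apply]
    simp only [zz, smul_eq_mul]
    by_cases htop : IsTop π F τ
    · rw [if_pos htop, if_pos (fun j _ => htop.2 j), mul_one]
      congr 1
      ext x
      simp only [hT0, Finset.mem_sdiff, Finset.mem_union, Finset.mem_biUnion, Finset.mem_univ,
        true_and, Finset.mem_compl, mem_Bl]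
      constructor
      · rintro ⟨h1 | ⟨i, h1, h2⟩, h3⟩
        · exact ⟨fun h => Finset.disjoint_left.1 htop.1 h1 h, h3⟩
        · exact ⟨h2, h3⟩
      · rintro ⟨h1, h2⟩
        exact ⟨Or.inr ⟨π x, rfl, h1⟩, h2⟩
    · rw [if_neg htop, mul_zero]
      split_ifs with hall
      · by_contra hne
        have hmem := (hc _ hne).1
        apply htop
        refine ⟨?_, fun j => hall j (Finset.mem_univ _)⟩
        rw [Finset.disjoint_left]
        intro x hx hxF
        refine Finset.disjoint_left.1 hmem.1 (Finset.mem_sdiff.2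
          ⟨Finset.mem_union_left _ hx, ?_⟩) hxF
        rw [Finset.mem_image]
        rintro ⟨i, _, rfl⟩
        exact (hb i).2 hxF
      · rfl
  intro s
  by_cases hs : s = m
  · rw [if_pos hs]
    have hzc : zz π F ∈ cycles (XX π F) s := by
      refine ⟨?_, zz_cycle π F⟩
      intro τ hτ
      simp only [zz] at hτ
      split_ifs at hτ with h
      · refine ⟨top_mem h, ?_⟩
        have := top_card h
        omega
      · exact absurd rfl hτ
    have hbd : ∀ x ∈ boundaries (XX π F) s, x = 0 := by
      rintro x ⟨c, hc, rfl⟩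
      have : c = 0 := by
        funext G
        by_contra hne
        obtain ⟨h1, h2⟩ := hc G hne
        have := card_le_of_mem h1
        omega
      rw [this, map_zero]
    apply finrank_eq_one (Submodule.Quotient.mk ⟨zz π F, hzc⟩)
    · intro h
      rw [Submodule.Quotient.mk_eq_zero] at h
      have h1 := hbd _ h
      have h2 := congrFun h1 T0
      simp only [Submodule.coe_subtype, zz, if_pos hT0top, Pi.zero_apply] at h2
      exact one_ne_zero h2
    · intro w
      obtain ⟨⟨c, hc⟩, rfl⟩ := Submodule.Quotient.mk_surjective _ w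
      refine ⟨c T0, ?_⟩
      rw [← Submodule.Quotient.mk_smul]
      rw [Submodule.Quotient.eq]
      obtain ⟨e, he, hee⟩ := key s c hc.1 hc.2
      show c T0 • zz π F - c ∈ boundaries (XX π F) s
      rw [← hee, add_sub_cancel_left]
      exact ⟨e, he, rfl⟩
  · rw [if_neg hs]
    have : Subsingleton (cycles (XX π F) s ⧸
        (boundaries (XX π F) s).submoduleOf (cycles (XX π F) s)) := by
      rw [Submodule.Quotient.subsingleton_iff, eq_top_iff]
      rintro ⟨c, hc⟩ _
      show c ∈ boundaries (XX π F) s
      obtain ⟨e, he, hee⟩ := key s c hc.1 hc.2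
      have h0 : c T0 = 0 := by
        by_contra hne
        have := (hc.1 _ hne).2
        omega
      rw [h0, zero_smul] at hee
      refine ⟨e, he, ?_⟩
      have h1 : c = - bdry V e := eq_neg_of_add_eq_zero_left hee
      rw [h1]
      funext τ
      rw [Pi.neg_apply, ZMod.neg_eq_self_mod_two]
    exact Module.finrank_zero_of_subsingleton

end Pool.Helper43.Sph
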