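import Pool.Agent.Helper43.SphB

namespace Pool.Helper43.Sph

open Finset

/-- the join of the boundaries of the simplices of dimensions `a 0, ..., a (m-1)` -/
def JJ {m : ℕ} (a : Fin m → ℕ) : Set (Finset (Σ j : Fin m, Fin (a j + 1))) :=
  join (fun j => simplexBoundary (a j))

variable {m : ℕ} {a : Fin m → ℕ}

theorem mem_JJ {σ : Finset (Σ j : Fin m, Fin (a j + 1))} :
    σ ∈ JJ a ↔ ∀ j, ∃ x : Fin (a j + 1), (⟨j, x⟩ : Σ j : Fin m, Fin (a j + 1)) ∉ σ := by
  unfold JJ join simplexBoundary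
  simp only [Set.mem_ofPred_eq]
  refine forall_congr' (fun j => ?_)
  rw [Ne, Finset.eq_univ_iff_forall, not_forall]
  refine exists_congr (fun x => ?_)
  simp

theorem mem_JJ_iff {σ : Finset (Σ j : Fin m, Fin (a j + 1))} :
    σ ∈ JJ a ↔ σ ∈ XX (Sigma.fst : (Σ j : Fin m, Fin (a j + 1)) → Fin m) ∅ := by
  rw [mem_JJ]
  constructor
  · intro h
    refine ⟨Finset.disjoint_empty_right _, fun j => ?_⟩
    obtain ⟨x, hx⟩ := h j
    exact ⟨⟨j, x⟩, rfl, hx, Finset.notMem_empty _⟩
  · intro h j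
    obtain ⟨⟨i, x⟩, h1, h2, _⟩ := h.2 j
    simp only at h1
    subst h1
    exact ⟨x, h2⟩

theorem link_JJ (σ : Finset (Σ j : Fin m, Fin (a j + 1))) :
    link (JJ a) σ = XX (Sigma.fst : (Σ j : Fin m, Fin (a j + 1)) → Fin m) σ := by
  ext τ
  simp only [link, Set.mem_ofPred_eq, mem_JJ_iff]
  constructor
  · rintro ⟨h1, h2⟩
    refine ⟨h2, fun j => ?_⟩
    obtain ⟨v, hv1, hv2, _⟩ := h1.2 j
    rw [Finset.mem_union, not_or] at hv2
    exact ⟨v, hv1, hv2.1, hv2.2⟩
  · intro h
    refine ⟨⟨Finset.disjoint_empty_right _, fun j => ?_⟩, h.1⟩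
    obtain ⟨v, hv1, hv2, hv3⟩ := h.2 j
    refine ⟨v, hv1, ?_, Finset.notMem_empty _⟩
    rw [Finset.mem_union, not_or]
    exact ⟨hv2, hv3⟩

theorem card_vertices : Fintype.card (Σ j : Fin m, Fin (a j + 1)) = (∑ j, a j) + m := by
  rw [Fintype.card_sigma]
  simp [Finset.sum_add_distrib]

theorem JJ_card_le {σ : Finset (Σ j : Fin m, Fin (a j + 1))} (h : σ ∈ JJ a) :
    σ.card ≤ ∑ j, a j := by
  have := card_le_of_mem (mem_JJ_iff.1 h)
  rw [card_vertices, Fintype.card_fin, Finset.card_empty] at this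
  omega

theorem isSphere_JJ (ha : ∀ j, 1 ≤ a j) : IsSphere (JJ a) (∑ j, a j) := by
  classical
  refine ⟨⟨?_, ?_, ?_⟩, ?_, ?_⟩
  · rw [mem_JJ]
    intro j
    exact ⟨0, Finset.notMem_empty _⟩
  · intro s hs t ht
    rw [mem_JJ] at hs ⊢
    intro j
    obtain ⟨x, hx⟩ := hs j
    exact ⟨x, fun h => hx (ht h)⟩
  · rintro ⟨i, x⟩
    rw [mem_JJ]
    intro j
    by_cases hij : j = i
    · subst hij
      have h2 : 1 < Fintype.card (Fin (a j + 1)) := by
        rw [Fintype.card_fin]; have := ha j; omega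
      obtain ⟨y, hy⟩ := Fintype.exists_ne_of_one_lt_card h2 x
      refine ⟨y, ?_⟩
      rw [Finset.mem_singleton]
      intro h
      exact hy (eq_of_heq (Sigma.mk.inj h).2)
    · refine ⟨0, ?_⟩
      rw [Finset.mem_singleton]
      intro h
      exact hij (Sigma.mk.inj h).1
  · intro σ hσ
    refine ⟨JJ_card_le hσ, ?_⟩
    rw [mem_JJ] at hσ
    choose v hv using hσ
    refine ⟨(univ.image (fun j => (⟨j, v j⟩ : Σ j : Fin m, Fin (a j + 1))))ᶜ, ?_, ?_, ?_⟩
    · rw [mem_JJ]
      intro j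
      refine ⟨v j, ?_⟩
      rw [Finset.mem_compl, not_not]
      exact Finset.mem_image_of_mem _ (Finset.mem_univ j)
    · intro x hx
      rw [Finset.mem_compl, Finset.mem_image]
      rintro ⟨j, _, rfl⟩
      exact hv j hx
    · rw [Finset.card_compl, Finset.card_image_of_injective, card_vertices, Finset.card_univ,
        Fintype.card_fin]
      · omega
      · intro i j h
        exact (Sigma.mk.inj h).1
  · intro σ hσ
    rw [link_JJ]
    have h := hasSphereHomology_XX (Sigma.fst : (Σ j : Fin m, Fin (a j + 1)) → Fin m) σ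
      (fun j => by
        obtain ⟨x, hx⟩ := mem_JJ.1 hσ j
        exact ⟨⟨j, x⟩, rfl, hx⟩)
    rw [card_vertices, Fintype.card_fin, Nat.add_sub_cancel] at h
    exact h

/-- block `j` -/
def block (a : Fin m → ℕ) (j : Fin m) : Finset (Σ j : Fin m, Fin (a j + 1)) :=
  univ.filter (fun x => x.1 = j)

theorem card_block (j : Fin m) : (block a j).card = a j + 1 := by
  have : block a j = univ.image (fun x : Fin (a j + 1) => (⟨j, x⟩ : Σ j : Fin m, Fin (a j + 1))) := by
    ext ⟨i, x⟩
    simp only [block, Finset.mem_filter, Finset.mem_univ, true_and, Finset.mem_image]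
    constructor
    · rintro rfl; exact ⟨x, rfl⟩
    · rintro ⟨y, h⟩; exact (Sigma.mk.inj h).1.symm
  rw [this, Finset.card_image_of_injective, Finset.card_univ, Fintype.card_fin]
  intro x y h
  exact eq_of_heq (Sigma.mk.inj h).2

theorem not_mem_JJ_iff {σ : Finset (Σ j : Fin m, Fin (a j + 1))} :
    σ ∉ JJ a ↔ ∃ j, block a j ⊆ σ := by
  rw [mem_JJ]
  push Not
  refine exists_congr (fun j => ?_)
  constructor
  · rintro h ⟨i, x⟩ hx
    simp only [block, Finset.mem_filter, Finset.mem_univ, true_and] at hx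
    subst hx
    exact h x
  · intro h x
    exact h (by simp [block])

theorem missing_JJ {τ : Finset (Σ j : Fin m, Fin (a j + 1))} :
    IsMissing (JJ a) τ ↔ ∃ j, τ = block a j := by
  constructor
  · rintro ⟨h1, h2⟩
    obtain ⟨j, hj⟩ := not_mem_JJ_iff.1 h1
    refine ⟨j, ?_⟩
    by_contra hne
    have h3 := h2 _ (Finset.ssubset_iff_subset_ne.2 ⟨hj, fun h => hne h.symm⟩)
    exact (not_mem_JJ_iff.2 ⟨j, Finset.Subset.refl _⟩) h3
  · rintro ⟨j, rfl⟩
    refine ⟨not_mem_JJ_iff.2 ⟨j, Finset.Subset.refl _⟩, fun ρ hρ => ?_⟩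
    by_contra hn
    obtain ⟨i, hi⟩ := not_mem_JJ_iff.1 hn
    have hij : i = j := by
      have h1 : (⟨i, 0⟩ : Σ j : Fin m, Fin (a j + 1)) ∈ block a j :=
        hρ.1 (hi (by simp [block]))
      simpa [block] using h1
    subst hij
    exact hρ.2 hi

theorem block_injective : Function.Injective (block a) := by
  intro i j h
  have : (⟨i, 0⟩ : Σ j : Fin m, Fin (a j + 1)) ∈ block a j := by
    rw [← h]; simp [block]
  simpa [block] using this

/-- Isomorphic joins have the same blocks. -/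
theorem iso_blocks {n : ℕ} {b : Fin n → ℕ} (h : Isomorphic (JJ a) (JJ b)) :
    ∃ f : Fin n → Fin m, Function.Injective f ∧ ∀ i, a (f i) = b i := by
  obtain ⟨e, he⟩ := h
  have hmiss : ∀ i : Fin n, IsMissing (JJ a) ((block b i).map e.symm.toEmbedding) := by
    intro i
    have hmap : ∀ σ : Finset (Σ j : Fin n, Fin (b j + 1)),
        (σ.map e.symm.toEmbedding).map e.toEmbedding = σ := by
      intro σ
      rw [Finset.map_map]
      have : e.symm.toEmbedding.trans e.toEmbedding = Function.Embedding.refl _ := by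
        exact DFunLike.ext _ _ (fun x => by simp)
      rw [this, Finset.map_refl]
    have hb : IsMissing (JJ b) (block b i) := missing_JJ.2 ⟨i, rfl⟩
    refine ⟨?_, fun ρ hρ => ?_⟩
    · rw [he, hmap]; exact hb.1
    · rw [he]
      apply hb.2
      have := (Finset.map_ssubset_map (f := e.toEmbedding)).2 hρ
      rwa [hmap] at this
  choose f hf using fun i => missing_JJ.1 (hmiss i)
  refine ⟨f, ?_, fun i => ?_⟩
  · intro i j hij
    have h1 := hf i
    rw [hij, ← hf j] at h1
    exact block_injective ((Finset.map_injective _) h1)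
  · have h1 := congrArg Finset.card (hf i)
    rw [Finset.card_map, card_block, card_block] at h1
    omega

end Pool.Helper43.Sph
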