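import Pool.Agent.Helper43.SphC

namespace Pool.Helper43.Sph

open Finset Polynomial

theorem hPoly_eq {V : Type} [Fintype V] [DecidableEq V] (Δ : Set (Finset V)) [DecidablePred (· ∈ Δ)]
    (d : ℕ) (hd : ∀ σ ∈ Δ, σ.card ≤ d) :
    hPoly Δ d = ∑ σ ∈ univ.filter (fun σ : Finset V => σ ∈ Δ), (X - 1 : ℤ[X]) ^ (d - σ.card) := by
  unfold hPoly
  have h1 : ∀ i, ({σ | σ ∈ Δ ∧ σ.card = i} : Set (Finset V)).ncard =
      ((univ.filter (fun σ : Finset V => σ ∈ Δ)).filter (fun σ => σ.card = i)).card := by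
    intro i
    rw [← Set.ncard_coe_finset]
    congr 1
    ext σ
    simp
  rw [← Finset.sum_fiberwise_of_maps_to (s := univ.filter (fun σ : Finset V => σ ∈ Δ))
    (t := Finset.range (d + 1)) (g := fun σ => σ.card)]
  · refine Finset.sum_congr rfl (fun i _ => ?_)
    rw [h1 i]
    rw [Finset.sum_congr rfl (g := fun _ => (X - 1 : ℤ[X]) ^ (d - i))
      (fun σ hσ => by rw [(Finset.mem_filter.1 hσ).2])]
    rw [Finset.sum_const, nsmul_eq_mul]
    simp
  · intro σ hσ
    rw [Finset.mem_range]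
    have := hd σ (by simpa using hσ)
    omega

variable {m : ℕ} {a : Fin m → ℕ}

theorem sum_nonempty (n : ℕ) (y : ℤ[X]) :
    ∑ G ∈ univ.filter (fun G : Finset (Fin n) => G.Nonempty), y ^ G.card = (y + 1) ^ n - 1 := by
  have h := Fintype.sum_pow_mul_eq_add_pow (Fin n) y 1
  simp only [one_pow, mul_one, Fintype.card_fin] at h
  rw [← h, ← Finset.sum_filter_add_sum_filter_not univ (fun G : Finset (Fin n) => G.Nonempty)]
  have h2 : univ.filter (fun G : Finset (Fin n) => ¬ G.Nonempty) = {∅} := by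
    ext G; simp
  rw [h2]
  simp

theorem sum_JJ [DecidablePred (· ∈ JJ a)] (y : ℤ[X]) :
    ∑ σ ∈ univ.filter (fun σ => σ ∈ JJ a), y ^ (σᶜ).card = ∏ j, ((y + 1) ^ (a j + 1) - 1) := by
  classical
  have h1 : ∏ j, ((y + 1) ^ (a j + 1) - 1) =
      ∏ j, ∑ G ∈ univ.filter (fun G : Finset (Fin (a j + 1)) => G.Nonempty), y ^ G.card :=
    Finset.prod_congr rfl (fun j _ => (sum_nonempty _ _).symm)
  rw [h1, Finset.prod_univ_sum]
  refine Finset.sum_bij' (fun σ _ => fun j => univ.filter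
      (fun x : Fin (a j + 1) => (⟨j, x⟩ : Σ j : Fin m, Fin (a j + 1)) ∉ σ))
    (fun g _ => (univ.sigma g)ᶜ) ?_ ?_ ?_ ?_ ?_
  · intro σ hσ
    simp only [Finset.mem_filter, Finset.mem_univ, true_and] at hσ
    rw [Fintype.mem_piFinset]
    intro j
    simp only [Finset.mem_filter, Finset.mem_univ, true_and]
    obtain ⟨x, hx⟩ := mem_JJ.1 hσ j
    exact ⟨x, by simpa using hx⟩
  · intro g hg
    rw [Fintype.mem_piFinset] at hg
    simp only [Finset.mem_filter, Finset.mem_univ, true_and]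
    rw [mem_JJ]
    intro j
    have := hg j
    simp only [Finset.mem_filter, Finset.mem_univ, true_and] at this
    obtain ⟨x, hx⟩ := this
    exact ⟨x, by simpa using hx⟩
  · intro σ _
    ext ⟨j, x⟩
    simp
  · intro g _
    funext j
    ext x
    simp
  · intro σ _
    rw [Finset.prod_pow_eq_pow_sum]
    congr 1
    have : σᶜ = univ.sigma (fun j => univ.filter
      (fun x : Fin (a j + 1) => (⟨j, x⟩ : Σ j : Fin m, Fin (a j + 1)) ∉ σ)) := by
      ext ⟨j, x⟩
      simp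
    rw [this, Finset.card_sigma]

theorem hPoly_JJ_mul : (X - 1 : ℤ[X]) ^ m * hPoly (JJ a) (∑ j, a j) =
    ∏ j, ((X : ℤ[X]) ^ (a j + 1) - 1) := by
  classical
  rw [hPoly_eq _ _ (fun σ hσ => JJ_card_le hσ), Finset.mul_sum]
  have h := sum_JJ (a := a) (X - 1 : ℤ[X])
  simp only [sub_add_cancel] at h
  rw [← h]
  refine Finset.sum_congr rfl (fun σ hσ => ?_)
  simp only [Finset.mem_filter, Finset.mem_univ, true_and] at hσ
  have h1 := JJ_card_le hσ
  rw [← pow_add, Finset.card_compl, card_vertices]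
  congr 1
  omega

theorem hPoly_JJ : hPoly (JJ a) (∑ j, a j) =
    ∏ j, ∑ i ∈ Finset.range (a j + 1), (X : ℤ[X]) ^ i := by
  have h0 : (X - 1 : ℤ[X]) ≠ 0 := by
    intro h
    have := congrArg (fun p : ℤ[X] => p.coeff 1) h
    simp [Polynomial.coeff_one] at this
  apply mul_left_cancel₀ (pow_ne_zero m h0)
  rw [hPoly_JJ_mul]
  have : (X - 1 : ℤ[X]) ^ m = ∏ _j : Fin m, (X - 1 : ℤ[X]) := by simp
  rw [this, ← Finset.prod_mul_distrib]
  refine Finset.prod_congr rfl (fun j _ => ?_)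
  rw [mul_geom_sum]

theorem coeff_geom (n i : ℕ) : (∑ t ∈ Finset.range n, (X : ℤ[X]) ^ t).coeff i =
    if i < n then 1 else 0 := by
  rw [Polynomial.finsetSum_coeff]
  simp only [Polynomial.coeff_X_pow]
  rw [Finset.sum_ite_eq]
  simp

/-- the dimensions of the three simplices -/
def dims (k : ℕ) : Fin 3 → ℕ := ![k - 1, k - 2, 3]

theorem dims_sum {k : ℕ} (hk : 5 ≤ k) : ∑ j, dims k j = 2 * k := by
  simp [dims, Fin.sum_univ_three]
  omega

theorem g_dims {k : ℕ} (hk : 5 ≤ k) : gNumber (JJ (dims k)) (2 * k) k = 1 := by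
  have hP := hPoly_JJ (a := dims k)
  rw [dims_sum hk, Fin.prod_univ_three] at hP
  have e0 : dims k 0 = k - 1 := rfl
  have e1 : dims k 1 = k - 2 := rfl
  have e2 : dims k 2 = 3 := rfl
  rw [e0, e1, e2, show k - 1 + 1 = k by omega, show k - 2 + 1 = k - 1 by omega] at hP
  unfold gNumber hNumber
  rw [if_neg (by omega), show 2 * k - k = k by omega, show 2 * k - (k - 1) = k + 1 by omega]
  set P := hPoly (JJ (dims k)) (2 * k) with hPdef
  set Q : ℤ[X] := (∑ t ∈ Finset.range (k - 1), (X : ℤ[X]) ^ t) *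
    (∑ t ∈ Finset.range (3 + 1), (X : ℤ[X]) ^ t) with hQ
  have h1 : (X - 1 : ℤ[X]) * P = (X ^ k - 1) * Q := by
    rw [hP, hQ, ← mul_geom_sum (X : ℤ[X]) k]
    ring
  have h2 := congrArg (fun p : ℤ[X] => p.coeff (k + 1)) h1
  simp only [sub_mul, one_mul, Polynomial.coeff_sub, Polynomial.coeff_X_mul] at h2
  rw [Polynomial.coeff_X_pow_mul' Q k (k + 1)] at h2
  rw [if_pos (by omega), show k + 1 - k = 1 by omega] at h2
  rw [h2]
  have hQ2 : Q = (∑ t ∈ Finset.range (k - 1), (X : ℤ[X]) ^ t) * X ^ 0 +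
      (∑ t ∈ Finset.range (k - 1), (X : ℤ[X]) ^ t) * X ^ 1 +
      (∑ t ∈ Finset.range (k - 1), (X : ℤ[X]) ^ t) * X ^ 2 +
      (∑ t ∈ Finset.range (k - 1), (X : ℤ[X]) ^ t) * X ^ 3 := by
    rw [hQ]
    simp only [Finset.sum_range_succ, Finset.sum_range_zero]
    ring
  have hc : ∀ n, Q.coeff n = (if n < k - 1 then 1 else 0) +
      (if 1 ≤ n then (if n - 1 < k - 1 then 1 else 0) else 0) +
      (if 2 ≤ n then (if n - 2 < k - 1 then 1 else 0) else 0) +
      (if 3 ≤ n then (if n - 3 < k - 1 then 1 else 0) else 0) := by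
    intro n
    rw [hQ2]
    simp only [Polynomial.coeff_add, Polynomial.coeff_mul_X_pow', coeff_geom]
    simp
  rw [hc 1, hc (k + 1)]
  rw [if_pos (by omega), if_pos (by omega), if_pos (by omega), if_neg (by omega),
    if_neg (by omega), if_neg (by omega), if_pos (by omega), if_neg (by omega),
    if_pos (by omega), if_neg (by omega), if_pos (by omega), if_pos (by omega)]
  norm_num

theorem inS_dims {k : ℕ} (hk : 5 ≤ k) : InS (JJ (dims k)) (k - 1) (2 * k) := by
  refine ⟨?_, ?_⟩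
  · have := isSphere_JJ (a := dims k) (by
      intro j
      fin_cases j
      · show 1 ≤ k - 1; omega
      · show 1 ≤ k - 2; omega
      · show 1 ≤ 3; omega)
    rwa [dims_sum hk] at this
  · intro τ hτ
    obtain ⟨j, rfl⟩ := missing_JJ.1 hτ
    rw [card_block]
    fin_cases j
    · show k - 1 + 1 ≤ k - 1 + 1; omega
    · show k - 2 + 1 ≤ k - 1 + 1; omega
    · show 3 + 1 ≤ k - 1 + 1; omega

theorem not_iso {k : ℕ} (hk : 5 ≤ k) (i : ℕ) (h1 : 2 * k ≤ 3 * i) (h2 : i < k) :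
    ¬ Isomorphic (JJ (dims k)) (K i (2 * k)) := by
  intro h
  have hi : 0 < i := by omega
  have hq : (2 * k - 1) / i = 2 := by
    apply Nat.div_eq_of_lt_le
    · omega
    · omega
  obtain ⟨f, hf, hff⟩ := iso_blocks (a := dims k) (b := kDims i (2 * k)) h
  have g0 : kDims i (2 * k) ⟨0, by omega⟩ = i := by
    unfold kDims; rw [if_pos]; show 0 < (2 * k - 1) / i; omega
  have g1 : kDims i (2 * k) ⟨1, by omega⟩ = i := by
    unfold kDims; rw [if_pos]; show 1 < (2 * k - 1) / i; omega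
  have k0 := hff ⟨0, by omega⟩
  have k1 := hff ⟨1, by omega⟩
  rw [g0] at k0
  rw [g1] at k1
  have hne : f ⟨0, by omega⟩ ≠ f ⟨1, by omega⟩ := by
    intro h
    have := hf h
    simp at this
  generalize f ⟨0, by omega⟩ = u at *
  generalize f ⟨1, by omega⟩ = v at *
  have d0 : dims k 0 = k - 1 := rfl
  have d1 : dims k 1 = k - 2 := rfl
  have d2 : dims k 2 = 3 := rfl
  fin_cases u <;> fin_cases v <;> simp only [Fin.zero_eta, Fin.mk_one, Fin.reduceFinMk] at k0 k1 hne <;>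
    first
    | exact hne rfl
    | (rw [d0] at k0; rw [d1] at k1; omega)
    | (rw [d0] at k0; rw [d2] at k1; omega)
    | (rw [d1] at k0; rw [d0] at k1; omega)
    | (rw [d1] at k0; rw [d2] at k1; omega)
    | (rw [d2] at k0; rw [d0] at k1; omega)
    | (rw [d2] at k0; rw [d1] at k1; omega)

end Pool.Helper43.Sph
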