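import Mathlib

open Polynomial

namespace Pool.Helper43.Sph

/-- A finite abstract simplicial complex on the vertex set `V`, given by its set of faces. -/
def IsComplex {V : Type} (Δ : Set (Finset V)) : Prop :=
  ∅ ∈ Δ ∧ (∀ s ∈ Δ, ∀ t, t ⊆ s → t ∈ Δ) ∧ ∀ v : V, {v} ∈ Δ

/-- The link of the face `σ`. -/
def link {V : Type} [DecidableEq V] (Δ : Set (Finset V)) (σ : Finset V) : Set (Finset V) :=
  {τ | τ ∪ σ ∈ Δ ∧ Disjoint τ σ}

/-- The chains with coefficients in `Z/2` on the members of `K` with `s` elements. -/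
def chains {V : Type} (K : Set (Finset V)) (s : ℕ) : Submodule (ZMod 2) (Finset V → ZMod 2) where
  carrier := {c | ∀ σ, c σ ≠ 0 → σ ∈ K ∧ σ.card = s}
  zero_mem' := fun σ h => absurd rfl h
  add_mem' := by
    intro a b ha hb σ h
    by_cases h1 : a σ = 0
    · exact hb σ (fun h2 => h (by rw [Pi.add_apply, h1, h2, add_zero]))
    · exact ha σ h1
  smul_mem' := by
    intro r a ha σ h
    exact ha σ (fun h2 => h (by rw [Pi.smul_apply, h2, smul_zero]))

/-- The boundary map: the coefficient of `τ` in the boundary of `c` is the sum of the coefficients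
in `c` of the sets `τ ∪ {v}`, `v` not in `τ`. -/
def bdry (V : Type) [Fintype V] [DecidableEq V] :
    (Finset V → ZMod 2) →ₗ[ZMod 2] (Finset V → ZMod 2) where
  toFun c τ := ∑ v ∈ Finset.univ.filter (fun v => v ∉ τ), c (insert v τ)
  map_add' := by intro a b; funext τ; simp [Finset.sum_add_distrib]
  map_smul' := by intro r a; funext τ; simp [Finset.mul_sum]

/-- cycles on sets with `s` elements -/
def cycles {V : Type} [Fintype V] [DecidableEq V] (K : Set (Finset V)) (s : ℕ) :
    Submodule (ZMod 2) (Finset V → ZMod 2) :=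
  chains K s ⊓ LinearMap.ker (bdry V)

/-- boundaries on sets with `s` elements -/
def boundaries {V : Type} [Fintype V] [DecidableEq V] (K : Set (Finset V)) (s : ℕ) :
    Submodule (ZMod 2) (Finset V → ZMod 2) :=
  (chains K (s + 1)).map (bdry V)

/-- `K` has the (reduced) `Z/2`-homology of a sphere of dimension `m - 1`: the homology in
dimension `s - 1` has rank `1` for `s = m` and `0` for every other `s ≥ 0`. -/
def HasSphereHomology {V : Type} [Fintype V] [DecidableEq V] (K : Set (Finset V)) (m : ℕ) : Prop :=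
  ∀ s : ℕ, Module.finrank (ZMod 2) (cycles K s ⧸ (boundaries K s).submoduleOf (cycles K s))
    = if s = m then 1 else 0

/-- `Δ` is a `Z/2`-homology `(d-1)`-sphere. -/
def IsSphere {V : Type} [Fintype V] [DecidableEq V] (Δ : Set (Finset V)) (d : ℕ) : Prop :=
  IsComplex Δ ∧ (∀ σ ∈ Δ, σ.card ≤ d ∧ ∃ τ ∈ Δ, σ ⊆ τ ∧ τ.card = d) ∧
    ∀ σ ∈ Δ, HasSphereHomology (link Δ σ) (d - σ.card)

/-- `τ` is a missing face of `Δ`. -/
def IsMissing {V : Type} (Δ : Set (Finset V)) (τ : Finset V) : Prop :=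
  τ ∉ Δ ∧ ∀ ρ, ρ ⊂ τ → ρ ∈ Δ

/-- `Δ` belongs to the class `S(j, d-1)`: it is a `(d-1)`-sphere all of whose missing faces have
dimension at most `j`. -/
def InS {V : Type} [Fintype V] [DecidableEq V] (Δ : Set (Finset V)) (j d : ℕ) : Prop :=
  IsSphere Δ d ∧ ∀ τ, IsMissing Δ τ → τ.card ≤ j + 1

/-- `∑_i f_{i-1} (x-1)^(d-i)`, where `f_{i-1}` is the number of faces with `i` elements. -/
noncomputable def hPoly {V : Type} (Δ : Set (Finset V)) (d : ℕ) : ℤ[X] :=
  ∑ i ∈ Finset.range (d + 1), C (({σ | σ ∈ Δ ∧ σ.card = i} : Set (Finset V)).ncard : ℤ) *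
    (X - 1) ^ (d - i)

/-- The number `h_i` of a `(d-1)`-dimensional complex: the coefficient of `x^(d-i)`. -/
noncomputable def hNumber {V : Type} (Δ : Set (Finset V)) (d i : ℕ) : ℤ :=
  (hPoly Δ d).coeff (d - i)

/-- The number `g_j = h_j - h_{j-1}` (`j ≥ 1`) of a `(d-1)`-dimensional complex; `g_0 = 1`. -/
noncomputable def gNumber {V : Type} (Δ : Set (Finset V)) (d j : ℕ) : ℤ :=
  if j = 0 then 1 else hNumber Δ d j - hNumber Δ d (j - 1)

/-- Isomorphism of complexes. -/
def Isomorphic {V W : Type} (Δ : Set (Finset V)) (Γ : Set (Finset W)) : Prop :=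
  ∃ e : V ≃ W, ∀ σ : Finset V, σ ∈ Δ ↔ σ.map e.toEmbedding ∈ Γ

/-- The boundary complex of the `a`-simplex: all proper subsets of a set with `a + 1` elements. -/
def simplexBoundary (a : ℕ) : Set (Finset (Fin (a + 1))) := {σ | σ ≠ Finset.univ}

/-- The join of the complexes `Δ 0, ..., Δ (m-1)`, on disjoint vertex sets: a set is a face when
its part in each of the vertex sets is a face of the corresponding complex. -/
def join {m : ℕ} {V : Fin m → Type} [∀ j, Fintype (V j)] [∀ j, DecidableEq (V j)]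
    (Δ : ∀ j, Set (Finset (V j))) : Set (Finset (Σ j, V j)) :=
  {σ | ∀ j, Finset.univ.filter (fun x : V j => (⟨j, x⟩ : Σ j, V j) ∈ σ) ∈ Δ j}

/-- The dimensions of the simplices in `K(i, d-1)`: with `d = q i + r`, `1 ≤ r ≤ i`, they are
`i` (`q` times) and `r`; here `q = (d-1)/i` (rounded down). -/
def kDims (i d : ℕ) (j : Fin ((d - 1) / i + 1)) : ℕ :=
  if j.val < (d - 1) / i then i else d - (d - 1) / i * i

/-- The complex `K(i, d-1)`. -/
def K (i d : ℕ) : Set (Finset (Σ j : Fin ((d - 1) / i + 1), Fin (kDims i d j + 1))) :=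
  join (fun j => simplexBoundary (kDims i d j))

end Pool.Helper43.Sph
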